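import Pool.Agent.Lib.MP_51d96b_an.Mult

open MeasureTheory Set Filter Topology

namespace Pool.Agent.Lib.MP_51d96b_an

/-- integrand of the constant `c(β)` -/
noncomputable def qq (s β t : ℝ) : ℝ :=
  (t ^ β - 1) * (1 - t ^ (2 * s - 1 - β)) * (1 - t) ^ (-1 - 2 * s)

lemma qq_measurable (s β : ℝ) : Measurable (qq s β) := by
  unfold qq
  fun_prop

lemma qq_nonneg {s β t : ℝ} (hs : 1 / 2 ≤ s) (hβ0 : β < 0) (ht : t ∈ Ioo (0:ℝ) 1) :
    0 ≤ qq s β t := by
  unfold qq
  have h1 : 1 ≤ t ^ β := Real.one_le_rpow_of_pos_of_le_one_of_nonpos ht.1 ht.2.le hβ0.le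
  have h2 : t ^ (2 * s - 1 - β) ≤ 1 := Real.rpow_le_one ht.1.le ht.2.le (by linarith)
  have h3 : 0 ≤ (1 - t) ^ (-1 - 2 * s) := Real.rpow_nonneg (by linarith [ht.2]) _
  apply mul_nonneg (mul_nonneg (by linarith) (by linarith)) h3

lemma qq_bound {s β t : ℝ} (hs : 1 / 2 ≤ s) (hs1 : s < 1) (hβ : -1 < β) (hβ0 : β < 0)
    (ht : t ∈ Ioo (0:ℝ) 1) : qq s β t ≤ 8 * t ^ β + 4 * (1 - t) ^ (1 - 2 * s) := by
  have ht0 := ht.1
  have ht1 := ht.2
  have h1t : 0 < 1 - t := by linarith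
  have h1 : 1 ≤ t ^ β := Real.one_le_rpow_of_pos_of_le_one_of_nonpos ht.1 ht.2.le hβ0.le
  have h2 : t ^ (2 * s - 1 - β) ≤ 1 := Real.rpow_le_one ht.1.le ht.2.le (by linarith)
  have h2' : 0 ≤ t ^ (2 * s - 1 - β) := Real.rpow_nonneg ht0.le _
  have h3 : 0 ≤ (1 - t) ^ (-1 - 2 * s) := Real.rpow_nonneg h1t.le _
  have h4 : 0 ≤ (1 - t) ^ (1 - 2 * s) := Real.rpow_nonneg h1t.le _
  unfold qq
  rcases le_total t (1 / 2) with h | h
  · have h5 : (1 - t) ^ (-1 - 2 * s) ≤ 8 := by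
      calc (1 - t) ^ (-1 - 2 * s) ≤ (1 / 2 : ℝ) ^ (-1 - 2 * s) :=
            Real.rpow_le_rpow_of_nonpos (by norm_num) (by linarith) (by linarith)
        _ ≤ (1 / 2 : ℝ) ^ (-3 : ℝ) :=
            Real.rpow_le_rpow_of_exponent_ge (by norm_num) (by norm_num) (by linarith)
        _ = 8 := by
            rw [Real.rpow_neg (by norm_num)]
            norm_num
    calc (t ^ β - 1) * (1 - t ^ (2 * s - 1 - β)) * (1 - t) ^ (-1 - 2 * s)
        ≤ (t ^ β) * 1 * 8 := by
          apply mul_le_mul _ h5 h3 (by positivity)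
          apply mul_le_mul (by linarith) (by linarith) (by linarith) (by positivity)
      _ ≤ _ := by linarith
  · have h5 : t ^ β - 1 ≤ 2 * (1 - t) := by
      have : t ^ β ≤ t ^ (-1 : ℝ) :=
        Real.rpow_le_rpow_of_exponent_ge ht0 ht1.le hβ.le
      rw [Real.rpow_neg_one] at this
      have h6 : t⁻¹ - 1 ≤ 2 * (1 - t) := by
        have : t⁻¹ - 1 = (1 - t) / t := by field_simp
        rw [this, div_le_iff₀ ht0]
        nlinarith
      linarith
    have h6 : 1 - t ^ (2 * s - 1 - β) ≤ 2 * (1 - t) := by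
      have : t ^ (2 : ℝ) ≤ t ^ (2 * s - 1 - β) :=
        Real.rpow_le_rpow_of_exponent_ge ht0 ht1.le (by linarith)
      rw [Real.rpow_two] at this
      nlinarith
    have e : (1 - t) ^ 2 * (1 - t) ^ (-1 - 2 * s) = (1 - t) ^ (1 - 2 * s) := by
      rw [← Real.rpow_natCast (1 - t) 2, ← Real.rpow_add h1t]
      congr 1
      push_cast; ring
    calc (t ^ β - 1) * (1 - t ^ (2 * s - 1 - β)) * (1 - t) ^ (-1 - 2 * s)
        ≤ (2 * (1 - t)) * (2 * (1 - t)) * (1 - t) ^ (-1 - 2 * s) := by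
          apply mul_le_mul_of_nonneg_right _ h3
          apply mul_le_mul h5 h6 (by linarith) (by linarith)
      _ = 4 * ((1 - t) ^ 2 * (1 - t) ^ (-1 - 2 * s)) := by ring
      _ = 4 * (1 - t) ^ (1 - 2 * s) := by rw [e]
      _ ≤ _ := by
          have : 0 ≤ t ^ β := by positivity
          linarith

lemma rpow_integrable_Ioo {β : ℝ} (hβ : -1 < β) {a : ℝ} (ha : 0 ≤ a) :
    IntegrableOn (fun t : ℝ => t ^ β) (Ioo 0 a) := by
  have h1 : IntervalIntegrable (fun x : ℝ => x ^ β) volume 0 a :=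
    intervalIntegral.intervalIntegrable_rpow' hβ
  rwa [intervalIntegrable_iff_integrableOn_Ioo_of_le ha] at h1

lemma qq_integrable {s β : ℝ} (hs : 1 / 2 ≤ s) (hs1 : s < 1) (hβ : -1 < β) (hβ0 : β < 0) :
    IntegrableOn (qq s β) (Ioo 0 1) := by
  refine Integrable.mono' (((rpow_integrable_Ioo hβ zero_le_one).const_mul 8).add
    ((one_sub_rpow_integrable (r := 1 - 2 * s) (by linarith)).const_mul 4))
    (qq_measurable s β).aestronglyMeasurable ?_
  refine (ae_restrict_iff' measurableSet_Ioo).2 (Eventually.of_forall fun t ht => ?_)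
  rw [Real.norm_eq_abs, abs_of_nonneg (qq_nonneg hs hβ0 ht)]
  exact qq_bound hs hs1 hβ hβ0 ht

lemma qq_base {s : ℝ} (hs : 1 / 2 ≤ s) (hs1 : s < 1) :
    ∫ t in Ioo 0 1, qq s (s - 1) t = 1 / (2 * s) := by
  have hs0 : 0 < s := by linarith
  set F : ℝ → ℝ := fun t => -(1 / (2 * s)) * ((1 - t ^ s) ^ 2 * (1 - t) ^ (-(2 * s))) with hF
  have hder : ∀ t ∈ Ioo (0:ℝ) 1, HasDerivAt F (qq s (s - 1) t) t := by
    intro t ht
    have ht0 := ht.1
    have h1t : 0 < 1 - t := by linarith [ht.2]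
    have d1 : HasDerivAt (fun t : ℝ => t ^ s) (s * t ^ (s - 1)) t :=
      Real.hasDerivAt_rpow_const (Or.inl ht0.ne')
    have d2 : HasDerivAt (fun t : ℝ => (1 - t ^ s) ^ 2)
        (2 * (1 - t ^ s) * (-(s * t ^ (s - 1)))) t := by
      have := (d1.const_sub 1).pow 2
      refine this.congr_deriv ?_
      norm_num
    have d3 : HasDerivAt (fun t : ℝ => (1 - t) ^ (-(2 * s)))
        (2 * s * (1 - t) ^ (-1 - 2 * s)) t := by
      have h1 : HasDerivAt (fun t : ℝ => 1 - t) (-1) t := by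
        simpa using (hasDerivAt_id t).const_sub 1
      have := h1.rpow_const (p := -(2 * s)) (Or.inl h1t.ne')
      refine this.congr_deriv ?_
      rw [show -(2 * s) - 1 = -1 - 2 * s by ring]
      ring
    have d4 := (d2.mul d3).const_mul (-(1 / (2 * s)))
    refine d4.congr_deriv ?_
    unfold qq
    have e1 : (1 - t) ^ (-(2 * s)) = (1 - t) * (1 - t) ^ (-1 - 2 * s) := by
      nth_rewrite 2 [← Real.rpow_one (1 - t)]
      rw [← Real.rpow_add h1t]
      congr 1; ring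
    have e2 : t ^ s = t * t ^ (s - 1) := by
      nth_rewrite 2 [← Real.rpow_one t]
      rw [← Real.rpow_add ht0]
      congr 1; ring
    rw [show 2 * s - 1 - (s - 1) = s by ring, e1]
    set P := (1 - t) ^ (-1 - 2 * s)
    set Q := t ^ (s - 1)
    rw [e2]
    field_simp
    ring
  have hint : IntervalIntegrable (qq s (s - 1)) volume 0 1 := by
    rw [intervalIntegrable_iff_integrableOn_Ioo_of_le zero_le_one]
    exact qq_integrable hs hs1 (by linarith) (by linarith)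
  have lim0 : Tendsto F (𝓝[>] 0) (𝓝 (-(1 / (2 * s)))) := by
    have c1 : ContinuousAt F 0 := by
      apply ContinuousAt.mul continuousAt_const
      apply ContinuousAt.mul
      · apply ContinuousAt.pow
        exact continuousAt_const.sub (Real.continuousAt_rpow_const 0 s (Or.inr hs0.le))
      · apply ContinuousAt.rpow_const (by fun_prop) (Or.inl (by norm_num))
    have c2 : F 0 = -(1 / (2 * s)) := by
      simp [hF, Real.zero_rpow hs0.ne']
    have c3 : Tendsto F (𝓝 0) (𝓝 (F 0)) := c1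
    rw [c2] at c3
    exact tendsto_nhdsWithin_of_tendsto_nhds c3
  have lim1 : Tendsto F (𝓝[<] 1) (𝓝 0) := by
    have hb : ∀ᶠ t in 𝓝[<] (1:ℝ), ‖F t‖ ≤ (1 / (2 * s)) * (1 - t) ^ (2 - 2 * s) := by
      filter_upwards [Ioo_mem_nhdsLT zero_lt_one] with t ht
      have ht0 := ht.1
      have h1t : 0 < 1 - t := by linarith [ht.2]
      have g1 : t ^ s ≤ 1 := Real.rpow_le_one ht0.le ht.2.le hs0.le
      have g2 : t ≤ t ^ s := by
        have := Real.rpow_le_rpow_of_exponent_ge ht0 ht.2.le hs1.le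
        rwa [Real.rpow_one] at this
      have g3 : (1 - t ^ s) ^ 2 ≤ (1 - t) ^ 2 := by
        apply pow_le_pow_left₀ (by linarith) (by linarith)
      have g4 : 0 ≤ (1 - t) ^ (-(2 * s)) := Real.rpow_nonneg h1t.le _
      rw [hF, Real.norm_eq_abs]
      simp only
      rw [abs_mul, abs_neg, abs_of_pos (by positivity), abs_of_nonneg (by positivity)]
      apply mul_le_mul_of_nonneg_left _ (by positivity)
      calc (1 - t ^ s) ^ 2 * (1 - t) ^ (-(2 * s)) ≤ (1 - t) ^ 2 * (1 - t) ^ (-(2 * s)) :=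
            mul_le_mul_of_nonneg_right g3 g4
        _ = _ := by
            rw [← Real.rpow_natCast (1 - t) 2, ← Real.rpow_add h1t]
            congr 1
    have hz : Tendsto (fun t : ℝ => (1 / (2 * s)) * (1 - t) ^ (2 - 2 * s)) (𝓝[<] 1) (𝓝 0) := by
      have c1 : ContinuousAt (fun t : ℝ => (1 / (2 * s)) * (1 - t) ^ (2 - 2 * s)) 1 := by
        apply ContinuousAt.mul continuousAt_const
        exact ContinuousAt.rpow_const (by fun_prop) (Or.inr (by linarith))
      have c2 : (1 / (2 * s)) * (1 - (1:ℝ)) ^ (2 - 2 * s) = 0 := by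
        rw [sub_self, Real.zero_rpow (by linarith), mul_zero]
      have c3 : Tendsto (fun t : ℝ => (1 / (2 * s)) * (1 - t) ^ (2 - 2 * s)) (𝓝 1)
        (𝓝 ((1 / (2 * s)) * (1 - (1:ℝ)) ^ (2 - 2 * s))) := c1
      rw [c2] at c3
      exact tendsto_nhdsWithin_of_tendsto_nhds c3
    exact squeeze_zero_norm' hb hz
  have := intervalIntegral.integral_eq_sub_of_hasDerivAt_of_tendsto zero_lt_one hder hint lim0 lim1
  rw [intervalIntegral.integral_of_le zero_le_one, integral_Ioc_eq_integral_Ioo] at this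
  rw [this]
  ring

lemma qq_lt {s β t : ℝ} (hβ : β < s - 1) (ht : t ∈ Ioo (0:ℝ) 1) :
    qq s (s - 1) t < qq s β t := by
  have ht0 := ht.1
  have h1t : 0 < 1 - t := by linarith [ht.2]
  unfold qq
  apply mul_lt_mul_of_pos_right _ (Real.rpow_pos_of_pos h1t _)
  have e1 : 2 * s - 1 - (s - 1) = s := by ring
  rw [e1]
  have e2 : t ^ β * t ^ (2 * s - 1 - β) = t ^ (2 * s - 1) := by
    rw [← Real.rpow_add ht0]; congr 1; ring
  have e3 : t ^ (s - 1) * t ^ s = t ^ (2 * s - 1) := by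
    rw [← Real.rpow_add ht0]; congr 1; ring
  have e4 : t ^ (s - 1 - β) * t ^ β = t ^ (s - 1) := by
    rw [← Real.rpow_add ht0]; congr 1; ring
  have e5 : t ^ (s - 1 - β) * t ^ s = t ^ (2 * s - 1 - β) := by
    rw [← Real.rpow_add ht0]; congr 1; ring
  have p1 : 0 < 1 - t ^ (s - 1 - β) := by
    have := Real.rpow_lt_one ht0.le ht.2 (show 0 < s - 1 - β by linarith)
    linarith
  have p2 : 0 < t ^ β - t ^ s := by
    have := Real.rpow_lt_rpow_of_exponent_gt ht0 ht.2 (show β < s by linarith)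
    linarith
  have p3 := mul_pos p1 p2
  nlinarith [p3, e2, e3, e4, e5]

lemma J_gt {s β : ℝ} (hs : 1 / 2 ≤ s) (hs1 : s < 1) (hβ : -1 < β) (hβs : β < s - 1) :
    1 / (2 * s) < ∫ t in Ioo 0 1, qq s β t := by
  rw [← qq_base hs hs1]
  have hI1 := qq_integrable hs hs1 hβ (by linarith)
  have hI2 := qq_integrable hs hs1 (show -1 < s - 1 by linarith) (by linarith)
  rw [← sub_pos, ← integral_sub hI1 hI2]
  rw [setIntegral_pos_iff_support_of_nonneg_ae]
  · have : Ioo (0:ℝ) 1 ⊆ Function.support (fun t => qq s β t - qq s (s - 1) t) ∩ Ioo 0 1 := by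
      intro t ht
      refine ⟨?_, ht⟩
      have := qq_lt hβs ht
      simp only [Function.mem_support]
      linarith
    refine lt_of_lt_of_le ?_ (measure_mono this)
    simp
  · refine (ae_restrict_iff' measurableSet_Ioo).2 (Eventually.of_forall fun t ht => ?_)
    have := qq_lt hβs ht
    simp only [Pi.zero_apply]
    linarith
  · exact hI1.sub hI2

lemma J_half_ge {β : ℝ} (hβ : -1 < β) (hβ2 : β < -(1 / 2)) :
    (1 / 4) * ((1 / 2) / (β + 1) - 1 / 2) ≤ ∫ t in Ioo 0 1, qq (1 / 2) β t := by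
  have hI := qq_integrable (s := 1 / 2) le_rfl (by norm_num) hβ (by linarith)
  have hp : ∀ t ∈ Ioo (0:ℝ) (1 / 2), (1 / 4) * (t ^ β - 1) ≤ qq (1 / 2) β t := by
    intro t ht
    have ht0 := ht.1
    have h1 : 1 ≤ t ^ β := Real.one_le_rpow_of_pos_of_le_one_of_nonpos ht0 (by linarith [ht.2])
      (by linarith)
    unfold qq
    have h2 : t ^ (2 * (1 / 2) - 1 - β) ≤ 3 / 4 := by
      calc t ^ (2 * (1 / 2) - 1 - β) ≤ (1 / 2 : ℝ) ^ (2 * (1 / 2) - 1 - β) :=
            Real.rpow_le_rpow ht0.le ht.2.le (by linarith)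
        _ ≤ (1 / 2 : ℝ) ^ (1 / 2 : ℝ) :=
            Real.rpow_le_rpow_of_exponent_ge (by norm_num) (by norm_num) (by linarith)
        _ ≤ 3 / 4 := by
            rw [← Real.sqrt_eq_rpow]
            apply Real.sqrt_le_iff.2
            constructor <;> norm_num
    have h3 : 1 ≤ (1 - t) ^ (-1 - 2 * (1 / 2 : ℝ)) :=
      Real.one_le_rpow_of_pos_of_le_one_of_nonpos (by linarith [ht.2]) (by linarith) (by norm_num)
    calc (1 / 4) * (t ^ β - 1) = (t ^ β - 1) * (1 / 4) * 1 := by ring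
      _ ≤ (t ^ β - 1) * (1 - t ^ (2 * (1 / 2) - 1 - β)) * (1 - t) ^ (-1 - 2 * (1 / 2 : ℝ)) := by
          apply mul_le_mul _ h3 zero_le_one
          · apply mul_nonneg (by linarith) (by linarith)
          · apply mul_le_mul_of_nonneg_left (by linarith) (by linarith)
  have hint : IntegrableOn (fun t : ℝ => (1 / 4) * (t ^ β - 1)) (Ioo 0 (1 / 2)) := by
    apply Integrable.const_mul
    exact (rpow_integrable_Ioo hβ (by norm_num)).sub (integrableOn_const (by simp))
  have hcomp : ∫ t in Ioo 0 (1 / 2), (1 / 4) * (t ^ β - 1)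
      = (1 / 4) * ((1 / 2) ^ (β + 1) / (β + 1) - 1 / 2) := by
    rw [integral_const_mul]
    congr 1
    rw [integral_sub (rpow_integrable_Ioo hβ (by norm_num)) (integrableOn_const (by simp)),
      ← integral_Ioc_eq_integral_Ioo, ← intervalIntegral.integral_of_le (by norm_num),
      integral_rpow (Or.inl hβ), Real.zero_rpow (by linarith)]
    simp
  calc (1 / 4) * ((1 / 2) / (β + 1) - 1 / 2)
      ≤ (1 / 4) * ((1 / 2) ^ (β + 1) / (β + 1) - 1 / 2) := by
        have : (1 / 2 : ℝ) ≤ (1 / 2 : ℝ) ^ (β + 1) := by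
          have := Real.rpow_le_rpow_of_exponent_ge (show (0:ℝ) < 1 / 2 by norm_num)
            (by norm_num) (show β + 1 ≤ 1 by linarith)
          rwa [Real.rpow_one] at this
        have hpos : 0 < β + 1 := by linarith
        gcongr
    _ = ∫ t in Ioo 0 (1 / 2), (1 / 4) * (t ^ β - 1) := hcomp.symm
    _ ≤ ∫ t in Ioo 0 (1 / 2), qq (1 / 2) β t :=
        setIntegral_mono_on hint (hI.mono_set (Ioo_subset_Ioo_right (by norm_num)))
          measurableSet_Ioo hp
    _ ≤ ∫ t in Ioo 0 1, qq (1 / 2) β t := by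
        apply setIntegral_mono_set hI
        · refine (ae_restrict_iff' measurableSet_Ioo).2 (Eventually.of_forall fun t ht => ?_)
          exact qq_nonneg le_rfl (by linarith) ht
        · exact (Ioo_subset_Ioo_right (by norm_num)).eventuallyLE

/-- choice of the exponent `β` and of the scale `ρ` -/
lemma exists_beta_rho {s : ℝ} (hs : 1 / 2 ≤ s) (hs1 : s < 1) {X : ℝ} (hX : 0 ≤ X) :
    ∃ β ρ : ℝ, -1 < β ∧ β < 0 ∧ 2 * s - 2 < β ∧ 0 < ρ ∧ ρ ≤ 1 ∧
      1 / (2 * s) - (∫ t in Ioo 0 1, qq s β t)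
        + (1 / (2 * s)) * (X * (-β) * ρ ^ (2 * s - 1) + ρ ^ (2 * s)) ≤ 0 := by
  rcases hs.eq_or_lt with h | h
  · subst h
    set a : ℝ := 1 / (16 * (X + 3)) with ha
    have ha0 : 0 < a := by positivity
    have ha1 : a ≤ 1 / 48 := by
      rw [ha]
      apply one_div_le_one_div_of_le (by norm_num)
      linarith
    refine ⟨-1 + a, 1, by linarith, by linarith, by linarith, one_pos, le_rfl, ?_⟩
    have hJ := J_half_ge (β := -1 + a) (by linarith) (by linarith)
    rw [show -1 + a + 1 = a by ring] at hJ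
    have e1 : (1 / 2 : ℝ) / a = 8 * (X + 3) := by
      rw [ha]; field_simp; norm_num
    rw [e1] at hJ
    have e2 : (1:ℝ) ^ (2 * (1 / 2 : ℝ) - 1) = 1 := Real.one_rpow _
    have e3 : (1:ℝ) ^ (2 * (1 / 2 : ℝ)) = 1 := Real.one_rpow _
    rw [e2, e3]
    have e4 : X * (-(-1 + a)) ≤ X := by nlinarith
    norm_num
    nlinarith
  · set β : ℝ := (3 * s - 3) / 2 with hβ
    have hJ := J_gt hs hs1 (show -1 < β by rw [hβ]; linarith) (by rw [hβ]; linarith)
    set κ := (∫ t in Ioo 0 1, qq s β t) - 1 / (2 * s) with hκ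
    have hκ0 : 0 < κ := by rw [hκ]; linarith
    have hlim : Tendsto (fun ρ : ℝ => (1 / (2 * s)) * (X * (-β) * ρ ^ (2 * s - 1) + ρ ^ (2 * s)))
        (𝓝 0) (𝓝 ((1 / (2 * s)) * (X * (-β) * (0:ℝ) ^ (2 * s - 1) + (0:ℝ) ^ (2 * s)))) := by
      have c1 : Tendsto (fun ρ : ℝ => ρ ^ (2 * s - 1)) (𝓝 0) (𝓝 ((0:ℝ) ^ (2 * s - 1))) :=
        Real.continuousAt_rpow_const 0 (2 * s - 1) (Or.inr (by linarith))
      have c2 : Tendsto (fun ρ : ℝ => ρ ^ (2 * s)) (𝓝 0) (𝓝 ((0:ℝ) ^ (2 * s))) :=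
        Real.continuousAt_rpow_const 0 (2 * s) (Or.inr (by linarith))
      exact ((c1.const_mul (X * (-β))).add c2).const_mul _
    rw [Real.zero_rpow (by linarith), Real.zero_rpow (by linarith)] at hlim
    simp only [mul_zero, add_zero] at hlim
    have hev := (tendsto_nhdsWithin_of_tendsto_nhds (s := Ioi 0) hlim).eventually (gt_mem_nhds hκ0)
    have hev2 : ∀ᶠ ρ in 𝓝[>] (0:ℝ), ρ ∈ Ioo (0:ℝ) 1 := Ioo_mem_nhdsGT zero_lt_one
    obtain ⟨ρ, h1, h2⟩ := (hev.and hev2).exists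
    refine ⟨β, ρ, by rw [hβ]; linarith, by rw [hβ]; linarith, by rw [hβ]; linarith,
      h2.1, h2.2.le, ?_⟩
    linarith [h1, hκ]

end Pool.Agent.Lib.MP_51d96b_an
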