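import Pool.Agent.Lib.MP_51d96b_an.Near

open MeasureTheory Set Filter Topology
open scoped ContDiff

namespace Pool.Agent.Lib.MP_51d96b_an

lemma contDiff_two {f : ℝ → ℝ} (hf : ContDiff ℝ ∞ f) : ContDiff ℝ 2 f := by
  exact_mod_cast (contDiff_infty.1 hf 2)

lemma LL_integrable {s X : ℝ} (hs : 0 < s) (hs1 : s < 1) {f : ℝ → ℝ} (hf : ContDiff ℝ ∞ f)
    (hc : HasCompactSupport f) : Integrable (LL s X f) := by
  unfold LL
  apply (SD_integrable hs hs1 (contDiff_two hf) hc).add
  have hf' : Continuous (deriv f) := (contDiff_infty_iff_deriv.1 hf).2.continuous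
  have h1 : Integrable f := hf.continuous.integrable_of_hasCompactSupport hc
  have h2 : Integrable (fun x => (X - x) * deriv f x) := by
    apply Continuous.integrable_of_hasCompactSupport (by fun_prop)
    exact hc.deriv.mul_left
  exact (h1.sub h2).const_mul _

lemma mul_LL_integrable {s X : ℝ} (hs : 0 < s) (hs1 : s < 1) {f : ℝ → ℝ} (hf : ContDiff ℝ ∞ f)
    (hc : HasCompactSupport f) {V : ℝ → ℝ} (hVm : Measurable V) {M : ℝ} (hVb : ∀ x, |V x| ≤ M) :
    Integrable (fun x => V x * LL s X f x) :=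
  Integrable.bdd_mul (c := M) (LL_integrable hs hs1 hf hc) hVm.aestronglyMeasurable
    (Eventually.of_forall fun x => by rw [Real.norm_eq_abs]; exact hVb x)

theorem no_linear_bound {s X : ℝ} (hs : 1 / 2 ≤ s) (hs1 : s < 1) (hX : 0 ≤ X) {V : ℝ → ℝ}
    (hVm : Measurable V) {M : ℝ} (hVb : ∀ x, |V x| ≤ M) (hV0 : ∀ x < 0, V x = 0)
    (hVpos : ∀ x > 0, 0 < V x)
    (heq : ∀ φ : ℝ → ℝ, ContDiff ℝ ∞ φ → HasCompactSupport φ → tsupport φ ⊆ Ioi 0 →
      ∫ x, V x * LL s X φ x = 0)
    {C δ : ℝ} (hδ : 0 < δ) (hlin : ∀ x ∈ Ioo 0 δ, V x ≤ C * x) : False := by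
  have hs0 : 0 < s := by linarith
  obtain ⟨β, ρ, hβ, hβ0, hβs, hρ, hρ1, hcond⟩ := exists_beta_rho hs hs1 hX
  set κ := (2 + β - 2 * s) / 2 with hκ
  have hκ0 : 0 < κ := by rw [hκ]; linarith
  have hM0 : 0 ≤ M := (abs_nonneg _).trans (hVb 0)
  -- global linear bound
  set C' := max C (M / δ) with hC'
  have hC'0 : 0 ≤ C' := le_max_of_le_right (by positivity)
  have hlin' : ∀ x, 0 < x → V x ≤ C' * x := by
    intro x hx
    rcases lt_or_ge x δ with h | h
    · exact (hlin x ⟨hx, h⟩).trans (mul_le_mul_of_nonneg_right (le_max_left _ _) hx.le)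
    · calc V x ≤ |V x| := le_abs_self _
        _ ≤ M := hVb x
        _ = M / δ * δ := by field_simp
        _ ≤ M / δ * x := by gcongr
        _ ≤ C' * x := mul_le_mul_of_nonneg_right (le_max_right _ _) hx.le
  obtain ⟨C1, hC10, hC1⟩ := region_near (X := X) hs hs1 hβ hβ0 hX
  have hβ1 : 0 < β + 1 := by linarith
  set C2 := 256 * C1 + 16 / (β + 1) with hC2
  have hC20 : 0 ≤ C2 := by positivity
  set m0 := ∫ y in Ioo (ρ / 2) ρ, GG (ρ ^ β) (y ^ β) with hm0
  have hm0pos : 0 < m0 := far_const_pos hβ0 hρ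
  -- bound in `(0, ρ)`
  have hin : ∀ ε x : ℝ, 0 < ε → 4 * ε ≤ ρ → 0 < x → x < ρ →
      LL s X (ff β ρ ε) x ≤ C2 * ε ^ κ * x ^ (β - 2 * s - κ) := by
    intro ε x hε hε4 hx hxρ
    have hεκ : 0 < ε ^ κ := Real.rpow_pos_of_pos hε _
    have hxe : 0 < x ^ (β - 2 * s - κ) := Real.rpow_pos_of_pos hx _
    rcases le_total x (4 * ε) with h | h
    · have h1 := hC1 ρ ε x hρ hε (by linarith) hx h
      have h2 : ε ^ (β - 2 * s) ≤ 256 * ε ^ κ * x ^ (β - 2 * s - κ) := by
        have e1 : ε ^ (β - 2 * s) = ε ^ κ * ε ^ (β - 2 * s - κ) := by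
          rw [← Real.rpow_add hε]; congr 1; ring
        have e2 : ε ^ (β - 2 * s - κ) ≤ (x / 4) ^ (β - 2 * s - κ) :=
          Real.rpow_le_rpow_of_nonpos (by positivity) (by linarith) (by linarith)
        have e3 : (x / 4) ^ (β - 2 * s - κ) = x ^ (β - 2 * s - κ) * (1 / 4) ^ (β - 2 * s - κ) := by
          rw [← Real.mul_rpow hx.le (by norm_num)]; congr 1; ring
        have e4 : (1 / 4 : ℝ) ^ (β - 2 * s - κ) ≤ 256 := by
          calc (1 / 4 : ℝ) ^ (β - 2 * s - κ) ≤ (1 / 4 : ℝ) ^ (-4 : ℝ) :=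
                Real.rpow_le_rpow_of_exponent_ge (by norm_num) (by norm_num)
                  (by rw [hκ]; linarith)
            _ = 256 := by
                rw [Real.rpow_neg (show (0:ℝ) ≤ 1 / 4 by norm_num)]; norm_num
        calc ε ^ (β - 2 * s) = ε ^ κ * ε ^ (β - 2 * s - κ) := e1
          _ ≤ ε ^ κ * (x ^ (β - 2 * s - κ) * (1 / 4) ^ (β - 2 * s - κ)) := by
              rw [← e3]; gcongr
          _ ≤ ε ^ κ * (x ^ (β - 2 * s - κ) * 256) := by gcongr
          _ = _ := by ring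
      calc LL s X (ff β ρ ε) x ≤ C1 * ε ^ (β - 2 * s) := h1
        _ ≤ C1 * (256 * ε ^ κ * x ^ (β - 2 * s - κ)) := by gcongr
        _ = (256 * C1) * ε ^ κ * x ^ (β - 2 * s - κ) := by ring
        _ ≤ C2 * ε ^ κ * x ^ (β - 2 * s - κ) := by
            apply mul_le_mul_of_nonneg_right _ hxe.le
            apply mul_le_mul_of_nonneg_right _ hεκ.le
            rw [hC2]
            have : 0 ≤ 16 / (β + 1) := by positivity
            linarith
    · have h1 := region_mid hs hs1 hβ hβ0 hρ hX hcond hε h hxρ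
      have ha0 : 0 < 2 * ε / x := by positivity
      have ha1 : 2 * ε / x ≤ 1 := by rw [div_le_one hx]; linarith
      have e1 : (2 * ε / x) ^ (β + 1) ≤ 2 * ε ^ κ * x ^ (-κ) := by
        calc (2 * ε / x) ^ (β + 1) ≤ (2 * ε / x) ^ κ :=
              Real.rpow_le_rpow_of_exponent_ge ha0 ha1 (by rw [hκ]; linarith)
          _ = 2 ^ κ * ε ^ κ * x ^ (-κ) := by
              rw [Real.div_rpow (by positivity) hx.le, Real.mul_rpow (by norm_num) hε.le,
                Real.rpow_neg hx.le, div_eq_mul_inv]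
          _ ≤ 2 * ε ^ κ * x ^ (-κ) := by
              have : (2:ℝ) ^ κ ≤ 2 := by
                calc (2:ℝ) ^ κ ≤ 2 ^ (1:ℝ) :=
                      Real.rpow_le_rpow_of_exponent_le (by norm_num) (by rw [hκ]; linarith)
                  _ = 2 := Real.rpow_one 2
              gcongr
      have e2 : x ^ (-κ) * x ^ (β - 2 * s) = x ^ (β - 2 * s - κ) := by
        rw [← Real.rpow_add hx]; congr 1; ring
      calc LL s X (ff β ρ ε) x
          ≤ (8 * (2 * ε / x) ^ (β + 1) / (β + 1)) * x ^ (β - 2 * s) := h1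
        _ ≤ (8 * (2 * ε ^ κ * x ^ (-κ)) / (β + 1)) * x ^ (β - 2 * s) := by
            gcongr
        _ = (16 / (β + 1)) * ε ^ κ * (x ^ (-κ) * x ^ (β - 2 * s)) := by ring
        _ = (16 / (β + 1)) * ε ^ κ * x ^ (β - 2 * s - κ) := by rw [e2]
        _ ≤ C2 * ε ^ κ * x ^ (β - 2 * s - κ) := by
            apply mul_le_mul_of_nonneg_right _ hxe.le
            apply mul_le_mul_of_nonneg_right _ hεκ.le
            rw [hC2]
            linarith
  -- the two integrals
  have hVint : IntegrableOn (fun x => V x * x ^ (-1 - 2 * s)) (Ioi ρ) :=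
    Integrable.bdd_mul (c := M) (integrableOn_Ioi_rpow_of_lt (by linarith) hρ)
      hVm.aestronglyMeasurable (Eventually.of_forall fun x => by
        rw [Real.norm_eq_abs]; exact hVb x)
  set v0 := ∫ x in Ioi ρ, V x * x ^ (-1 - 2 * s) with hv0
  have hv0pos : 0 < v0 := by
    rw [hv0, setIntegral_pos_iff_support_of_nonneg_ae]
    · have : Ioi ρ ⊆ Function.support (fun x : ℝ => V x * x ^ (-1 - 2 * s)) ∩ Ioi ρ := by
        intro t ht
        have ht' : ρ < t := ht
        have ht0 : 0 < t := by linarith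
        exact ⟨(mul_pos (hVpos t ht0) (Real.rpow_pos_of_pos ht0 _)).ne', ht⟩
      refine lt_of_lt_of_le ?_ (measure_mono this)
      simp
    · refine (ae_restrict_iff' measurableSet_Ioi).2 (Eventually.of_forall fun x hx => ?_)
      have ht' : ρ < x := hx
      have ht0 : 0 < x := by linarith
      exact (mul_pos (hVpos x ht0) (Real.rpow_pos_of_pos ht0 _)).le
    · exact hVint
  have hWint : IntegrableOn (fun x : ℝ => x ^ (1 + (β - 2 * s - κ))) (Ioo 0 ρ) :=
    rpow_integrable_Ioo (by rw [hκ]; linarith) hρ.le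
  set W := ∫ x in Ioo 0 ρ, x ^ (1 + (β - 2 * s - κ)) with hW
  -- main inequality
  have main : ∀ ε : ℝ, 0 < ε → 4 * ε ≤ ρ → 0 ≤ C' * C2 * W * ε ^ κ - m0 * v0 := by
    intro ε hε hε4
    set f := ff β ρ ε with hf
    have hfs : ContDiff ℝ ∞ f := ff_contDiff hε
    have hfc : HasCompactSupport f := ff_compact hβ0 hρ hε
    have h0 := heq f hfs hfc (by
      intro x hx
      have := ff_tsupport hβ0 hρ hε hx
      exact lt_of_lt_of_le hε this.1)
    have hgint : Integrable (fun x => V x * LL s X f x) := mul_LL_integrable hs0 hs1 hfs hfc hVm hVb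
    have hsplit : ∫ x, V x * LL s X f x = (∫ x in Iic 0, V x * LL s X f x)
        + ((∫ x in Ioc 0 ρ, V x * LL s X f x) + ∫ x in Ioi ρ, V x * LL s X f x) := by
      rw [← setIntegral_union (Ioc_disjoint_Ioi le_rfl) measurableSet_Ioi hgint.integrableOn
        hgint.integrableOn, Ioc_union_Ioi_eq_Ioi hρ.le]
      exact (intervalIntegral.integral_Iic_add_Ioi hgint.integrableOn hgint.integrableOn).symm
    have hneg : ∫ x in Iic 0, V x * LL s X f x = 0 := by
      rw [integral_Iic_eq_integral_Iio]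
      have : ∀ x ∈ Iio (0:ℝ), V x * LL s X f x = 0 := by
        intro x hx
        rw [hV0 x hx, zero_mul]
      rw [setIntegral_congr_fun measurableSet_Iio this]
      simp
    have hmid : ∫ x in Ioc 0 ρ, V x * LL s X f x ≤ C' * C2 * W * ε ^ κ := by
      rw [integral_Ioc_eq_integral_Ioo]
      calc ∫ x in Ioo 0 ρ, V x * LL s X f x
          ≤ ∫ x in Ioo 0 ρ, (C' * C2 * ε ^ κ) * x ^ (1 + (β - 2 * s - κ)) := by
            apply setIntegral_mono_on hgint.integrableOn (hWint.const_mul _) measurableSet_Ioo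
            intro x hx
            have hx0 := hx.1
            have h1 := hin ε x hε hε4 hx0 hx.2
            have h2 := hlin' x hx0
            have h3 := hVpos x hx0
            have hεκ : 0 < ε ^ κ := Real.rpow_pos_of_pos hε _
            have hxe : 0 < x ^ (β - 2 * s - κ) := Real.rpow_pos_of_pos hx0 _
            calc V x * LL s X f x ≤ V x * (C2 * ε ^ κ * x ^ (β - 2 * s - κ)) :=
                  mul_le_mul_of_nonneg_left h1 h3.le
              _ ≤ (C' * x) * (C2 * ε ^ κ * x ^ (β - 2 * s - κ)) :=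
                  mul_le_mul_of_nonneg_right h2 (by positivity)
              _ = (C' * C2 * ε ^ κ) * (x * x ^ (β - 2 * s - κ)) := by ring
              _ = _ := by rw [Real.rpow_add hx0, Real.rpow_one]
        _ = C' * C2 * W * ε ^ κ := by
            rw [integral_const_mul]; ring
    have hfar : ∫ x in Ioi ρ, V x * LL s X f x ≤ -(m0 * v0) := by
      calc ∫ x in Ioi ρ, V x * LL s X f x
          ≤ ∫ x in Ioi ρ, (-m0) * (V x * x ^ (-1 - 2 * s)) := by
            apply setIntegral_mono_on hgint.integrableOn (hVint.const_mul _) measurableSet_Ioi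
            intro x hx
            have hx' : ρ < x := hx
            have h1 := region_far (X := X) hs hs1 hβ0 hρ hε hε4 hx'.le
            calc V x * LL s X f x ≤ V x * (-m0 * x ^ (-1 - 2 * s)) :=
                  mul_le_mul_of_nonneg_left h1 (hVpos x (by linarith)).le
              _ = _ := by ring
        _ = -(m0 * v0) := by
            rw [integral_const_mul]; ring
    rw [hsplit, hneg] at h0
    linarith
  -- let `ε → 0`
  have hlim : Tendsto (fun ε : ℝ => C' * C2 * W * ε ^ κ - m0 * v0) (𝓝[>] 0)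
      (𝓝 (0 - m0 * v0)) := by
    have h1 : Tendsto (fun ε : ℝ => ε ^ κ) (𝓝 0) (𝓝 ((0:ℝ) ^ κ)) :=
      Real.continuousAt_rpow_const 0 κ (Or.inr hκ0.le)
    rw [Real.zero_rpow hκ0.ne'] at h1
    have h2 := (h1.const_mul (C' * C2 * W)).sub_const (m0 * v0)
    rw [mul_zero] at h2
    exact tendsto_nhdsWithin_of_tendsto_nhds h2
  have hge : 0 ≤ 0 - m0 * v0 := by
    apply ge_of_tendsto hlim
    filter_upwards [Ioo_mem_nhdsGT (show (0:ℝ) < ρ / 4 by positivity)] with ε hε
    exact main ε hε.1 (by linarith [hε.2])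
  have := mul_pos hm0pos hv0pos
  linarith

end Pool.Agent.Lib.MP_51d96b_an
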