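import Mathlib

/-!
Definitions for the one-phase fractional Stefan problem in one space dimension.
-/

open MeasureTheory Set Filter Topology
open scoped ContDiff

namespace Pool.Agent.Lib.MP_51d96b_an

/-- The fractional Laplacian on `ℝ` with normalising constant `1`:
`(-Δ)^s v (x) = p.v. ∫ (v x - v y) / |x - y|^(1 + 2 s) dy`, the principal value being the limit,
as `δ ↓ 0`, of the integrals over `{y : |x - y| > δ}`. -/
noncomputable def fracLap (s : ℝ) (v : ℝ → ℝ) (x : ℝ) : ℝ :=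
  limUnder (𝓝[>] (0 : ℝ)) fun δ =>
    ∫ y in {y : ℝ | δ < |x - y|}, (v x - v y) / |x - y| ^ (1 + 2 * s)

/-- `h` is a very weak (distributional) solution of `∂ₜ h + (-Δ)^s (h - L)₊ = 0` in
`ℝ × (0, T)` with initial datum `h₀`: for every test function `ψ` of class `C_c^∞(ℝ × [0, T))`
(here: a smooth compactly supported function on `ℝ × ℝ` with support in `{t < T}`),
`∫_0^T ∫_ℝ (h ∂ₜψ - (h - L)₊ (-Δ)^s ψ) dx dt + ∫_ℝ h₀ ψ(·, 0) dx = 0`. -/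
def IsVeryWeakSolution (s L T : ℝ) (h₀ : ℝ → ℝ) (h : ℝ → ℝ → ℝ) : Prop :=
  ∀ ψ : ℝ × ℝ → ℝ, ContDiff ℝ ∞ ψ → HasCompactSupport ψ → tsupport ψ ⊆ {p | p.2 < T} →
    (∫ t in Ioo 0 T, ∫ x, (h x t * deriv (fun τ => ψ (x, τ)) t
        - max (h x t - L) 0 * fracLap s (fun y => ψ (y, t)) x))
      + ∫ x, h₀ x * ψ (x, 0) = 0

/-- `H` is the (bounded, measurable) self-similar profile of the one-phase fractional Stefan
problem with the step datum `L + P₁` on `x ≤ 0` and `0` on `x > 0`: the function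
`h(x, t) = H (x t^(-1/(2s)))` is a very weak solution in `ℝ × (0, T)` with that datum. -/
def IsStefanProfile (s L P₁ T : ℝ) (H : ℝ → ℝ) : Prop :=
  Measurable H ∧ (∃ M : ℝ, ∀ ξ, |H ξ| ≤ M) ∧
    IsVeryWeakSolution s L T (fun x => if x ≤ 0 then L + P₁ else 0)
      (fun x t => H (x * t ^ (-(1 / (2 * s)))))

/-- `ξ₀` is the free boundary point of the profile `H`: `ξ₀ > 0`, `H ξ₀ = L`, the water region
`{H > L}` is `(-∞, ξ₀)` and the ice region `{H < L}` is `(ξ₀, ∞)`. -/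
def IsFreeBoundaryPoint (L : ℝ) (H : ℝ → ℝ) (ξ₀ : ℝ) : Prop :=
  0 < ξ₀ ∧ H ξ₀ = L ∧ (∀ ξ, ξ < ξ₀ → L < H ξ) ∧ (∀ ξ, ξ₀ < ξ → H ξ < L)

/-- `f ∈ C¹(-∞, ξ₀]`: `f` is continuously differentiable on `(-∞, ξ₀)` and `f'(ξ)` has a finite
limit as `ξ → ξ₀⁻`. -/
def IsC1UpTo (f : ℝ → ℝ) (ξ₀ : ℝ) : Prop :=
  ContDiffOn ℝ 1 f (Iio ξ₀) ∧ ∃ l : ℝ, Tendsto (deriv f) (𝓝[<] ξ₀) (𝓝 l)

end Pool.Agent.Lib.MP_51d96b_an
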