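import Pool.Agent.Lib.MP_51d96b_an.Profile

open MeasureTheory Set Filter Topology
open scoped ContDiff

namespace Pool.Agent.Lib.MP_51d96b_an

/-- the equation in the reflected variable `x = ξ₀ - ξ` -/
theorem reflected_eq {s L ξ₀ : ℝ} {H : ℝ → ℝ} (hHm : Measurable H) {M : ℝ}
    (hHb : ∀ ξ, |H ξ| ≤ M) (hs : 0 < s) (hs1 : s < 1)
    (hwater : ∀ ξ, ξ < ξ₀ → L < H ξ)
    (hprof : ∀ φ : ℝ → ℝ, ContDiff ℝ ∞ φ → HasCompactSupport φ →
      (1 / (2 * s)) * (∫ ξ, H ξ * (φ ξ + ξ * deriv φ ξ))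
        + ∫ ξ, max (H ξ - L) 0 * SD s φ ξ = 0)
    {φ : ℝ → ℝ} (hφ : ContDiff ℝ ∞ φ) (hc : HasCompactSupport φ) (ht : tsupport φ ⊆ Ioi 0) :
    ∫ x, max (H (ξ₀ - x) - L) 0 * LL s ξ₀ φ x = 0 := by
  set V : ℝ → ℝ := fun x => max (H (ξ₀ - x) - L) 0 with hV
  set g : ℝ → ℝ := fun ξ => φ (ξ₀ - ξ) with hg
  have hgs : ContDiff ℝ ∞ g := hφ.comp (contDiff_const.sub contDiff_id)
  have hgd : Differentiable ℝ g := (contDiff_infty_iff_deriv.1 hgs).1
  have hg'c : Continuous (deriv g) := (contDiff_infty_iff_deriv.1 hgs).2.continuous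
  have hφd : Differentiable ℝ φ := (contDiff_infty_iff_deriv.1 hφ).1
  obtain ⟨R, hR0, hR⟩ := exists_support_bound hc
  have hgc : HasCompactSupport g := by
    apply HasCompactSupport.intro (isCompact_Icc (a := ξ₀ - R) (b := ξ₀ + R))
    intro ξ hξ
    apply hR
    by_contra hcon
    push Not at hcon
    rw [abs_le] at hcon
    exact hξ ⟨by linarith [hcon.2], by linarith [hcon.1]⟩
  have hgder : ∀ ξ, deriv g ξ = -deriv φ (ξ₀ - ξ) := by
    intro ξ
    have h1 : HasDerivAt (fun y : ℝ => ξ₀ - y) (-1) ξ := by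
      simpa using (hasDerivAt_id ξ).const_sub ξ₀
    have h2 := (hφd (ξ₀ - ξ)).hasDerivAt.comp ξ h1
    have h3 : deriv g ξ = deriv φ (ξ₀ - ξ) * (-1) := h2.deriv
    rw [h3]; ring
  have h0 := hprof g hgs hgc
  -- `φ` vanishes on the nonpositive half line
  have hφ0 : ∀ x ≤ 0, φ x = 0 := by
    intro x hx
    by_contra h
    have := ht (subset_tsupport φ h)
    exact absurd this (not_lt.2 hx)
  have hφ'0 : ∀ x ≤ 0, deriv φ x = 0 := by
    intro x hx
    by_contra h
    have h1 : x ∈ tsupport (deriv φ) := subset_tsupport _ h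
    have := ht (tsupport_deriv_subset h1)
    exact absurd this (not_lt.2 hx)
  have hM0 : 0 ≤ M := (abs_nonneg _).trans (hHb 0)
  -- integrability
  have i1 : Integrable (fun ξ => g ξ + ξ * deriv g ξ) := by
    apply (hgs.continuous.integrable_of_hasCompactSupport hgc).add
    apply Continuous.integrable_of_hasCompactSupport (by fun_prop)
    exact hgc.deriv.mul_left
  have i2 : Integrable (fun ξ => H ξ * (g ξ + ξ * deriv g ξ)) :=
    Integrable.bdd_mul (c := M) i1 hHm.aestronglyMeasurable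
      (Eventually.of_forall fun x => by rw [Real.norm_eq_abs]; exact hHb x)
  have hzero : ∫ ξ, (g ξ + ξ * deriv g ξ) = 0 := by
    have hder : ∀ ξ, HasDerivAt (fun ξ => ξ * g ξ) (g ξ + ξ * deriv g ξ) ξ := by
      intro ξ
      have := (hasDerivAt_id ξ).mul (hgd ξ).hasDerivAt
      exact this.congr_deriv (by simp)
    apply integral_eq_zero_of_hasDerivAt_of_integrable hder i1
    apply Continuous.integrable_of_hasCompactSupport
    · have := hgs.continuous
      fun_prop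
    · exact hgc.mul_left
  have e1 : ∫ ξ, H ξ * (g ξ + ξ * deriv g ξ)
      = ∫ x, V x * (φ x - (ξ₀ - x) * deriv φ x) := by
    have e2 : ∫ ξ, H ξ * (g ξ + ξ * deriv g ξ) = ∫ ξ, (H ξ - L) * (g ξ + ξ * deriv g ξ) := by
      have : ∫ ξ, (H ξ - L) * (g ξ + ξ * deriv g ξ)
          = (∫ ξ, H ξ * (g ξ + ξ * deriv g ξ)) - ∫ ξ, L * (g ξ + ξ * deriv g ξ) := by
        rw [← integral_sub i2 (i1.const_mul L)]
        congr 1
        ext ξ; ring
      rw [this, integral_const_mul, hzero, mul_zero, sub_zero]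
    rw [e2, ← integral_sub_left_eq_self _ volume ξ₀]
    congr 1
    ext x
    rw [hgder]
    have h1 : g (ξ₀ - x) = φ x := by rw [hg]; simp
    have h2 : ξ₀ - (ξ₀ - x) = x := by ring
    rw [h1, h2]
    rcases le_or_gt x 0 with hx | hx
    · rw [hφ0 x hx, hφ'0 x hx]
      ring
    · have h3 := hwater (ξ₀ - x) (by linarith)
      have h4 : V x = H (ξ₀ - x) - L := by
        rw [hV]; exact max_eq_left (by linarith)
      rw [h4]
      ring
  have e3 : ∫ ξ, max (H ξ - L) 0 * SD s g ξ = ∫ x, V x * SD s φ x := by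
    rw [← integral_sub_left_eq_self _ volume ξ₀]
    congr 1
    ext x
    have : SD s g (ξ₀ - x) = SD s φ x := by
      unfold SD
      congr 1
      ext h
      have : sd2 g (ξ₀ - x) h = sd2 φ x h := by
        unfold sd2
        rw [hg]
        simp only
        rw [show ξ₀ - (ξ₀ - x) = x by ring, show ξ₀ - (ξ₀ - x + h) = x - h by ring,
          show ξ₀ - (ξ₀ - x - h) = x + h by ring]
        ring
      rw [this]
    rw [this]
  rw [e1, e3] at h0
  have hVm : Measurable V := ((hHm.comp (measurable_const.sub measurable_id)).sub_const L).max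
    measurable_const
  have hVb : ∀ x, |V x| ≤ M + |L| := by
    intro x
    rw [hV]
    simp only
    rw [abs_of_nonneg (le_max_right _ _)]
    apply max_le _ (by positivity)
    have h1 := (le_abs_self _).trans (hHb (ξ₀ - x))
    have h2 := neg_abs_le L
    linarith
  have j1 : Integrable (fun x => V x * SD s φ x) :=
    Integrable.bdd_mul (c := M + |L|) (SD_integrable hs hs1 (contDiff_two hφ) hc)
      hVm.aestronglyMeasurable (Eventually.of_forall fun x => by
        rw [Real.norm_eq_abs]; exact hVb x)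
  have hφ'c : Continuous (deriv φ) := (contDiff_infty_iff_deriv.1 hφ).2.continuous
  have j2 : Integrable (fun x => V x * (φ x - (ξ₀ - x) * deriv φ x)) := by
    apply Integrable.bdd_mul (c := M + |L|) _
      hVm.aestronglyMeasurable (Eventually.of_forall fun x => by
        rw [Real.norm_eq_abs]; exact hVb x)
    apply (hφ.continuous.integrable_of_hasCompactSupport hc).sub
    apply Continuous.integrable_of_hasCompactSupport (by fun_prop)
    exact hc.deriv.mul_left
  have e4 : ∫ x, V x * LL s ξ₀ φ x = (∫ x, V x * SD s φ x)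
      + (1 / (2 * s)) * ∫ x, V x * (φ x - (ξ₀ - x) * deriv φ x) := by
    rw [← integral_const_mul, ← integral_add j1 (j2.const_mul _)]
    congr 1
    ext x
    unfold LL
    ring
  rw [e4]
  linarith

/-- **Main statement**, for a profile in the distributional sense. -/
theorem not_C1 {s L ξ₀ : ℝ} {H : ℝ → ℝ} (hHm : Measurable H) {M : ℝ}
    (hHb : ∀ ξ, |H ξ| ≤ M) (hs : 1 / 2 ≤ s) (hs1 : s < 1) (hξ : 0 ≤ ξ₀)
    (hwater : ∀ ξ, ξ < ξ₀ → L < H ξ) (hice : ∀ ξ, ξ₀ < ξ → H ξ < L)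
    (hprof : ∀ φ : ℝ → ℝ, ContDiff ℝ ∞ φ → HasCompactSupport φ →
      (1 / (2 * s)) * (∫ ξ, H ξ * (φ ξ + ξ * deriv φ ξ))
        + ∫ ξ, max (H ξ - L) 0 * SD s φ ξ = 0) : ¬ IsC1UpTo H ξ₀ := by
  rintro ⟨hC1, l, hl⟩
  have hs0 : 0 < s := by linarith
  set V : ℝ → ℝ := fun x => max (H (ξ₀ - x) - L) 0 with hV
  have hM0 : 0 ≤ M := (abs_nonneg _).trans (hHb 0)
  have hVm : Measurable V := ((hHm.comp (measurable_const.sub measurable_id)).sub_const L).max
    measurable_const
  have hVb : ∀ x, |V x| ≤ M + |L| := by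
    intro x
    rw [hV]
    simp only
    rw [abs_of_nonneg (le_max_right _ _)]
    apply max_le _ (by positivity)
    have h1 := (le_abs_self _).trans (hHb (ξ₀ - x))
    have h2 := neg_abs_le L
    linarith
  have hV0 : ∀ x < 0, V x = 0 := by
    intro x hx
    rw [hV]
    exact max_eq_right (by linarith [hice (ξ₀ - x) (by linarith)])
  have hVval : ∀ x > 0, V x = H (ξ₀ - x) - L := by
    intro x hx
    rw [hV]
    exact max_eq_left (by linarith [hwater (ξ₀ - x) (by linarith)])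
  have hVpos : ∀ x > 0, 0 < V x := by
    intro x hx
    rw [hVval x hx]
    linarith [hwater (ξ₀ - x) (by linarith)]
  have heq : ∀ φ : ℝ → ℝ, ContDiff ℝ ∞ φ → HasCompactSupport φ → tsupport φ ⊆ Ioi 0 →
      ∫ x, V x * LL s ξ₀ φ x = 0 := fun φ hφ hc ht =>
    reflected_eq hHm hHb hs0 hs1 hwater hprof hφ hc ht
  -- bounded derivative near `ξ₀`
  have hev : ∀ᶠ ξ in 𝓝[<] ξ₀, |deriv H ξ| ≤ |l| + 1 := by
    have h1 : Tendsto (fun ξ => |deriv H ξ|) (𝓝[<] ξ₀) (𝓝 |l|) := hl.abs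
    filter_upwards [h1.eventually (gt_mem_nhds (show |l| < |l| + 1 by linarith))] with ξ hξ'
    exact le_of_lt hξ'
  obtain ⟨b, hb, hbd⟩ := mem_nhdsLT_iff_exists_Ioo_subset.1 hev
  have hbξ : b < ξ₀ := hb
  set K : NNReal := ⟨|l| + 1, by positivity⟩ with hK
  have hdiff : ∀ ξ ∈ Ioo b ξ₀, DifferentiableAt ℝ H ξ := by
    intro ξ hξ'
    exact (hC1.differentiableOn (by norm_num)).differentiableAt (Iio_mem_nhds hξ'.2)
  have hLip : LipschitzOnWith K H (Ioo b ξ₀) := by
    apply Convex.lipschitzOnWith_of_nnnorm_deriv_le hdiff _ (convex_Ioo b ξ₀)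
    intro ξ hξ'
    have := hbd hξ'
    rw [← NNReal.coe_le_coe]
    simp only [coe_nnnorm, Real.norm_eq_abs, hK]
    exact this
  obtain ⟨G, hG, hGeq⟩ := hLip.extend_real
  have hVG : ∀ x ∈ Ioo 0 (ξ₀ - b), V x = G (ξ₀ - x) - L := by
    intro x hx
    rw [hVval x hx.1, hGeq ⟨by linarith [hx.2], by linarith [hx.1]⟩]
  have hmem : Ioo 0 (ξ₀ - b) ∈ 𝓝[>] (0:ℝ) := Ioo_mem_nhdsGT (by linarith)
  have hlimV : Tendsto V (𝓝[>] 0) (𝓝 (G ξ₀ - L)) := by
    have h1 : Tendsto (fun x => G (ξ₀ - x) - L) (𝓝 0) (𝓝 (G (ξ₀ - 0) - L)) := by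
      apply Continuous.tendsto
      have := hG.continuous
      fun_prop
    rw [sub_zero] at h1
    have h2 := tendsto_nhdsWithin_of_tendsto_nhds (s := Ioi 0) h1
    apply h2.congr'
    filter_upwards [hmem] with x hx
    exact (hVG x hx).symm
  have ha := jump_zero (X := ξ₀) hs hs1 hVm hVb hV0 heq hlimV
  apply no_linear_bound (X := ξ₀) hs hs1 hξ hVm hVb hV0 hVpos heq (C := K) (δ := ξ₀ - b)
    (by linarith)
  intro x hx
  rw [hVG x hx]
  have h1 := hG.dist_le_mul (ξ₀ - x) ξ₀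
  rw [Real.dist_eq, Real.dist_eq, show ξ₀ - x - ξ₀ = -x by ring, abs_neg,
    abs_of_pos hx.1] at h1
  have h2 := le_abs_self (G (ξ₀ - x) - G ξ₀)
  linarith

end Pool.Agent.Lib.MP_51d96b_an
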