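import Pool.Agent.Lib.MP_51d96b_an.SD2

open MeasureTheory Set Filter Topology
open scoped ContDiff

namespace Pool.Agent.Lib.MP_51d96b_an

/-- smooth step -/
noncomputable abbrev SS : ℝ → ℝ := Real.smoothTransition

/-- smooth convex function vanishing up to `B` -/
noncomputable def GG (B z : ℝ) : ℝ := ∫ y in (0:ℝ)..z, SS (y - B)

lemma SS_cont (B : ℝ) : Continuous (fun y => SS (y - B)) :=
  Real.smoothTransition.continuous.comp (continuous_id.sub continuous_const)

lemma GG_hasDerivAt (B z : ℝ) : HasDerivAt (GG B) (SS (z - B)) z :=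
  intervalIntegral.integral_hasDerivAt_right ((SS_cont B).intervalIntegrable _ _)
    ((SS_cont B).stronglyMeasurableAtFilter _ _) (SS_cont B).continuousAt

lemma GG_contDiff (B : ℝ) : ContDiff ℝ ∞ (GG B) := by
  rw [contDiff_infty_iff_deriv]
  refine ⟨fun z => (GG_hasDerivAt B z).differentiableAt, ?_⟩
  have : deriv (GG B) = fun z => SS (z - B) := by
    ext z; exact (GG_hasDerivAt B z).deriv
  rw [this]
  exact Real.smoothTransition.contDiff.comp (contDiff_id.sub contDiff_const)

lemma GG_zero (B : ℝ) : GG B 0 = 0 := by simp [GG]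

/-- convexity inequality -/
lemma GG_sub_le (B a b : ℝ) : GG B a - GG B b ≤ SS (a - B) * (a - b) := by
  have hm : Monotone (fun y => SS (y - B)) := fun x y hxy =>
    Real.smoothTransition.monotone (by linarith)
  have e : GG B a - GG B b = ∫ y in b..a, SS (y - B) := by
    unfold GG
    rw [intervalIntegral.integral_interval_sub_left ((SS_cont B).intervalIntegrable _ _)
      ((SS_cont B).intervalIntegrable _ _)]
  rw [e]
  rcases le_total b a with h | h
  · calc ∫ y in b..a, SS (y - B) ≤ ∫ y in b..a, SS (a - B) := by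
          apply intervalIntegral.integral_mono_on h ((SS_cont B).intervalIntegrable _ _)
            (by simp)
          intro y hy
          exact hm hy.2
      _ = SS (a - B) * (a - b) := by simp [mul_comm]
  · rw [intervalIntegral.integral_symm]
    have : ∫ y in a..b, SS (a - B) ≤ ∫ y in a..b, SS (y - B) := by
      apply intervalIntegral.integral_mono_on h (by simp) ((SS_cont B).intervalIntegrable _ _)
      intro y hy
      exact hm hy.1
    simp only [intervalIntegral.integral_const, smul_eq_mul] at this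
    nlinarith

lemma SS_nonneg (x : ℝ) : 0 ≤ SS x := Real.smoothTransition.nonneg x

lemma SS_le_one (x : ℝ) : SS x ≤ 1 := Real.smoothTransition.le_one x

lemma GG_mono (B : ℝ) : Monotone (GG B) := by
  intro a b hab
  have := GG_sub_le B a b
  have h2 : SS (a - B) * (a - b) ≤ 0 := mul_nonpos_of_nonneg_of_nonpos (SS_nonneg _) (by linarith)
  linarith

lemma GG_of_le {B : ℝ} (hB : 0 ≤ B) {z : ℝ} (hz : z ≤ B) : GG B z = 0 := by
  have h1 := GG_sub_le B z 0
  have h2 := GG_sub_le B 0 z
  have e1 : SS (z - B) = 0 := Real.smoothTransition.zero_of_nonpos (by linarith)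
  have e2 : SS (0 - B) = 0 := Real.smoothTransition.zero_of_nonpos (by linarith)
  rw [e1, GG_zero] at h1
  rw [e2, GG_zero] at h2
  linarith

lemma GG_nonneg {B : ℝ} (hB : 0 ≤ B) (z : ℝ) : 0 ≤ GG B z := by
  rcases le_total z B with h | h
  · rw [GG_of_le hB h]
  · rw [← GG_of_le hB (le_refl B)]
    exact GG_mono B h

lemma GG_le_mul (B z : ℝ) : GG B z ≤ z * SS (z - B) := by
  have := GG_sub_le B z 0
  rw [GG_zero] at this
  linarith

lemma GG_le {B z : ℝ} (hz : 0 ≤ z) : GG B z ≤ z := by
  have h1 := GG_le_mul B z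
  have h2 := SS_le_one (z - B)
  nlinarith

lemma GG_lip (B a b : ℝ) : |GG B a - GG B b| ≤ |a - b| := by
  have key : ∀ a b, b ≤ a → GG B a - GG B b ≤ a - b := by
    intro a b hab
    have := GG_sub_le B a b
    have h2 := SS_le_one (a - B)
    nlinarith
  rcases le_total b a with h | h
  · rw [abs_of_nonneg (sub_nonneg.2 (GG_mono B h)), abs_of_nonneg (sub_nonneg.2 h)]
    exact key a b h
  · rw [abs_sub_comm, abs_sub_comm a b, abs_of_nonneg (sub_nonneg.2 (GG_mono B h)),
      abs_of_nonneg (sub_nonneg.2 h)]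
    exact key b a h

lemma GG_pos {B : ℝ} (hB : 0 ≤ B) {z : ℝ} (hz : B < z) : 0 < GG B z := by
  have h1 := GG_sub_le B ((B + z) / 2) z
  have h2 : 0 < SS ((B + z) / 2 - B) := Real.smoothTransition.pos_of_pos (by linarith)
  have h3 := GG_nonneg hB ((B + z) / 2)
  nlinarith

/-- derivative of the smooth step: smooth with compact support -/
lemma SS_deriv_compact : HasCompactSupport (deriv SS) := by
  apply HasCompactSupport.intro (isCompact_Icc (a := (0:ℝ)) (b := 1))
  intro x hx
  rw [mem_Icc, not_and_or, not_le, not_le] at hx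
  rcases hx with h | h
  · have : SS =ᶠ[𝓝 x] fun _ => 0 := by
      filter_upwards [gt_mem_nhds h] with y hy
      exact Real.smoothTransition.zero_of_nonpos hy.le
    rw [this.deriv_eq]; simp
  · have : SS =ᶠ[𝓝 x] fun _ => 1 := by
      filter_upwards [lt_mem_nhds h] with y hy
      exact Real.smoothTransition.one_of_one_le hy.le
    rw [this.deriv_eq]; simp

lemma SS_deriv_contDiff : ContDiff ℝ ∞ (deriv SS) :=
  (contDiff_infty_iff_deriv.1 (Real.smoothTransition.contDiff (n := ⊤))).2

lemma SS_diff : Differentiable ℝ SS :=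
  (contDiff_infty_iff_deriv.1 (Real.smoothTransition.contDiff (n := ⊤))).1

lemma sd2_of_lip {f : ℝ → ℝ} (hd : Differentiable ℝ f) {C : ℝ} (hC0 : 0 ≤ C)
    (hC : ∀ a b, |deriv f a - deriv f b| ≤ C * |a - b|) {x h : ℝ} (hh : 0 ≤ h) :
    |sd2 f x h| ≤ 2 * C * h ^ 2 := by
  rcases hh.eq_or_lt with h0 | h0
  · subst h0
    simp [sd2]
    ring_nf
  · have hder : ∀ y, HasDerivAt (fun y => f (x + y) + f (x - y))
        (deriv f (x + y) - deriv f (x - y)) y := by
      intro y
      have h1 : HasDerivAt (fun y => f (x + y)) (deriv f (x + y)) y := by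
        have := (hd (x + y)).hasDerivAt.comp_const_add x y
        simpa using this
      have h2 : HasDerivAt (fun y => f (x - y)) (-deriv f (x - y)) y := by
        have := (hd (x - y)).hasDerivAt.comp_const_sub x y
        simpa using this
      exact (h1.fun_add h2).congr_deriv (by ring)
    obtain ⟨c, hc1, hc2⟩ := exists_hasDerivAt_eq_slope (fun y => f (x + y) + f (x - y))
      (fun y => deriv f (x + y) - deriv f (x - y)) h0
      (fun y _ => (hder y).continuousAt.continuousWithinAt) (fun y _ => hder y)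
    have h3 := hC (x + c) (x - c)
    have h4 : |(x + c) - (x - c)| = 2 * c := by
      rw [show (x + c) - (x - c) = 2 * c by ring]
      exact abs_of_nonneg (by linarith [hc1.1])
    have h5 : sd2 f x h = -((deriv f (x + c) - deriv f (x - c)) * h) := by
      simp only [sub_zero, add_zero] at hc2
      rw [hc2, div_mul_cancel₀ _ h0.ne']
      unfold sd2
      ring
    rw [h5, abs_neg, abs_mul, abs_of_pos h0]
    rw [h4] at h3
    have h6 : C * (2 * c) ≤ C * (2 * h) := by
      have := hc1.2.le
      nlinarith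
    calc |deriv f (x + c) - deriv f (x - c)| * h ≤ (C * (2 * h)) * h := by
          apply mul_le_mul_of_nonneg_right (h3.trans h6) h0.le
      _ = 2 * C * h ^ 2 := by ring

/-- constants for the smooth step -/
lemma SS_consts : ∃ A : ℝ, 0 ≤ A ∧ (∀ x h, 0 ≤ h → |sd2 SS x h| ≤ A * h ^ 2) ∧
    (∀ a b, |SS a - SS b| ≤ A * |a - b|) ∧ (∀ a, |deriv SS a| ≤ A) := by
  obtain ⟨C1, hC1⟩ := SS_deriv_compact.exists_bound_of_continuous SS_deriv_contDiff.continuous
  obtain ⟨C2, hC2⟩ := ContDiff.lipschitzWith_of_hasCompactSupport SS_deriv_compact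
    (SS_deriv_contDiff.of_le (m := 1) (by exact_mod_cast le_top)) (by norm_num)
  have hC10 : 0 ≤ C1 := (norm_nonneg _).trans (hC1 0)
  refine ⟨max (2 * C2) C1, le_max_of_le_right hC10, ?_, ?_, ?_⟩
  · intro x h hh
    have := sd2_of_lip SS_diff (C := C2) C2.2 (fun a b => by
      have := hC2.dist_le_mul a b
      rwa [Real.dist_eq, Real.dist_eq] at this) (x := x) hh
    exact this.trans (mul_le_mul_of_nonneg_right (le_max_left _ _) (by positivity))
  · intro a b
    have := Convex.norm_image_sub_le_of_norm_deriv_le (f := SS) (C := C1) (s := univ)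
      (fun x _ => SS_diff x) (fun x _ => hC1 x) convex_univ (mem_univ b) (mem_univ a)
    rw [Real.norm_eq_abs, Real.norm_eq_abs] at this
    exact this.trans (mul_le_mul_of_nonneg_right (le_max_right _ _) (abs_nonneg _))
  · intro a
    exact (hC1 a).trans (le_max_right _ _)

end Pool.Agent.Lib.MP_51d96b_an
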