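import Pool.Agent.Lib.MP_51d96b_an.SD2

open MeasureTheory Set Filter Topology

namespace Pool.Agent.Lib.MP_51d96b_an

lemma setIntegral_sd2 {f : ℝ → ℝ} (hf : Continuous f)
    (hc : HasCompactSupport f) (h0 : ∀ x ≤ 0, f x = 0) {h : ℝ} (hh : 0 < h) :
    ∫ x in Ioi (0:ℝ), sd2 f x h = ∫ x in Iic h, f x := by
  have h1 := hf.integrable_of_hasCompactSupport (μ := volume) hc
  have hb := h1.comp_add_right h
  have hd := h1.comp_sub_right h
  have e0 : ∫ x in Ioi (0:ℝ), sd2 f x h
      = (∫ x in Ioi (0:ℝ), (2 * f x - f (x + h))) - ∫ x in Ioi (0:ℝ), f (x - h) := by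
    unfold sd2
    exact integral_sub ((h1.const_mul 2).sub hb).integrableOn hd.integrableOn
  have e0' : ∫ x in Ioi (0:ℝ), (2 * f x - f (x + h))
      = (∫ x in Ioi (0:ℝ), 2 * f x) - ∫ x in Ioi (0:ℝ), f (x + h) :=
    integral_sub (h1.const_mul 2).integrableOn hb.integrableOn
  have e1 : ∫ x in Ioi (0:ℝ), f x = ∫ x, f x := by
    apply setIntegral_eq_integral_of_forall_compl_eq_zero
    intro x hx
    exact h0 x (not_lt.1 hx)
  have e2 : ∫ x in Ioi (0:ℝ), f (x - h) = ∫ x, f x := by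
    rw [← integral_sub_right_eq_self f h]
    apply setIntegral_eq_integral_of_forall_compl_eq_zero
    intro x hx
    apply h0
    have : x ≤ 0 := not_lt.1 hx
    linarith
  have e3 : ∫ x in Ioi (0:ℝ), f (x + h) = ∫ x in Ioi h, f x := by
    rw [← integral_indicator measurableSet_Ioi, ← integral_indicator measurableSet_Ioi,
      ← integral_add_right_eq_self (fun x => (Ioi h).indicator f x) h]
    congr 1
    ext x
    by_cases hx : 0 < x
    · rw [indicator_of_mem (show x ∈ Ioi (0:ℝ) from hx),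
        indicator_of_mem (show x + h ∈ Ioi h by simp [hx])]
    · rw [indicator_of_notMem (show x ∉ Ioi (0:ℝ) from hx),
        indicator_of_notMem (show x + h ∉ Ioi h by simpa using hx)]
  have e4 : (∫ x in Iic h, f x) + ∫ x in Ioi h, f x = ∫ x, f x :=
    intervalIntegral.integral_Iic_add_Ioi h1.integrableOn h1.integrableOn
  rw [e0, e0', integral_const_mul, e1, e2, e3]
  linarith

lemma integral_SD_pos {s : ℝ} (hs : 0 < s) (hs1 : s < 1) {f : ℝ → ℝ} (hf : ContDiff ℝ 2 f)
    (hc : HasCompactSupport f) (h0 : ∀ x ≤ 0, f x = 0) (hnn : ∀ x, 0 ≤ f x)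
    (hpos : 0 < ∫ x, f x) : 0 < ∫ x in Ioi (0:ℝ), SD s f x := by
  have hI := sd_prod_integrable hs hs1 hf hc
  have hI2 : Integrable (fun p : ℝ × ℝ => sd2 f p.1 p.2 * p.2 ^ (-1 - 2 * s))
      ((volume.restrict (Ioi 0)).prod (volume.restrict (Ioi 0))) := by
    apply hI.mono_measure
    exact Measure.prod_mono Measure.restrict_le_self le_rfl
  have hsw : ∫ x in Ioi (0:ℝ), SD s f x =
      ∫ h in Ioi (0:ℝ), (∫ x in Ioi (0:ℝ), sd2 f x h * h ^ (-1 - 2 * s)) := by
    unfold SD
    exact integral_integral_swap hI2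
  have hI3 : Integrable (fun h : ℝ => ∫ x in Ioi (0:ℝ), sd2 f x h * h ^ (-1 - 2 * s))
      (volume.restrict (Ioi 0)) := hI2.integral_prod_right
  rw [hsw]
  have hcont := hf.continuous
  have hint := hcont.integrable_of_hasCompactSupport (μ := volume) hc
  have hval : ∀ h, 0 < h → ∫ x in Ioi (0:ℝ), sd2 f x h * h ^ (-1 - 2 * s)
      = (∫ x in Iic h, f x) * h ^ (-1 - 2 * s) := by
    intro h hh
    rw [integral_mul_const, setIntegral_sd2 hcont hc h0 hh]
  obtain ⟨R, hR0, hR⟩ := exists_support_bound hc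
  have hge : ∀ h, R < h → ∫ x in Iic h, f x = ∫ x, f x := by
    intro h hh
    apply setIntegral_eq_integral_of_forall_compl_eq_zero
    intro x hx
    have hx' : h < x := not_le.1 hx
    apply hR
    rw [abs_of_pos (by linarith)]
    linarith
  have hnn' : ∀ᵐ h ∂(volume.restrict (Ioi (0:ℝ))),
      0 ≤ ∫ x in Ioi (0:ℝ), sd2 f x h * h ^ (-1 - 2 * s) := by
    refine (ae_restrict_iff' measurableSet_Ioi).2 (Eventually.of_forall fun h hh => ?_)
    rw [hval h hh]
    exact mul_nonneg (integral_nonneg fun x => hnn x) (Real.rpow_nonneg (le_of_lt hh) _)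
  calc 0 < ∫ h in Ioi R, (∫ x, f x) * h ^ (-1 - 2 * s) := by
        rw [integral_const_mul]
        apply mul_pos hpos
        rw [integral_Ioi_rpow_of_lt (by linarith) hR0]
        have : 0 < R ^ (-1 - 2 * s + 1) := Real.rpow_pos_of_pos hR0 _
        have h2 : -1 - 2 * s + 1 < 0 := by linarith
        rw [neg_div]
        rw [Left.neg_pos_iff]
        exact div_neg_of_pos_of_neg this h2
    _ = ∫ h in Ioi R, (∫ x in Ioi (0:ℝ), sd2 f x h * h ^ (-1 - 2 * s)) := by
        apply setIntegral_congr_fun measurableSet_Ioi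
        intro h hh
        have hh' : R < h := hh
        simp only
        rw [hval h (by linarith), hge h hh']
    _ ≤ ∫ h in Ioi (0:ℝ), (∫ x in Ioi (0:ℝ), sd2 f x h * h ^ (-1 - 2 * s)) := by
        apply setIntegral_mono_set hI3 hnn'
        exact (Ioi_subset_Ioi hR0.le).eventuallyLE

end Pool.Agent.Lib.MP_51d96b_an
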