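import Pool.Agent.Lib.MP_51d96b_an.Core
import Pool.Agent.Lib.MP_51d96b_an.Pos

open MeasureTheory Set Filter Topology
open scoped ContDiff

namespace Pool.Agent.Lib.MP_51d96b_an

lemma SD_scale {s : ℝ} {f : ℝ → ℝ} {a : ℝ} (ha : 0 < a) (x : ℝ) :
    SD s (fun y => f (a * y)) x = a ^ (2 * s) * SD s f (a * x) := by
  unfold SD
  have e1 : ∀ h ∈ Ioi (0:ℝ), sd2 (fun y => f (a * y)) x h * h ^ (-1 - 2 * s)
      = (fun k => sd2 f (a * x) k * (a ^ (1 + 2 * s) * k ^ (-1 - 2 * s))) (a * h) := by
    intro h hh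
    have hh0 : 0 < h := hh
    simp only
    have e2 : sd2 (fun y => f (a * y)) x h = sd2 f (a * x) (a * h) := by
      unfold sd2
      simp only [mul_add, mul_sub]
    have e3 : a ^ (1 + 2 * s) * (a * h) ^ (-1 - 2 * s) = h ^ (-1 - 2 * s) := by
      rw [Real.mul_rpow ha.le hh0.le, ← mul_assoc, ← Real.rpow_add ha]
      have : 1 + 2 * s + (-1 - 2 * s) = 0 := by ring
      rw [this, Real.rpow_zero, one_mul]
    rw [e2, e3]
  rw [setIntegral_congr_fun measurableSet_Ioi e1,
    integral_comp_mul_left_Ioi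
      (fun k => sd2 f (a * x) k * (a ^ (1 + 2 * s) * k ^ (-1 - 2 * s))) 0 ha, mul_zero]
  have e4 : ∀ k, sd2 f (a * x) k * (a ^ (1 + 2 * s) * k ^ (-1 - 2 * s))
      = a ^ (1 + 2 * s) * (sd2 f (a * x) k * k ^ (-1 - 2 * s)) := fun k => by ring
  simp_rw [e4]
  rw [integral_const_mul, smul_eq_mul, ← mul_assoc]
  congr 1
  rw [show a⁻¹ = a ^ (-1 : ℝ) by rw [Real.rpow_neg_one], ← Real.rpow_add ha]
  congr 1; ring

lemma SD_const_mul {s : ℝ} {f : ℝ → ℝ} (c x : ℝ) :
    SD s (fun y => c * f y) x = c * SD s f x := by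
  unfold SD
  rw [← integral_const_mul]
  congr 1
  ext h
  unfold sd2
  ring

/-- a bump function supported in `[1,3]` -/
noncomputable def bump (x : ℝ) : ℝ := SS (x - 1) * SS (3 - x)

lemma bump_contDiff : ContDiff ℝ ∞ bump := by
  unfold bump
  exact (Real.smoothTransition.contDiff.comp (contDiff_id.sub contDiff_const)).mul
    (Real.smoothTransition.contDiff.comp (contDiff_const.sub contDiff_id))

lemma bump_nonneg (x : ℝ) : 0 ≤ bump x := mul_nonneg (SS_nonneg _) (SS_nonneg _)

lemma bump_of_le {x : ℝ} (hx : x ≤ 1) : bump x = 0 := by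
  unfold bump
  rw [SS, Real.smoothTransition.zero_of_nonpos (by linarith), zero_mul]

lemma bump_of_ge {x : ℝ} (hx : 3 ≤ x) : bump x = 0 := by
  unfold bump
  rw [SS, Real.smoothTransition.zero_of_nonpos (show 3 - x ≤ 0 by linarith), mul_zero]

lemma bump_compact : HasCompactSupport bump := by
  apply HasCompactSupport.intro (isCompact_Icc (a := (1:ℝ)) (b := 3))
  intro x hx
  rw [mem_Icc, not_and_or, not_le, not_le] at hx
  rcases hx with h | h
  · exact bump_of_le h.le
  · exact bump_of_ge h.le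

lemma bump_integral_pos : 0 < ∫ x, bump x := by
  have hint : Integrable bump :=
    bump_contDiff.continuous.integrable_of_hasCompactSupport bump_compact
  rw [integral_pos_iff_support_of_nonneg bump_nonneg hint]
  have : Ioo (1:ℝ) 3 ⊆ Function.support bump := by
    intro x hx
    have h1 : 0 < SS (x - 1) := Real.smoothTransition.pos_of_pos (by linarith [hx.1])
    have h2 : 0 < SS (3 - x) := Real.smoothTransition.pos_of_pos (by linarith [hx.2])
    exact (mul_pos h1 h2).ne'
  refine lt_of_lt_of_le ?_ (measure_mono this)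
  simp

theorem jump_zero {s X : ℝ} (hs : 1 / 2 ≤ s) (hs1 : s < 1) {V : ℝ → ℝ}
    (hVm : Measurable V) {M : ℝ} (hVb : ∀ x, |V x| ≤ M) (hV0 : ∀ x < 0, V x = 0)
    (heq : ∀ φ : ℝ → ℝ, ContDiff ℝ ∞ φ → HasCompactSupport φ → tsupport φ ⊆ Ioi 0 →
      ∫ x, V x * LL s X φ x = 0)
    {a : ℝ} (ha : Tendsto V (𝓝[>] 0) (𝓝 a)) : a = 0 := by
  have hs0 : 0 < s := by linarith
  have hM0 : 0 ≤ M := (abs_nonneg _).trans (hVb 0)
  have hb2 := contDiff_two bump_contDiff
  have hbd : Continuous (deriv bump) := (contDiff_infty_iff_deriv.1 bump_contDiff).2.continuous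
  have hbdiff : Differentiable ℝ bump := (contDiff_infty_iff_deriv.1 bump_contDiff).1
  -- the rescaled equation
  have hres : ∀ ε : ℝ, 0 < ε → ∫ t, V (ε * t) * (SD s bump t + (1 / (2 * s)) *
      (ε ^ (2 * s) * bump t - (X - ε * t) * ε ^ (2 * s - 1) * deriv bump t)) = 0 := by
    intro ε hε
    have hiε : 0 < ε⁻¹ := inv_pos.2 hε
    set g : ℝ → ℝ := fun y => bump (ε⁻¹ * y) with hg
    have hgs : ContDiff ℝ ∞ g := bump_contDiff.comp (contDiff_const.mul contDiff_id)
    have hg0 : ∀ x, x ∉ Icc ε (3 * ε) → g x = 0 := by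
      intro x hx
      rw [mem_Icc, not_and_or, not_le, not_le] at hx
      rcases hx with h | h
      · apply bump_of_le
        rw [inv_mul_le_iff₀ hε]; linarith
      · apply bump_of_ge
        rw [le_inv_mul_iff₀ hε]; linarith
    have hgc : HasCompactSupport g := HasCompactSupport.intro (isCompact_Icc (a := ε) (b := 3 * ε)) hg0
    have hgt : tsupport g ⊆ Ioi 0 := by
      have h1 : tsupport g ⊆ Icc ε (3 * ε) := by
        apply closure_minimal _ isClosed_Icc
        intro x hx
        by_contra h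
        exact hx (hg0 x h)
      intro x hx
      exact lt_of_lt_of_le hε (h1 hx).1
    have h0 := heq g hgs hgc hgt
    have hd : ∀ x, deriv g x = ε⁻¹ * deriv bump (ε⁻¹ * x) := by
      intro x
      have h1 : HasDerivAt (fun y : ℝ => ε⁻¹ * y) ε⁻¹ x := by
        simpa using (hasDerivAt_id x).const_mul ε⁻¹
      have h2 := (hbdiff (ε⁻¹ * x)).hasDerivAt.comp x h1
      have h3 : deriv g x = deriv bump (ε⁻¹ * x) * ε⁻¹ := h2.deriv
      rw [h3]; ring
    set F : ℝ → ℝ := fun t => V (ε * t) * (SD s bump t + (1 / (2 * s)) *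
      (ε ^ (2 * s) * bump t - (X - ε * t) * ε ^ (2 * s - 1) * deriv bump t)) with hF
    have e1 : ∀ x, V x * LL s X g x = ε ^ (-(2 * s)) * F (ε⁻¹ * x) := by
      intro x
      have g1 : ε * (ε⁻¹ * x) = x := by field_simp
      have g2 : SD s g x = ε ^ (-(2 * s)) * SD s bump (ε⁻¹ * x) := by
        rw [hg, SD_scale hiε, Real.inv_rpow hε.le, ← Real.rpow_neg hε.le]
      have g3 : ε ^ (-(2 * s)) * ε ^ (2 * s) = 1 := by
        rw [← Real.rpow_add hε]; simp
      have g4 : ε ^ (-(2 * s)) * ε ^ (2 * s - 1) = ε⁻¹ := by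
        rw [← Real.rpow_add hε, ← Real.rpow_neg_one]; congr 1; ring
      unfold LL
      rw [hF]
      simp only
      rw [g1, g2, hd x]
      have g5 : g x = bump (ε⁻¹ * x) := rfl
      rw [g5]
      calc V x * (ε ^ (-(2 * s)) * SD s bump (ε⁻¹ * x) + (1 / (2 * s)) *
            (bump (ε⁻¹ * x) - (X - x) * (ε⁻¹ * deriv bump (ε⁻¹ * x))))
          = V x * (ε ^ (-(2 * s)) * SD s bump (ε⁻¹ * x) + (1 / (2 * s)) *
            ((ε ^ (-(2 * s)) * ε ^ (2 * s)) * bump (ε⁻¹ * x)
              - (X - x) * ((ε ^ (-(2 * s)) * ε ^ (2 * s - 1)) * deriv bump (ε⁻¹ * x)))) := by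
            rw [g3, g4]; ring
        _ = _ := by ring
    have e2 : ∫ x, V x * LL s X g x = ε ^ (-(2 * s)) * (ε * ∫ t, F t) := by
      simp_rw [e1]
      rw [integral_const_mul, Measure.integral_comp_mul_left F ε⁻¹, inv_inv, abs_of_pos hε,
        smul_eq_mul]
    rw [e2] at h0
    have h1 : ε ^ (-(2 * s)) ≠ 0 := (Real.rpow_pos_of_pos hε _).ne'
    have h2 := (mul_eq_zero.1 h0).resolve_left h1
    exact (mul_eq_zero.1 h2).resolve_left hε.ne'
  -- limit
  set c : ℝ := (0:ℝ) ^ (2 * s - 1) with hc
  set G : ℝ → ℝ := fun t => (Ioi (0:ℝ)).indicator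
    (fun t => a * (SD s bump t + (1 / (2 * s)) * (-(X * c * deriv bump t)))) t with hG
  have hSDint : Integrable (SD s bump) := SD_integrable hs0 hs1 hb2 bump_compact
  have hbint : Integrable bump :=
    bump_contDiff.continuous.integrable_of_hasCompactSupport bump_compact
  have hdint : Integrable (deriv bump) :=
    hbd.integrable_of_hasCompactSupport bump_compact.deriv
  have htdint : Integrable (fun t => (|X| + |t|) * |deriv bump t|) := by
    apply Continuous.integrable_of_hasCompactSupport (by fun_prop)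
    have : HasCompactSupport (fun t => |deriv bump t|) :=
      bump_compact.deriv.comp_left (g := fun y => |y|) abs_zero
    exact this.mul_left
  have hlim : Tendsto (fun ε : ℝ => ∫ t, V (ε * t) * (SD s bump t + (1 / (2 * s)) *
      (ε ^ (2 * s) * bump t - (X - ε * t) * ε ^ (2 * s - 1) * deriv bump t))) (𝓝[>] 0)
      (𝓝 (∫ t, G t)) := by
    have hmem : ∀ᶠ ε in 𝓝[>] (0:ℝ), ε ∈ Ioo (0:ℝ) 1 := Ioo_mem_nhdsGT zero_lt_one
    apply tendsto_integral_filter_of_dominated_convergence
      (fun t => M * (|SD s bump t| + (1 / (2 * s)) * (|bump t| + (|X| + |t|) * |deriv bump t|)))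
    · refine Eventually.of_forall fun ε => ?_
      apply AEStronglyMeasurable.mul
      · exact (hVm.comp (measurable_const.mul measurable_id)).aestronglyMeasurable
      · apply AEStronglyMeasurable.add hSDint.aestronglyMeasurable
        apply Continuous.aestronglyMeasurable
        have := bump_contDiff.continuous
        fun_prop
    · filter_upwards [hmem] with ε hε
      refine Eventually.of_forall fun t => ?_
      rw [norm_mul, Real.norm_eq_abs, Real.norm_eq_abs]
      apply mul_le_mul (hVb _) _ (abs_nonneg _) hM0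
      have p1 : ε ^ (2 * s) ≤ 1 := Real.rpow_le_one hε.1.le hε.2.le (by linarith)
      have p2 : ε ^ (2 * s - 1) ≤ 1 := Real.rpow_le_one hε.1.le hε.2.le (by linarith)
      have p3 : 0 ≤ ε ^ (2 * s) := Real.rpow_nonneg hε.1.le _
      have p4 : 0 ≤ ε ^ (2 * s - 1) := Real.rpow_nonneg hε.1.le _
      have p5 : |X - ε * t| ≤ |X| + |t| := by
        calc |X - ε * t| ≤ |X| + |ε * t| := abs_sub _ _
          _ ≤ |X| + |t| := by
            rw [abs_mul, abs_of_pos hε.1]
            nlinarith [abs_nonneg t, hε.2]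
      have p6 : |ε ^ (2 * s) * bump t| ≤ |bump t| := by
        rw [abs_mul, abs_of_nonneg p3]
        nlinarith [abs_nonneg (bump t)]
      have p7 : |(X - ε * t) * ε ^ (2 * s - 1) * deriv bump t| ≤ (|X| + |t|) * |deriv bump t| := by
        rw [abs_mul, abs_mul, abs_of_nonneg p4]
        apply mul_le_mul_of_nonneg_right _ (abs_nonneg _)
        calc |X - ε * t| * ε ^ (2 * s - 1) ≤ |X - ε * t| * 1 := by
              apply mul_le_mul_of_nonneg_left p2 (abs_nonneg _)
          _ ≤ _ := by linarith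
      calc |SD s bump t + (1 / (2 * s)) *
            (ε ^ (2 * s) * bump t - (X - ε * t) * ε ^ (2 * s - 1) * deriv bump t)|
          ≤ |SD s bump t| + |(1 / (2 * s)) *
            (ε ^ (2 * s) * bump t - (X - ε * t) * ε ^ (2 * s - 1) * deriv bump t)| := abs_add_le _ _
        _ ≤ _ := by
            rw [abs_mul, abs_of_pos (show 0 < 1 / (2 * s) by positivity)]
            gcongr
            exact (abs_sub _ _).trans (add_le_add p6 p7)
    · apply Integrable.const_mul
      apply hSDint.abs.add
      apply Integrable.const_mul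
      exact hbint.abs.add htdint
    · have hae : ∀ᵐ t : ℝ, t ≠ 0 := by
        rw [ae_iff]; simp
      filter_upwards [hae] with t ht
      have r1 : Tendsto (fun ε : ℝ => ε ^ (2 * s)) (𝓝[>] 0) (𝓝 0) := by
        have := Real.continuousAt_rpow_const 0 (2 * s) (Or.inr (by linarith))
        have h2 : Tendsto (fun ε : ℝ => ε ^ (2 * s)) (𝓝 0) (𝓝 ((0:ℝ) ^ (2 * s))) := this
        rw [Real.zero_rpow (by linarith)] at h2
        exact tendsto_nhdsWithin_of_tendsto_nhds h2
      have r2 : Tendsto (fun ε : ℝ => ε ^ (2 * s - 1)) (𝓝[>] 0) (𝓝 c) := by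
        have := Real.continuousAt_rpow_const 0 (2 * s - 1) (Or.inr (by linarith))
        have h2 : Tendsto (fun ε : ℝ => ε ^ (2 * s - 1)) (𝓝 0) (𝓝 ((0:ℝ) ^ (2 * s - 1))) := this
        exact tendsto_nhdsWithin_of_tendsto_nhds h2
      have r3 : Tendsto (fun ε : ℝ => X - ε * t) (𝓝[>] 0) (𝓝 X) := by
        have h2 : Tendsto (fun ε : ℝ => X - ε * t) (𝓝 0) (𝓝 (X - 0 * t)) :=
          tendsto_const_nhds.sub (tendsto_id.mul_const t)
        rw [zero_mul, sub_zero] at h2
        exact tendsto_nhdsWithin_of_tendsto_nhds h2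
      have r4 : Tendsto (fun ε : ℝ => SD s bump t + (1 / (2 * s)) *
          (ε ^ (2 * s) * bump t - (X - ε * t) * ε ^ (2 * s - 1) * deriv bump t)) (𝓝[>] 0)
          (𝓝 (SD s bump t + (1 / (2 * s)) * (0 * bump t - X * c * deriv bump t))) :=
        tendsto_const_nhds.add (((r1.mul_const _).sub ((r3.mul r2).mul_const _)).const_mul _)
      rcases lt_or_gt_of_ne ht with h | h
      · have e1 : G t = 0 := by
          rw [hG]
          simp only
          rw [indicator_of_notMem]
          simp only [mem_Ioi, not_lt]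
          exact h.le
        rw [e1]
        apply tendsto_const_nhds.congr'
        filter_upwards [hmem] with ε hε
        rw [hV0 _ (mul_neg_of_pos_of_neg hε.1 h), zero_mul]
      · have e1 : G t = a * (SD s bump t + (1 / (2 * s)) * (0 * bump t - X * c * deriv bump t)) := by
          rw [hG]
          simp only
          rw [indicator_of_mem (show t ∈ Ioi (0:ℝ) from h)]
          ring
        rw [e1]
        apply Tendsto.mul _ r4
        apply ha.comp
        apply tendsto_nhdsWithin_iff.2
        constructor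
        · have h2 : Tendsto (fun ε : ℝ => ε * t) (𝓝 0) (𝓝 (0 * t)) := tendsto_id.mul_const t
          rw [zero_mul] at h2
          exact tendsto_nhdsWithin_of_tendsto_nhds h2
        · filter_upwards [hmem] with ε hε
          exact mul_pos hε.1 h
  have hzero : ∫ t, G t = 0 := by
    refine tendsto_nhds_unique hlim ?_
    apply tendsto_const_nhds.congr'
    filter_upwards [self_mem_nhdsWithin] with ε hε
    exact (hres ε hε).symm
  have hdz : ∫ t in Ioi (0:ℝ), deriv bump t = 0 := by
    have h1 : ∫ t in Ioi (0:ℝ), deriv bump t = ∫ t, deriv bump t := by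
      apply setIntegral_eq_integral_of_forall_compl_eq_zero
      intro x hx
      have hx' : x < 1 := lt_of_le_of_lt (not_lt.1 hx) zero_lt_one
      have : bump =ᶠ[𝓝 x] fun _ => 0 := by
        filter_upwards [gt_mem_nhds hx'] with y hy
        exact bump_of_le hy.le
      rw [this.deriv_eq]; simp
    rw [h1]
    exact integral_eq_zero_of_hasDerivAt_of_integrable (fun x => (hbdiff x).hasDerivAt) hdint hbint
  have hval : ∫ t, G t = a * ∫ t in Ioi (0:ℝ), SD s bump t := by
    rw [hG]
    simp only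
    rw [integral_indicator measurableSet_Ioi, integral_const_mul]
    congr 1
    have e : ∫ t in Ioi (0:ℝ), (SD s bump t + (1 / (2 * s)) * (-(X * c * deriv bump t)))
        = (∫ t in Ioi (0:ℝ), SD s bump t)
          + ∫ t in Ioi (0:ℝ), (1 / (2 * s)) * (-(X * c * deriv bump t)) := by
      apply integral_add hSDint.integrableOn
      exact ((hdint.const_mul (X * c)).neg.const_mul (1 / (2 * s))).integrableOn
    rw [e, integral_const_mul, integral_neg, integral_const_mul, hdz]
    simp
  have hpos := integral_SD_pos hs0 hs1 hb2 bump_compact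
    (fun x hx => bump_of_le (by linarith)) bump_nonneg bump_integral_pos
  rw [hval] at hzero
  exact (mul_eq_zero.1 hzero).resolve_right hpos.ne'

end Pool.Agent.Lib.MP_51d96b_an
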