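import Pool.Agent.Lib.MP_51d96b_an.PV

open MeasureTheory Set Filter Topology

namespace Pool.Agent.Lib.MP_51d96b_an

/-- the integrand of the multiplicative formula -/
noncomputable def mm (s : ℝ) (f : ℝ → ℝ) (x t : ℝ) : ℝ :=
  ((f x - f (x * t)) + (f x - f (x / t)) * t ^ (2 * s - 1)) * (1 - t) ^ (-1 - 2 * s)

lemma one_sub_rpow_integrable {r : ℝ} (hr : -1 < r) :
    IntegrableOn (fun t : ℝ => (1 - t) ^ r) (Ioo 0 1) := by
  have h1 : IntervalIntegrable (fun x : ℝ => x ^ r) volume 0 1 :=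
    intervalIntegral.intervalIntegrable_rpow' hr
  have h2 : IntervalIntegrable (fun x : ℝ => (1 - x) ^ r) volume (1 - 0) (1 - 1) :=
    h1.comp_sub_left 1
  have h3 := h2.symm
  simp only [sub_self, sub_zero] at h3
  rw [intervalIntegrable_iff_integrableOn_Ioo_of_le zero_le_one] at h3
  exact h3

lemma mm_bound {s : ℝ} (hs : 1 / 2 ≤ s) (hs1 : s < 1) {f : ℝ → ℝ} (hf : ContDiff ℝ 2 f)
    (hc : HasCompactSupport f) {x : ℝ} (hx : 0 < x) :
    ∃ C : ℝ, 0 ≤ C ∧ ∀ t ∈ Ioo (0:ℝ) 1, |mm s f x t| ≤ C * (1 - t) ^ (1 - 2 * s) := by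
  obtain ⟨A, hA, hA'⟩ := exists_sd2_sq hf hc
  obtain ⟨M, hM⟩ := hc.exists_bound_of_continuous hf.continuous
  simp only [Real.norm_eq_abs] at hM
  have hM0 : 0 ≤ M := (abs_nonneg _).trans (hM 0)
  obtain ⟨Lc, hL⟩ := ContDiff.lipschitzWith_of_hasCompactSupport hc hf (by norm_num)
  have hL' : ∀ a b, |f a - f b| ≤ Lc * |a - b| := by
    intro a b
    have := hL.dist_le_mul a b
    rwa [Real.dist_eq, Real.dist_eq] at this
  have hL0 : (0:ℝ) ≤ Lc := Lc.2
  -- bound of the numerator
  have key : ∀ t ∈ Ioo (0:ℝ) 1, |(f x - f (x * t)) + (f x - f (x / t)) * t ^ (2 * s - 1)|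
      ≤ (16 * M + A * x ^ 2 + 4 * Lc * x) * (1 - t) ^ 2 := by
    intro t ht
    have ht0 : 0 < t := ht.1
    have ht1 : t < 1 := ht.2
    have hr0 : 0 ≤ t ^ (2 * s - 1) := Real.rpow_nonneg ht0.le _
    have hr1 : t ^ (2 * s - 1) ≤ 1 := Real.rpow_le_one ht0.le ht1.le (by linarith)
    rcases le_total t (1 / 2) with h2 | h2
    · have b1 : |f x - f (x * t)| ≤ 2 * M :=
        (abs_sub _ _).trans (by linarith [hM x, hM (x * t)])
      have b2 : |f x - f (x / t)| ≤ 2 * M :=
        (abs_sub _ _).trans (by linarith [hM x, hM (x / t)])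
      have b3 : |(f x - f (x / t)) * t ^ (2 * s - 1)| ≤ 2 * M := by
        rw [abs_mul, abs_of_nonneg hr0]
        calc |f x - f (x / t)| * t ^ (2 * s - 1) ≤ |f x - f (x / t)| * 1 := by gcongr
          _ ≤ 2 * M := by linarith
      have b4 : (1:ℝ) / 4 ≤ (1 - t) ^ 2 := by nlinarith
      calc |(f x - f (x * t)) + (f x - f (x / t)) * t ^ (2 * s - 1)|
          ≤ |f x - f (x * t)| + |(f x - f (x / t)) * t ^ (2 * s - 1)| := abs_add_le _ _
        _ ≤ 4 * M := by linarith
        _ = (16 * M) * (1 / 4) := by ring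
        _ ≤ (16 * M) * (1 - t) ^ 2 := by gcongr
        _ ≤ (16 * M + A * x ^ 2 + 4 * Lc * x) * (1 - t) ^ 2 := by
            apply mul_le_mul_of_nonneg_right _ (by positivity)
            have : 0 ≤ A * x ^ 2 + 4 * Lc * x := by positivity
            linarith
    · -- t ≥ 1/2
      set h := x * (1 - t) with hh
      set h' := x * (1 - t) / t with hh'
      have e1 : x * t = x - h := by rw [hh]; ring
      have e2 : x / t = x + h' := by rw [hh']; field_simp; ring
      have hpos : 0 < h := mul_pos hx (by linarith)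
      have d1 : |h' - h| ≤ 2 * x * (1 - t) ^ 2 := by
        have : h' - h = x * (1 - t) ^ 2 / t := by
          rw [hh', hh]; field_simp
        rw [this, abs_of_nonneg (by positivity), div_le_iff₀ ht0]
        have : 0 ≤ x * (1 - t) ^ 2 := by positivity
        nlinarith
      have d2 : |h'| ≤ 2 * x * (1 - t) := by
        rw [hh', abs_of_nonneg (div_nonneg hpos.le ht0.le), div_le_iff₀ ht0]
        nlinarith
      have split : (f x - f (x * t)) + (f x - f (x / t)) * t ^ (2 * s - 1)
          = sd2 f x h + (f (x + h) - f (x + h')) + (f x - f (x + h')) * (t ^ (2 * s - 1) - 1) := by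
        rw [e1, e2]; unfold sd2; ring
      have b1 : |sd2 f x h| ≤ A * x ^ 2 * (1 - t) ^ 2 := by
        have := hA' x h
        rw [hh] at this ⊢
        linarith [this, (by ring : A * (x * (1 - t)) ^ 2 = A * x ^ 2 * (1 - t) ^ 2)]
      have b2 : |f (x + h) - f (x + h')| ≤ 2 * Lc * x * (1 - t) ^ 2 := by
        have := hL' (x + h) (x + h')
        have e : |x + h - (x + h')| = |h' - h| := by
          rw [show x + h - (x + h') = -(h' - h) by ring, abs_neg]
        rw [e] at this
        calc _ ≤ Lc * |h' - h| := this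
          _ ≤ Lc * (2 * x * (1 - t) ^ 2) := by gcongr
          _ = _ := by ring
      have b3 : |(f x - f (x + h')) * (t ^ (2 * s - 1) - 1)| ≤ 2 * Lc * x * (1 - t) ^ 2 := by
        rw [abs_mul]
        have c1 := hL' x (x + h')
        have e : |x - (x + h')| = |h'| := by rw [show x - (x + h') = -h' by ring, abs_neg]
        rw [e] at c1
        have c2 : |t ^ (2 * s - 1) - 1| ≤ 1 - t := by
          rw [abs_sub_comm, abs_of_nonneg (by linarith)]
          have : t ^ (1:ℝ) ≤ t ^ (2 * s - 1) :=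
            Real.rpow_le_rpow_of_exponent_ge ht0 ht1.le (by linarith)
          rw [Real.rpow_one] at this
          linarith
        calc |f x - f (x + h')| * |t ^ (2 * s - 1) - 1| ≤ (Lc * |h'|) * (1 - t) := by
              apply mul_le_mul c1 c2 (abs_nonneg _) (by positivity)
          _ ≤ (Lc * (2 * x * (1 - t))) * (1 - t) := by
              apply mul_le_mul_of_nonneg_right _ (by linarith)
              gcongr
          _ = _ := by ring
      rw [split]
      calc |sd2 f x h + (f (x + h) - f (x + h')) + (f x - f (x + h')) * (t ^ (2 * s - 1) - 1)|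
          ≤ |sd2 f x h| + |f (x + h) - f (x + h')|
            + |(f x - f (x + h')) * (t ^ (2 * s - 1) - 1)| := abs_add_three _ _ _
        _ ≤ (A * x ^ 2 + 4 * Lc * x) * (1 - t) ^ 2 := by linarith
        _ ≤ (16 * M + A * x ^ 2 + 4 * Lc * x) * (1 - t) ^ 2 := by
            apply mul_le_mul_of_nonneg_right _ (by positivity)
            linarith
  refine ⟨16 * M + A * x ^ 2 + 4 * Lc * x, by positivity, fun t ht => ?_⟩
  have ht1 : 0 < 1 - t := by linarith [ht.2]
  unfold mm
  rw [abs_mul, abs_of_nonneg (Real.rpow_nonneg ht1.le _)]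
  calc _ ≤ ((16 * M + A * x ^ 2 + 4 * Lc * x) * (1 - t) ^ 2) * (1 - t) ^ (-1 - 2 * s) :=
        mul_le_mul_of_nonneg_right (key t ht) (Real.rpow_nonneg ht1.le _)
    _ = (16 * M + A * x ^ 2 + 4 * Lc * x) * ((1 - t) ^ 2 * (1 - t) ^ (-1 - 2 * s)) := by ring
    _ = _ := by
        rw [← Real.rpow_natCast (1 - t) 2, ← Real.rpow_add ht1]
        congr 2
        push_cast; ring

lemma mm_measurable {s : ℝ} {f : ℝ → ℝ} (hf : Continuous f) (x : ℝ) :
    Measurable (mm s f x) := by
  unfold mm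
  have := hf.measurable
  fun_prop

lemma mm_integrable {s : ℝ} (hs : 1 / 2 ≤ s) (hs1 : s < 1) {f : ℝ → ℝ} (hf : ContDiff ℝ 2 f)
    (hc : HasCompactSupport f) {x : ℝ} (hx : 0 < x) :
    IntegrableOn (mm s f x) (Ioo 0 1) := by
  obtain ⟨C, hC, hC'⟩ := mm_bound hs hs1 hf hc hx
  refine Integrable.mono' ((one_sub_rpow_integrable (r := 1 - 2 * s) (by linarith)).const_mul C)
    (mm_measurable hf.continuous x).aestronglyMeasurable ?_
  refine (ae_restrict_iff' measurableSet_Ioo).2 (Eventually.of_forall fun t ht => ?_)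
  rw [Real.norm_eq_abs]
  exact hC' t ht

end Pool.Agent.Lib.MP_51d96b_an
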