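import Pool.Agent.Lib.MP_51d96b_an.Mult

open MeasureTheory Set Filter Topology

namespace Pool.Agent.Lib.MP_51d96b_an

/-- first change of variables: `h = x (1 - t)` -/
lemma cov1 {s : ℝ} {f : ℝ → ℝ} {x : ℝ} (hx : 0 < x) {δ : ℝ} (hδ : 0 < δ) :
    ∫ h in Ioo (δ * x) x, (f x - f (x - h)) * h ^ (-1 - 2 * s)
      = x ^ (-(2 * s)) * ∫ t in Ioo 0 (1 - δ), (f x - f (x * t)) * (1 - t) ^ (-1 - 2 * s) := by
  have himg : (fun t : ℝ => x * (1 - t)) '' Ioo 0 (1 - δ) = Ioo (δ * x) x := by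
    ext h
    simp only [mem_image, mem_Ioo]
    constructor
    · rintro ⟨t, ⟨h1, h2⟩, rfl⟩
      constructor
      · nlinarith
      · nlinarith
    · rintro ⟨h1, h2⟩
      refine ⟨1 - h / x, ⟨?_, ?_⟩, by field_simp; ring⟩
      · have : h / x < 1 := by rwa [div_lt_one hx]
        linarith
      · have : δ < h / x := by rwa [lt_div_iff₀ hx]
        linarith
  have hinj : InjOn (fun t : ℝ => x * (1 - t)) (Ioo 0 (1 - δ)) := by
    intro a _ b _ hab
    simp only at hab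
    have := mul_left_cancel₀ hx.ne' hab
    linarith
  have hder : ∀ t ∈ Ioo (0:ℝ) (1 - δ),
      HasDerivWithinAt (fun t : ℝ => x * (1 - t)) (-x) (Ioo 0 (1 - δ)) t := by
    intro t _
    have h1 : HasDerivAt (fun t : ℝ => x * (1 - t)) (x * (0 - 1)) t :=
      ((hasDerivAt_const t (1:ℝ)).sub (hasDerivAt_id t)).const_mul x
    exact (h1.congr_deriv (by ring)).hasDerivWithinAt
  rw [← himg, integral_image_eq_integral_abs_deriv_smul measurableSet_Ioo hder hinj,
    ← integral_const_mul]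
  apply setIntegral_congr_fun measurableSet_Ioo
  intro t ht
  have ht1 : 0 < 1 - t := by linarith [ht.2]
  simp only [smul_eq_mul]
  rw [abs_neg, abs_of_pos hx, Real.mul_rpow hx.le ht1.le,
    show x - x * (1 - t) = x * t by ring]
  have : x * x ^ (-1 - 2 * s) = x ^ (-(2 * s)) := by
    nth_rewrite 1 [← Real.rpow_one x]
    rw [← Real.rpow_add hx]
    congr 1; ring
  calc x * ((f x - f (x * t)) * (x ^ (-1 - 2 * s) * (1 - t) ^ (-1 - 2 * s)))
      = (x * x ^ (-1 - 2 * s)) * ((f x - f (x * t)) * (1 - t) ^ (-1 - 2 * s)) := by ring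
    _ = _ := by rw [this]

/-- second change of variables: `h = x (1/t - 1)` -/
lemma cov2 {s : ℝ} {f : ℝ → ℝ} {x : ℝ} (hx : 0 < x) {δ : ℝ} (hδ : 0 < δ) (hδ1 : δ < 1) :
    ∫ h in Ioi (x * (1 / (1 - δ) - 1)), (f x - f (x + h)) * h ^ (-1 - 2 * s)
      = x ^ (-(2 * s)) * ∫ t in Ioo 0 (1 - δ),
        (f x - f (x / t)) * t ^ (2 * s - 1) * (1 - t) ^ (-1 - 2 * s) := by
  have h1δ : 0 < 1 - δ := by linarith
  have himg : (fun t : ℝ => x * (1 / t - 1)) '' Ioo 0 (1 - δ) = Ioi (x * (1 / (1 - δ) - 1)) := by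
    ext h
    simp only [mem_image, mem_Ioo, mem_Ioi]
    constructor
    · rintro ⟨t, ⟨h1, h2⟩, rfl⟩
      have : 1 / (1 - δ) < 1 / t := one_div_lt_one_div_of_lt h1 h2
      nlinarith
    · intro h1
      have h2 : 1 / (1 - δ) < 1 + h / x := by
        have : 1 / (1 - δ) - 1 < h / x := by
          rw [lt_div_iff₀ hx]; linarith
        linarith
      have h3 : 0 < 1 + h / x := lt_trans (by positivity) h2
      refine ⟨1 / (1 + h / x), ⟨by positivity, ?_⟩, ?_⟩
      · rw [one_div_lt h3 h1δ]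
        exact h2
      · rw [one_div_one_div]; field_simp; ring
  have hinj : InjOn (fun t : ℝ => x * (1 / t - 1)) (Ioo 0 (1 - δ)) := by
    intro a ha b hb hab
    simp only at hab
    have h1 := mul_left_cancel₀ hx.ne' hab
    have h2 : 1 / a = 1 / b := by linarith
    rwa [one_div, one_div, inv_inj] at h2
  have hder : ∀ t ∈ Ioo (0:ℝ) (1 - δ),
      HasDerivWithinAt (fun t : ℝ => x * (1 / t - 1)) (x * (-(t ^ 2)⁻¹)) (Ioo 0 (1 - δ)) t := by
    intro t ht
    have h1 : HasDerivAt (fun t : ℝ => x * (t⁻¹ - 1)) (x * (-(t ^ 2)⁻¹)) t :=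
      ((hasDerivAt_inv ht.1.ne').sub_const 1).const_mul x
    have : (fun t : ℝ => x * (1 / t - 1)) = (fun t : ℝ => x * (t⁻¹ - 1)) := by
      ext t; rw [one_div]
    rw [this]
    exact h1.hasDerivWithinAt
  rw [← himg, integral_image_eq_integral_abs_deriv_smul measurableSet_Ioo hder hinj,
    ← integral_const_mul]
  apply setIntegral_congr_fun measurableSet_Ioo
  intro t ht
  have ht0 : 0 < t := ht.1
  have ht1 : 0 < 1 - t := by linarith [ht.2]
  simp only [smul_eq_mul]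
  have e1 : |x * (-(t ^ 2)⁻¹)| = x * t ^ (-2:ℝ) := by
    rw [abs_mul, abs_neg, abs_of_pos hx, abs_of_pos (by positivity), Real.rpow_neg ht0.le]
    norm_num
  have e2 : x * (1 / t - 1) = x * ((1 - t) * t⁻¹) := by field_simp
  have e3 : x + x * (1 / t - 1) = x / t := by field_simp; ring
  rw [e1, e3, e2, Real.mul_rpow hx.le (by positivity), Real.mul_rpow ht1.le (by positivity),
    Real.inv_rpow ht0.le, ← Real.rpow_neg ht0.le]
  have c1 : x * x ^ (-1 - 2 * s) = x ^ (-(2 * s)) := by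
    nth_rewrite 1 [← Real.rpow_one x]
    rw [← Real.rpow_add hx]
    congr 1; ring
  have c2 : t ^ (-2:ℝ) * t ^ (-(-1 - 2 * s)) = t ^ (2 * s - 1) := by
    rw [← Real.rpow_add ht0]
    congr 1; ring
  calc x * t ^ (-2:ℝ) * ((f x - f (x / t)) * (x ^ (-1 - 2 * s) *
        ((1 - t) ^ (-1 - 2 * s) * t ^ (-(-1 - 2 * s)))))
      = (x * x ^ (-1 - 2 * s)) * ((f x - f (x / t)) * (t ^ (-2:ℝ) * t ^ (-(-1 - 2 * s)))
        * (1 - t) ^ (-1 - 2 * s)) := by ring
    _ = _ := by rw [c1, c2]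

lemma bdd_on_trunc {s : ℝ} (hs : 1 / 2 ≤ s) {g : ℝ → ℝ} (hg : Measurable g)
    {M : ℝ} (hM : ∀ t ∈ Ioo (0:ℝ) 1, |g t| ≤ M) {δ : ℝ} (hδ : 0 < δ) (hδ1 : δ < 1) :
    IntegrableOn (fun t => g t * (1 - t) ^ (-1 - 2 * s)) (Ioo 0 (1 - δ)) := by
  have hM0 : 0 ≤ M := (abs_nonneg _).trans (hM (1 / 2) ⟨by norm_num, by norm_num⟩)
  refine Measure.integrableOn_of_bounded (M := M * δ ^ (-1 - 2 * s)) (by simp)
    (Measurable.aestronglyMeasurable (by fun_prop)) ?_
  refine (ae_restrict_iff' measurableSet_Ioo).2 (Eventually.of_forall fun t ht => ?_)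
  have ht1 : 0 < 1 - t := by linarith [ht.2]
  rw [norm_mul, Real.norm_eq_abs, Real.norm_eq_abs, abs_of_nonneg (Real.rpow_nonneg ht1.le _)]
  apply mul_le_mul (hM t ⟨ht.1, by linarith [ht.2]⟩) _ (Real.rpow_nonneg ht1.le _) hM0
  exact Real.rpow_le_rpow_of_nonpos hδ (by linarith [ht.2]) (by linarith)

lemma mult_formula {s : ℝ} (hs : 1 / 2 ≤ s) (hs1 : s < 1) {f : ℝ → ℝ} (hf : ContDiff ℝ 2 f)
    (hc : HasCompactSupport f) (h0 : ∀ y ≤ 0, f y = 0) {x : ℝ} (hx : 0 < x) :
    SD s f x = x ^ (-(2 * s)) * (f x / (2 * s) + ∫ t in Ioo 0 1, mm s f x t) := by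
  have hs0 : 0 < s := by linarith
  obtain ⟨M, hM⟩ := hc.exists_bound_of_continuous hf.continuous
  simp only [Real.norm_eq_abs] at hM
  have hM0 : 0 ≤ M := (abs_nonneg _).trans (hM 0)
  obtain ⟨Lc, hL⟩ := ContDiff.lipschitzWith_of_hasCompactSupport hc hf (by norm_num)
  have hL' : ∀ a b, |f a - f b| ≤ Lc * |a - b| := by
    intro a b
    have := hL.dist_le_mul a b
    rwa [Real.dist_eq, Real.dist_eq] at this
  have hL0 : (0:ℝ) ≤ Lc := Lc.2
  have hfm := hf.continuous.measurable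
  have hb1 : ∀ h, |f x - f (x + h)| ≤ 2 * M := fun h =>
    (abs_sub _ _).trans (by linarith [hM x, hM (x + h)])
  have hb2 : ∀ h, |f x - f (x - h)| ≤ 2 * M := fun h =>
    (abs_sub _ _).trans (by linarith [hM x, hM (x - h)])
  -- the truncated identity
  have trunc : ∀ δ ∈ Ioo (0:ℝ) 1, ∫ h in Ioi (δ * x), sd2 f x h * h ^ (-1 - 2 * s)
      = x ^ (-(2 * s)) * (f x / (2 * s) + ∫ t in Ioo 0 (1 - δ), mm s f x t)
        + ∫ h in Ioc (δ * x) (x * (1 / (1 - δ) - 1)), (f x - f (x + h)) * h ^ (-1 - 2 * s) := by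
    intro δ hδ
    have hδ0 : 0 < δ := hδ.1
    have hδ1 : δ < 1 := hδ.2
    have hδx : 0 < δ * x := mul_pos hδ0 hx
    have hI1 : IntegrableOn (fun h => (f x - f (x + h)) * h ^ (-1 - 2 * s)) (Ioi (δ * x)) :=
      one_sided_integrable hs0 (by fun_prop) hδx hb1
    have hI2 : IntegrableOn (fun h => (f x - f (x - h)) * h ^ (-1 - 2 * s)) (Ioi (δ * x)) :=
      one_sided_integrable hs0 (by fun_prop) hδx hb2
    have e1 : ∫ h in Ioi (δ * x), sd2 f x h * h ^ (-1 - 2 * s)
        = (∫ h in Ioi (δ * x), (f x - f (x + h)) * h ^ (-1 - 2 * s))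
          + ∫ h in Ioi (δ * x), (f x - f (x - h)) * h ^ (-1 - 2 * s) := by
      rw [← integral_add hI1 hI2]
      congr 1
      ext h
      unfold sd2
      ring
    have hle : δ * x ≤ x * (1 / (1 - δ) - 1) := by
      have h1 : 1 + δ ≤ 1 / (1 - δ) := by
        rw [le_div_iff₀ (by linarith)]; nlinarith
      nlinarith
    have e2 : ∫ h in Ioi (δ * x), (f x - f (x + h)) * h ^ (-1 - 2 * s)
        = (∫ h in Ioc (δ * x) (x * (1 / (1 - δ) - 1)), (f x - f (x + h)) * h ^ (-1 - 2 * s))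
          + ∫ h in Ioi (x * (1 / (1 - δ) - 1)), (f x - f (x + h)) * h ^ (-1 - 2 * s) := by
      rw [← Ioc_union_Ioi_eq_Ioi hle, setIntegral_union (Ioc_disjoint_Ioi le_rfl)
        measurableSet_Ioi]
      · exact hI1.mono_set Ioc_subset_Ioi_self
      · exact hI1.mono_set (Ioi_subset_Ioi hle)
    have hle2 : δ * x ≤ x := by nlinarith
    have e3 : ∫ h in Ioi (δ * x), (f x - f (x - h)) * h ^ (-1 - 2 * s)
        = (∫ h in Ioo (δ * x) x, (f x - f (x - h)) * h ^ (-1 - 2 * s))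
          + x ^ (-(2 * s)) * (f x / (2 * s)) := by
      rw [← Ioc_union_Ioi_eq_Ioi hle2, setIntegral_union (Ioc_disjoint_Ioi le_rfl)
        measurableSet_Ioi (hI2.mono_set Ioc_subset_Ioi_self) (hI2.mono_set (Ioi_subset_Ioi hle2)),
        integral_Ioc_eq_integral_Ioo]
      congr 1
      have : ∫ h in Ioi x, (f x - f (x - h)) * h ^ (-1 - 2 * s)
          = ∫ h in Ioi x, f x * h ^ (-1 - 2 * s) := by
        apply setIntegral_congr_fun measurableSet_Ioi
        intro h hh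
        have hh' : x < h := hh
        simp only
        rw [h0 (x - h) (by linarith), sub_zero]
      rw [this, integral_const_mul, integral_Ioi_rpow_of_lt (by linarith) hx]
      rw [show -1 - 2 * s + 1 = -(2 * s) by ring]
      field_simp
    rw [e1, e2, e3, cov1 hx hδ0, cov2 hx hδ0 hδ1]
    have hm : ∫ t in Ioo 0 (1 - δ), mm s f x t
        = (∫ t in Ioo 0 (1 - δ), (f x - f (x * t)) * (1 - t) ^ (-1 - 2 * s))
          + ∫ t in Ioo 0 (1 - δ), (f x - f (x / t)) * t ^ (2 * s - 1) * (1 - t) ^ (-1 - 2 * s) := by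
      rw [← integral_add]
      · congr 1
        ext t
        unfold mm
        ring
      · exact bdd_on_trunc hs (M := 2 * M) (by fun_prop)
          (fun t _ => (abs_sub _ _).trans (by linarith [hM x, hM (x * t)])) hδ0 hδ1
      · refine bdd_on_trunc hs (M := 2 * M) (by fun_prop) (fun t ht => ?_) hδ0 hδ1
        rw [abs_mul]
        have hr0 : 0 ≤ t ^ (2 * s - 1) := Real.rpow_nonneg ht.1.le _
        have hr1 : t ^ (2 * s - 1) ≤ 1 := Real.rpow_le_one ht.1.le ht.2.le (by linarith)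
        rw [abs_of_nonneg hr0]
        calc |f x - f (x / t)| * t ^ (2 * s - 1) ≤ |f x - f (x / t)| * 1 := by gcongr
          _ ≤ 2 * M := by
            rw [mul_one]
            exact (abs_sub _ _).trans (by linarith [hM x, hM (x / t)])
    rw [hm]
    ring
  -- limits
  have hmem : ∀ᶠ δ in 𝓝[>] (0:ℝ), δ ∈ Ioo (0:ℝ) 1 := Ioo_mem_nhdsGT zero_lt_one
  have lim1 : Tendsto (fun δ => ∫ h in Ioi (δ * x), sd2 f x h * h ^ (-1 - 2 * s)) (𝓝[>] (0:ℝ))
      (𝓝 (SD s f x)) := by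
    refine trunc_tendsto hs0 hs1 hf hc x (a := fun δ => δ * x) ?_ ?_
    · have : Tendsto (fun δ : ℝ => δ * x) (𝓝 0) (𝓝 (0 * x)) := tendsto_id.mul_const x
      rw [zero_mul] at this
      exact tendsto_nhdsWithin_of_tendsto_nhds this
    · filter_upwards [hmem] with δ hδ
      exact (mul_pos hδ.1 hx).le
  have lim2 : Tendsto (fun δ : ℝ => ∫ t in Ioo 0 (1 - δ), mm s f x t) (𝓝[>] (0:ℝ))
      (𝓝 (∫ t in Ioo 0 1, mm s f x t)) := by
    have ha : Tendsto (fun _ : ℝ => (0:ℝ)) (𝓝[>] (0:ℝ)) (𝓝 0) := tendsto_const_nhds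
    have hb : Tendsto (fun δ : ℝ => 1 - δ) (𝓝[>] (0:ℝ)) (𝓝 1) := by
      have : Tendsto (fun δ : ℝ => 1 - δ) (𝓝 0) (𝓝 (1 - 0)) := tendsto_const_nhds.sub tendsto_id
      rw [sub_zero] at this
      exact tendsto_nhdsWithin_of_tendsto_nhds this
    have := (aecover_Ioo_of_Ioo (μ := volume) ha hb).integral_tendsto_of_countably_generated
      (mm_integrable hs hs1 hf hc hx)
    refine this.congr' ?_
    filter_upwards [hmem] with δ hδ
    rw [Measure.restrict_restrict measurableSet_Ioo, inter_eq_self_of_subset_left]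
    exact Ioo_subset_Ioo_right (by linarith [hδ.1])
  have lim3 : Tendsto (fun δ : ℝ => ∫ h in Ioc (δ * x) (x * (1 / (1 - δ) - 1)),
      (f x - f (x + h)) * h ^ (-1 - 2 * s)) (𝓝[>] (0:ℝ)) (𝓝 0) := by
    have hbound : ∀ᶠ δ in 𝓝[>] (0:ℝ), ‖∫ h in Ioc (δ * x) (x * (1 / (1 - δ) - 1)),
        (f x - f (x + h)) * h ^ (-1 - 2 * s)‖ ≤ (Lc * x ^ (1 - 2 * s) * 2) * δ ^ (2 - 2 * s) := by
      have hmem2 : ∀ᶠ δ in 𝓝[>] (0:ℝ), δ ∈ Ioo (0:ℝ) (1 / 2) := Ioo_mem_nhdsGT (by norm_num)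
      filter_upwards [hmem2] with δ hδ
      have hδ0 : 0 < δ := hδ.1
      have hδ1 : δ < 1 / 2 := hδ.2
      have hδx : 0 < δ * x := mul_pos hδ0 hx
      have hlen : x * (1 / (1 - δ) - 1) - δ * x = x * δ ^ 2 / (1 - δ) := by
        have : (1 - δ) ≠ 0 := by linarith
        field_simp
        ring
      have hlen0 : 0 ≤ x * δ ^ 2 / (1 - δ) := by
        apply div_nonneg (by positivity) (by linarith)
      have hlen2 : x * δ ^ 2 / (1 - δ) ≤ 2 * x * δ ^ 2 := by
        rw [div_le_iff₀ (by linarith)]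
        have : 0 ≤ x * δ ^ 2 := by positivity
        nlinarith
      have h1 := norm_setIntegral_le_of_norm_le_const (μ := volume)
        (s := Ioc (δ * x) (x * (1 / (1 - δ) - 1)))
        (f := fun h => (f x - f (x + h)) * h ^ (-1 - 2 * s)) (C := Lc * (δ * x) ^ (-(2 * s)))
        (by simp) (by
          intro h hh
          have hh0 : 0 < h := lt_trans hδx hh.1
          rw [norm_mul, Real.norm_eq_abs, Real.norm_eq_abs,
            abs_of_nonneg (Real.rpow_nonneg hh0.le _)]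
          have h2 := hL' x (x + h)
          rw [show x - (x + h) = -h by ring, abs_neg, abs_of_pos hh0] at h2
          calc |f x - f (x + h)| * h ^ (-1 - 2 * s) ≤ (Lc * h) * h ^ (-1 - 2 * s) :=
                mul_le_mul_of_nonneg_right h2 (Real.rpow_nonneg hh0.le _)
            _ = Lc * h ^ (-(2 * s)) := by
                rw [mul_assoc]
                congr 1
                nth_rewrite 1 [← Real.rpow_one h]
                rw [← Real.rpow_add hh0]
                congr 1; ring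
            _ ≤ Lc * (δ * x) ^ (-(2 * s)) := by
                apply mul_le_mul_of_nonneg_left _ hL0
                exact Real.rpow_le_rpow_of_nonpos hδx hh.1.le (by linarith))
      refine h1.trans ?_
      rw [measureReal_def, Real.volume_Ioc, hlen, ENNReal.toReal_ofReal hlen0]
      calc Lc * (δ * x) ^ (-(2 * s)) * (x * δ ^ 2 / (1 - δ))
          ≤ Lc * (δ * x) ^ (-(2 * s)) * (2 * x * δ ^ 2) := by
            apply mul_le_mul_of_nonneg_left hlen2
            exact mul_nonneg hL0 (Real.rpow_nonneg hδx.le _)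
        _ = (Lc * (x * x ^ (-(2 * s))) * 2) * (δ ^ 2 * δ ^ (-(2 * s))) := by
            rw [Real.mul_rpow hδ0.le hx.le]; ring
        _ = _ := by
            have c1 : x * x ^ (-(2 * s)) = x ^ (1 - 2 * s) := by
              nth_rewrite 1 [← Real.rpow_one x]
              rw [← Real.rpow_add hx]
              congr 1
            have c2 : δ ^ 2 * δ ^ (-(2 * s)) = δ ^ (2 - 2 * s) := by
              rw [← Real.rpow_natCast δ 2, ← Real.rpow_add hδ0]
              congr 1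
            rw [c1, c2]
    have hz : Tendsto (fun δ : ℝ => (Lc * x ^ (1 - 2 * s) * 2) * δ ^ (2 - 2 * s)) (𝓝[>] (0:ℝ))
        (𝓝 0) := by
      have h1 : Tendsto (fun δ : ℝ => δ ^ (2 - 2 * s)) (𝓝 0) (𝓝 ((0:ℝ) ^ (2 - 2 * s))) :=
        (Real.continuousAt_rpow_const 0 (2 - 2 * s) (Or.inr (by linarith)))
      rw [Real.zero_rpow (by linarith)] at h1
      have h2 := h1.const_mul (Lc * x ^ (1 - 2 * s) * 2 : ℝ)
      rw [mul_zero] at h2
      exact tendsto_nhdsWithin_of_tendsto_nhds h2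
    exact squeeze_zero_norm' hbound hz
  have lim4 := ((lim2.const_add (f x / (2 * s))).const_mul (x ^ (-(2 * s)))).add lim3
  rw [add_zero] at lim4
  refine tendsto_nhds_unique lim1 (lim4.congr' ?_)
  filter_upwards [hmem] with δ hδ
  exact (trunc δ hδ).symm

end Pool.Agent.Lib.MP_51d96b_an
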