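import Pool.Agent.Lib.MP_51d96b_an.Region

open MeasureTheory Set Filter Topology
open scoped ContDiff

namespace Pool.Agent.Lib.MP_51d96b_an

lemma SS_deriv_zero_of_neg {y : ℝ} (hy : y < 0) : deriv SS y = 0 := by
  have : SS =ᶠ[𝓝 y] fun _ => 0 := by
    filter_upwards [gt_mem_nhds hy] with z hz
    exact Real.smoothTransition.zero_of_nonpos hz.le
  rw [this.deriv_eq]; simp

section
variable {β s X : ℝ}

/-- near region -/
lemma region_near (hs : 1 / 2 ≤ s) (hs1 : s < 1) (hβ : -1 < β) (hβ0 : β < 0) (hX : 0 ≤ X) :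
    ∃ C : ℝ, 0 ≤ C ∧ ∀ ρ ε x : ℝ, 0 < ρ → 0 < ε → ε ≤ 1 → 0 < x → x ≤ 4 * ε →
      LL s X (ff β ρ ε) x ≤ C * ε ^ (β - 2 * s) := by
  have hs0 : 0 < s := by linarith
  obtain ⟨A, hA0, hA1, hA2, hA3⟩ := SS_consts
  refine ⟨34 * A / (2 - 2 * s) + 32 + (1 + (X + 4) * (A + 1)), ?_, ?_⟩
  · have : 0 < 2 - 2 * s := by linarith
    positivity
  intro ρ ε x hρ hε hε1 hx0 hx4
  set f := ff β ρ ε with hf
  set B := ρ ^ β with hB
  have hB0 : 0 ≤ B := Real.rpow_nonneg hρ.le _
  have hf2 : ContDiff ℝ 2 f := by exact_mod_cast (contDiff_infty.1 (ff_contDiff hε) 2)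
  have hfc : HasCompactSupport f := ff_compact hβ0 hρ hε
  have hfnn : ∀ y, 0 ≤ f y := fun y => ff_nonneg hρ y
  have hεβ : 0 < ε ^ β := Real.rpow_pos_of_pos hε _
  set r := ε / 4 with hr
  have hr0 : 0 < r := by positivity
  set K := 34 * A * ε ^ (β - 2) with hK
  have hK0 : 0 ≤ K := by positivity
  -- second difference bound
  have hsd : ∀ h ∈ Ioc (0:ℝ) r, sd2 f x h ≤ K * h ^ 2 := by
    intro h hh
    have hh0 := hh.1
    have hhr := hh.2
    have hKh : 0 ≤ K * h ^ 2 := by positivity
    rcases le_or_gt x (ε / 2) with hx | hx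
    · have : f x = 0 := ff_of_le hε (by linarith)
      unfold sd2
      rw [this]
      linarith [hfnn (x + h), hfnn (x - h)]
    · have hxh : 0 < x - h := by linarith
      -- abbreviations
      have hw := rpow_sd2_nonpos (β := β) (x := x) (h := h) hβ0 hh0 (by linarith)
      set a := SS (x / ε - 1) with ha
      set ap := SS ((x + h) / ε - 1) with hap
      set am := SS ((x - h) / ε - 1) with ham
      set p := GG B (x ^ β) with hp
      set pp := GG B ((x + h) ^ β) with hpp
      set pm := GG B ((x - h) ^ β) with hpm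
      have ha0 : 0 ≤ a := SS_nonneg _
      have hconv : 2 * p - pp - pm ≤ 0 := by
        have h1 := GG_sub_le B (x ^ β) ((x + h) ^ β)
        have h2 := GG_sub_le B (x ^ β) ((x - h) ^ β)
        have h3 := SS_nonneg (x ^ β - B)
        have h4 : SS (x ^ β - B) * (2 * x ^ β - (x + h) ^ β - (x - h) ^ β) ≤ 0 :=
          mul_nonpos_of_nonneg_of_nonpos h3 hw
        nlinarith
      have hA_second : |2 * a - ap - am| ≤ A * (h / ε) ^ 2 := by
        have := hA1 (x / ε - 1) (h / ε) (by positivity)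
        unfold sd2 at this
        have e1 : x / ε - 1 + h / ε = (x + h) / ε - 1 := by ring
        have e2 : x / ε - 1 - h / ε = (x - h) / ε - 1 := by ring
        rw [e1, e2] at this
        exact this
      have hA_first : |a - am| ≤ A * (h / ε) := by
        have := hA2 (x / ε - 1) ((x - h) / ε - 1)
        have e : x / ε - 1 - ((x - h) / ε - 1) = h / ε := by ring
        rw [e, abs_of_pos (show 0 < h / ε by positivity)] at this
        exact this
      have hpp1 : |pp| ≤ 2 * ε ^ β := by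
        rw [abs_of_nonneg (GG_nonneg hB0 _)]
        calc pp ≤ (x + h) ^ β := GG_le (Real.rpow_nonneg (by linarith) _)
          _ ≤ (ε / 2) ^ β := Real.rpow_le_rpow_of_nonpos (by positivity) (by linarith) hβ0.le
          _ = ε ^ β * (1 / 2) ^ β := by
              rw [← Real.mul_rpow hε.le (by norm_num)]; congr 1; ring
          _ ≤ ε ^ β * (1 / 2) ^ (-1 : ℝ) := by
              apply mul_le_mul_of_nonneg_left _ hεβ.le
              exact Real.rpow_le_rpow_of_exponent_ge (by norm_num) (by norm_num) hβ.le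
          _ = 2 * ε ^ β := by rw [Real.rpow_neg_one]; ring
      have hpmp : |pm - pp| ≤ 32 * ε ^ (β - 1) * h := by
        have h1 := GG_lip B ((x - h) ^ β) ((x + h) ^ β)
        have h2 := rpow_lip (β := β) (c := ε / 4) (a := x - h) (b := x + h) hβ0 (by positivity)
          (by linarith) (by linarith)
        have e : |x - h - (x + h)| = 2 * h := by
          rw [show x - h - (x + h) = -(2 * h) by ring, abs_neg, abs_of_pos (by positivity)]
        rw [e] at h2
        have h3 : (-β) * (ε / 4) ^ (β - 1) ≤ 16 * ε ^ (β - 1) := by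
          calc (-β) * (ε / 4) ^ (β - 1) ≤ 1 * (ε / 4) ^ (β - 1) := by
                apply mul_le_mul_of_nonneg_right (by linarith) (by positivity)
            _ = ε ^ (β - 1) * (1 / 4) ^ (β - 1) := by
                rw [one_mul, ← Real.mul_rpow hε.le (by norm_num)]; congr 1; ring
            _ ≤ ε ^ (β - 1) * (1 / 4) ^ (-2 : ℝ) := by
                apply mul_le_mul_of_nonneg_left _ (by positivity)
                exact Real.rpow_le_rpow_of_exponent_ge (by norm_num) (by norm_num) (by linarith)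
            _ = 16 * ε ^ (β - 1) := by
                rw [Real.rpow_neg (by norm_num)]; norm_num; ring
        calc |pm - pp| ≤ _ := h1
          _ ≤ _ := h2
          _ ≤ 16 * ε ^ (β - 1) * (2 * h) := by gcongr
          _ = _ := by ring
      have hsplit : sd2 f x h = a * (2 * p - pp - pm) + (2 * a - ap - am) * pp
          + (a - am) * (pm - pp) := by
        unfold sd2
        rw [hf]
        unfold ff
        rw [← ha, ← hap, ← ham, ← hp, ← hpp, ← hpm]
        ring
      have t1 : a * (2 * p - pp - pm) ≤ 0 := mul_nonpos_of_nonneg_of_nonpos ha0 hconv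
      have t2 : (2 * a - ap - am) * pp ≤ 2 * A * ε ^ (β - 2) * h ^ 2 := by
        calc (2 * a - ap - am) * pp ≤ |(2 * a - ap - am) * pp| := le_abs_self _
          _ = |2 * a - ap - am| * |pp| := abs_mul _ _
          _ ≤ (A * (h / ε) ^ 2) * (2 * ε ^ β) := by
              apply mul_le_mul hA_second hpp1 (abs_nonneg _) (by positivity)
          _ = 2 * A * (ε ^ β / ε ^ 2) * h ^ 2 := by field_simp
          _ = 2 * A * ε ^ (β - 2) * h ^ 2 := by
              rw [Real.rpow_sub hε, Real.rpow_two]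
      have t3 : (a - am) * (pm - pp) ≤ 32 * A * ε ^ (β - 2) * h ^ 2 := by
        calc (a - am) * (pm - pp) ≤ |(a - am) * (pm - pp)| := le_abs_self _
          _ = |a - am| * |pm - pp| := abs_mul _ _
          _ ≤ (A * (h / ε)) * (32 * ε ^ (β - 1) * h) := by
              apply mul_le_mul hA_first hpmp (abs_nonneg _) (by positivity)
          _ = 32 * A * (ε ^ (β - 1) / ε) * h ^ 2 := by field_simp
          _ = 32 * A * ε ^ (β - 2) * h ^ 2 := by
              rw [show β - 2 = (β - 1) - 1 by ring, Real.rpow_sub hε (β - 1) 1, Real.rpow_one]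
      rw [hsplit, hK]
      linarith
  -- the integral bound
  have hSD : SD s f x ≤ (34 * A / (2 - 2 * s) + 32) * ε ^ (β - 2 * s) := by
    have hIoc : IntegrableOn (fun h : ℝ => K * h ^ (1 - 2 * s)) (Ioc 0 r) := by
      have := (intervalIntegral.intervalIntegrable_rpow' (a := 0) (b := r) (r := 1 - 2 * s)
        (by linarith)).const_mul K
      rwa [intervalIntegrable_iff_integrableOn_Ioc_of_le hr0.le] at this
    have hIoi : IntegrableOn (fun h : ℝ => 2 * f x * h ^ (-1 - 2 * s)) (Ioi r) :=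
      (integrableOn_Ioi_rpow_of_lt (by linarith) hr0).const_mul _
    have hint := sd_integrable hs0 hs1 hf2 hfc x
    unfold SD
    rw [← Ioc_union_Ioi_eq_Ioi hr0.le, setIntegral_union (Ioc_disjoint_Ioi le_rfl)
      measurableSet_Ioi (hint.mono_set Ioc_subset_Ioi_self)
      (hint.mono_set (Ioi_subset_Ioi hr0.le))]
    have i1 : ∫ h in Ioc 0 r, sd2 f x h * h ^ (-1 - 2 * s)
        ≤ ∫ h in Ioc 0 r, K * h ^ (1 - 2 * s) := by
      apply setIntegral_mono_on (hint.mono_set Ioc_subset_Ioi_self) hIoc measurableSet_Ioc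
      intro h hh
      have hh0 := hh.1
      calc sd2 f x h * h ^ (-1 - 2 * s) ≤ (K * h ^ 2) * h ^ (-1 - 2 * s) :=
            mul_le_mul_of_nonneg_right (hsd h hh) (Real.rpow_nonneg hh0.le _)
        _ = K * (h ^ 2 * h ^ (-1 - 2 * s)) := by ring
        _ = K * h ^ (1 - 2 * s) := by
            rw [← Real.rpow_natCast h 2, ← Real.rpow_add hh0]
            congr 2
            push_cast; ring
    have i2 : ∫ h in Ioi r, sd2 f x h * h ^ (-1 - 2 * s)
        ≤ ∫ h in Ioi r, 2 * f x * h ^ (-1 - 2 * s) := by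
      apply setIntegral_mono_on (hint.mono_set (Ioi_subset_Ioi hr0.le)) hIoi measurableSet_Ioi
      intro h hh
      have hh0 : 0 < h := lt_trans hr0 hh
      apply mul_le_mul_of_nonneg_right _ (Real.rpow_nonneg hh0.le _)
      unfold sd2
      linarith [hfnn (x + h), hfnn (x - h)]
    have v1 : ∫ h in Ioc 0 r, K * h ^ (1 - 2 * s) = K * (r ^ (2 - 2 * s) / (2 - 2 * s)) := by
      rw [integral_const_mul, ← intervalIntegral.integral_of_le hr0.le,
        integral_rpow (Or.inl (by linarith)), Real.zero_rpow (by linarith), sub_zero,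
        show 1 - 2 * s + 1 = 2 - 2 * s by ring]
    have v2 : ∫ h in Ioi r, 2 * f x * h ^ (-1 - 2 * s) = 2 * f x * (r ^ (-(2 * s)) / (2 * s)) := by
      rw [integral_const_mul, integral_Ioi_rpow_of_lt (by linarith) hr0,
        show -1 - 2 * s + 1 = -(2 * s) by ring]
      congr 1
      field_simp
    have w1 : r ^ (2 - 2 * s) ≤ ε ^ (2 - 2 * s) :=
      Real.rpow_le_rpow hr0.le (by rw [hr]; linarith) (by linarith)
    have w2 : r ^ (-(2 * s)) ≤ 16 * ε ^ (-(2 * s)) := by
      calc r ^ (-(2 * s)) = ε ^ (-(2 * s)) * (1 / 4) ^ (-(2 * s)) := by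
            rw [← Real.mul_rpow hε.le (by norm_num)]; congr 1; rw [hr]; ring
        _ ≤ ε ^ (-(2 * s)) * (1 / 4) ^ (-2 : ℝ) := by
            apply mul_le_mul_of_nonneg_left _ (by positivity)
            exact Real.rpow_le_rpow_of_exponent_ge (by norm_num) (by norm_num) (by linarith)
        _ = 16 * ε ^ (-(2 * s)) := by
            rw [Real.rpow_neg (show (0:ℝ) ≤ 1 / 4 by norm_num)]; norm_num; ring
    have w3 : f x ≤ ε ^ β := ff_le hβ0 hρ hε x
    have w4 : ε ^ (β - 2) * ε ^ (2 - 2 * s) = ε ^ (β - 2 * s) := by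
      rw [← Real.rpow_add hε]; congr 1; ring
    have w5 : ε ^ β * ε ^ (-(2 * s)) = ε ^ (β - 2 * s) := by
      rw [← Real.rpow_add hε]; congr 1
    have h2s : 0 < 2 - 2 * s := by linarith
    have z1 : K * (r ^ (2 - 2 * s) / (2 - 2 * s)) ≤ 34 * A / (2 - 2 * s) * ε ^ (β - 2 * s) := by
      calc K * (r ^ (2 - 2 * s) / (2 - 2 * s)) ≤ K * (ε ^ (2 - 2 * s) / (2 - 2 * s)) := by gcongr
        _ = 34 * A / (2 - 2 * s) * (ε ^ (β - 2) * ε ^ (2 - 2 * s)) := by rw [hK]; ring
        _ = _ := by rw [w4]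
    have z2 : 2 * f x * (r ^ (-(2 * s)) / (2 * s)) ≤ 32 * ε ^ (β - 2 * s) := by
      have q1 : r ^ (-(2 * s)) / (2 * s) ≤ 16 * ε ^ (-(2 * s)) := by
        rw [div_le_iff₀ (by positivity)]
        have : 0 ≤ ε ^ (-(2 * s)) := by positivity
        nlinarith
      have q2 : 0 ≤ r ^ (-(2 * s)) / (2 * s) := by positivity
      calc 2 * f x * (r ^ (-(2 * s)) / (2 * s)) ≤ 2 * ε ^ β * (16 * ε ^ (-(2 * s))) := by
            apply mul_le_mul (by linarith) q1 q2 (by positivity)
        _ = 32 * (ε ^ β * ε ^ (-(2 * s))) := by ring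
        _ = _ := by rw [w5]
    linarith [i1, i2, v1, v2, z1, z2]
  -- derivative bound
  have hder : |deriv f x| ≤ (A + 1) * ε ^ (β - 1) := by
    rw [hf, (ff_hasDerivAt hx0).deriv]
    rcases lt_or_ge x ε with hx | hx
    · have h1 : x / ε - 1 < 0 := by
        rw [sub_neg, div_lt_one hε]; exact hx
      rw [SS_deriv_zero_of_neg h1]
      have h2 : SS (x / ε - 1) = 0 := Real.smoothTransition.zero_of_nonpos h1.le
      rw [h2]
      simp only [zero_mul, add_zero, abs_zero]
      positivity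
    · have h1 : |deriv SS (x / ε - 1) * (1 / ε) * GG B (x ^ β)| ≤ A * ε ^ (β - 1) := by
        rw [abs_mul, abs_mul, abs_of_pos (show 0 < 1 / ε by positivity),
          abs_of_nonneg (GG_nonneg hB0 _)]
        have g1 : GG B (x ^ β) ≤ ε ^ β :=
          (GG_le (Real.rpow_nonneg hx0.le _)).trans
            (Real.rpow_le_rpow_of_nonpos hε hx hβ0.le)
        calc |deriv SS (x / ε - 1)| * (1 / ε) * GG B (x ^ β) ≤ A * (1 / ε) * ε ^ β := by
              apply mul_le_mul _ g1 (GG_nonneg hB0 _) (by positivity)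
              exact mul_le_mul_of_nonneg_right (hA3 _) (by positivity)
          _ = A * (ε ^ β / ε) := by ring
          _ = _ := by rw [Real.rpow_sub hε, Real.rpow_one]
      have h2 : |SS (x / ε - 1) * (SS (x ^ β - B) * (β * x ^ (β - 1)))| ≤ 1 * ε ^ (β - 1) := by
        rw [abs_mul, abs_mul, abs_mul, abs_of_nonneg (SS_nonneg _), abs_of_nonneg (SS_nonneg _),
          abs_of_neg hβ0, abs_of_nonneg (Real.rpow_nonneg hx0.le _)]
        have g1 : x ^ (β - 1) ≤ ε ^ (β - 1) :=
          Real.rpow_le_rpow_of_nonpos hε hx (by linarith)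
        have g2 : 0 ≤ x ^ (β - 1) := Real.rpow_nonneg hx0.le _
        have g3 : (-β) * x ^ (β - 1) ≤ 1 * ε ^ (β - 1) := by
          apply mul_le_mul (by linarith) g1 g2 (by norm_num)
        have g4 : 0 ≤ (-β) * x ^ (β - 1) := mul_nonneg (by linarith) g2
        calc SS (x / ε - 1) * (SS (x ^ β - B) * (-β * x ^ (β - 1)))
            ≤ 1 * (1 * (-β * x ^ (β - 1))) := by
              apply mul_le_mul (SS_le_one _) _ (mul_nonneg (SS_nonneg _) g4) zero_le_one
              exact mul_le_mul_of_nonneg_right (SS_le_one _) g4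
          _ ≤ 1 * ε ^ (β - 1) := by linarith
      calc _ ≤ |deriv SS (x / ε - 1) * (1 / ε) * GG B (x ^ β)|
            + |SS (x / ε - 1) * (SS (x ^ β - B) * (β * x ^ (β - 1)))| := abs_add_le _ _
        _ ≤ _ := by linarith
  have hdrift : (1 / (2 * s)) * (f x - (X - x) * deriv f x)
      ≤ (1 + (X + 4) * (A + 1)) * ε ^ (β - 2 * s) := by
    have w3 : f x ≤ ε ^ β := ff_le hβ0 hρ hε x
    have e1 : ε ^ β ≤ ε ^ (β - 2 * s) :=
      Real.rpow_le_rpow_of_exponent_ge hε hε1 (by linarith)
    have e2 : ε ^ (β - 1) ≤ ε ^ (β - 2 * s) :=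
      Real.rpow_le_rpow_of_exponent_ge hε hε1 (by linarith)
    have e3 : |X - x| ≤ X + 4 := by
      rw [abs_le]; constructor <;> linarith
    have e4 : -((X - x) * deriv f x) ≤ (X + 4) * ((A + 1) * ε ^ (β - 1)) := by
      calc -((X - x) * deriv f x) ≤ |(X - x) * deriv f x| := neg_le_abs _
        _ = |X - x| * |deriv f x| := abs_mul _ _
        _ ≤ _ := mul_le_mul e3 hder (abs_nonneg _) (by linarith)
    have e5 : (X + 4) * ((A + 1) * ε ^ (β - 1)) ≤ (X + 4) * ((A + 1) * ε ^ (β - 2 * s)) := by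
      gcongr
    have e6 : f x - (X - x) * deriv f x ≤ (1 + (X + 4) * (A + 1)) * ε ^ (β - 2 * s) := by
      nlinarith
    have e7 : 0 ≤ (1 + (X + 4) * (A + 1)) * ε ^ (β - 2 * s) := by positivity
    have e8 : 1 / (2 * s) ≤ 1 := by
      rw [div_le_one (by positivity)]; linarith
    have e9 : 0 ≤ 1 / (2 * s) := by positivity
    calc (1 / (2 * s)) * (f x - (X - x) * deriv f x)
        ≤ (1 / (2 * s)) * ((1 + (X + 4) * (A + 1)) * ε ^ (β - 2 * s)) :=
          mul_le_mul_of_nonneg_left e6 e9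
      _ ≤ 1 * ((1 + (X + 4) * (A + 1)) * ε ^ (β - 2 * s)) :=
          mul_le_mul_of_nonneg_right e8 e7
      _ = _ := one_mul _
  unfold LL
  calc _ ≤ (34 * A / (2 - 2 * s) + 32) * ε ^ (β - 2 * s)
        + (1 + (X + 4) * (A + 1)) * ε ^ (β - 2 * s) := add_le_add hSD hdrift
    _ = _ := by ring

end

end Pool.Agent.Lib.MP_51d96b_an
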