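import Pool.Agent.Lib.MP_51d96b_an.SD2
import Pool.Agent.Lib.MP_51d96b_an.Defs

open MeasureTheory Set Filter Topology

namespace Pool.Agent.Lib.MP_51d96b_an

lemma one_sided_integrable {s : ℝ} (hs : 0 < s) {g : ℝ → ℝ} (hg : Measurable g)
    {M : ℝ} {δ : ℝ} (hδ : 0 < δ) (hgf : ∀ h, |g h| ≤ 2 * M) :
    IntegrableOn (fun h => g h * h ^ (-1 - 2 * s)) (Ioi δ) := by
  have h1 : IntegrableOn (fun h : ℝ => h ^ (-1 - 2 * s)) (Ioi δ) :=
    integrableOn_Ioi_rpow_of_lt (by linarith) hδ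
  exact Integrable.bdd_mul (c := 2 * M) h1 hg.aestronglyMeasurable
    (Eventually.of_forall fun h => by rw [Real.norm_eq_abs]; exact hgf h)

lemma trunc_eq {s : ℝ} (hs : 0 < s) {f : ℝ → ℝ} (hf : Continuous f)
    (hc : HasCompactSupport f) (x : ℝ) {δ : ℝ} (hδ : 0 < δ) :
    ∫ y in {y : ℝ | δ < |x - y|}, (f x - f y) / |x - y| ^ (1 + 2 * s)
      = ∫ h in Ioi δ, sd2 f x h * h ^ (-1 - 2 * s) := by
  obtain ⟨M, hM⟩ := hc.exists_bound_of_continuous hf
  simp only [Real.norm_eq_abs] at hM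
  have hset : MeasurableSet {y : ℝ | δ < |x - y|} :=
    measurableSet_lt measurable_const (by fun_prop)
  have hset' : {z : ℝ | δ < |z|} = Iio (-δ) ∪ Ioi δ := by
    ext z
    simp only [mem_ofPred_eq, mem_union, mem_Iio, mem_Ioi]
    rw [lt_abs]
    constructor
    · rintro (h | h)
      · exact Or.inr h
      · exact Or.inl (by linarith)
    · rintro (h | h)
      · exact Or.inr (by linarith)
      · exact Or.inl h
  have hsz : MeasurableSet {z : ℝ | δ < |z|} := measurableSet_lt measurable_const (by fun_prop)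
  have e1 : ∫ y in {y : ℝ | δ < |x - y|}, (f x - f y) / |x - y| ^ (1 + 2 * s)
      = ∫ z in {z : ℝ | δ < |z|}, (f x - f (x + z)) / |z| ^ (1 + 2 * s) := by
    rw [← integral_indicator hset, ← integral_indicator hsz,
      ← integral_add_left_eq_self _ x]
    congr 1
    ext z
    have : x - (x + z) = -z := by ring
    by_cases hz : δ < |z|
    · rw [indicator_of_mem (show z ∈ {z : ℝ | δ < |z|} from hz),
        indicator_of_mem (show x + z ∈ {y : ℝ | δ < |x - y|} by
          simp only [mem_ofPred_eq]; rw [this, abs_neg]; exact hz), this, abs_neg]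
    · rw [indicator_of_notMem (show z ∉ {z : ℝ | δ < |z|} from hz),
        indicator_of_notMem (show x + z ∉ {y : ℝ | δ < |x - y|} by
          simp only [mem_ofPred_eq]; rw [this, abs_neg]; exact hz)]
  have hb1 : ∀ h, |f x - f (x + h)| ≤ 2 * M := by
    intro h
    calc |f x - f (x + h)| ≤ |f x| + |f (x + h)| := abs_sub _ _
      _ ≤ 2 * M := by linarith [hM x, hM (x + h)]
  have hb2 : ∀ h, |f x - f (x - h)| ≤ 2 * M := by
    intro h
    calc |f x - f (x - h)| ≤ |f x| + |f (x - h)| := abs_sub _ _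
      _ ≤ 2 * M := by linarith [hM x, hM (x - h)]
  have hI1 : IntegrableOn (fun h => (f x - f (x + h)) * h ^ (-1 - 2 * s)) (Ioi δ) :=
    one_sided_integrable hs (by have := hf.measurable; fun_prop) hδ hb1
  have hI2 : IntegrableOn (fun h => (f x - f (x - h)) * h ^ (-1 - 2 * s)) (Ioi δ) :=
    one_sided_integrable hs (by have := hf.measurable; fun_prop) hδ hb2
  have c1 : ∀ h ∈ Ioi δ, (f x - f (x + h)) / |h| ^ (1 + 2 * s)
      = (f x - f (x + h)) * h ^ (-1 - 2 * s) := by
    intro h hh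
    have hh' : δ < h := hh
    have hp : 0 < h := by linarith
    rw [abs_of_pos hp, show (-1 - 2 * s) = -(1 + 2 * s) by ring, Real.rpow_neg hp.le,
      div_eq_mul_inv]
  have c2 : ∀ h ∈ Ioi δ, (f x - f (x + -h)) / |-h| ^ (1 + 2 * s)
      = (f x - f (x - h)) * h ^ (-1 - 2 * s) := by
    intro h hh
    have hh' : δ < h := hh
    have hp : 0 < h := by linarith
    rw [abs_neg, abs_of_pos hp, show (-1 - 2 * s) = -(1 + 2 * s) by ring, Real.rpow_neg hp.le,
      div_eq_mul_inv, ← sub_eq_add_neg]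
  have hI1' : IntegrableOn (fun z => (f x - f (x + z)) / |z| ^ (1 + 2 * s)) (Ioi δ) :=
    hI1.congr_fun (fun h hh => (c1 h hh).symm) measurableSet_Ioi
  have hI2'' : IntegrableOn (fun z => (f x - f (x + -z)) / |-z| ^ (1 + 2 * s)) (Ioi δ) :=
    hI2.congr_fun (fun h hh => (c2 h hh).symm) measurableSet_Ioi
  have hI2' : IntegrableOn (fun z => (f x - f (x + z)) / |z| ^ (1 + 2 * s)) (Iio (-δ)) := by
    rw [← Measure.map_neg_eq_self (volume : Measure ℝ)]
    have m : MeasurableEmbedding fun x : ℝ => -x := (Homeomorph.neg ℝ).measurableEmbedding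
    rw [m.integrableOn_map_iff]
    have hpre : (fun x : ℝ => -x) ⁻¹' Iio (-δ) = Ioi δ := by
      ext z
      simp
    rw [hpre]
    exact hI2''
  rw [e1, hset', setIntegral_union (by
      rw [Set.disjoint_left]; intro z hz hz'
      simp only [mem_Iio, mem_Ioi] at hz hz'; linarith) measurableSet_Ioi hI2' hI1',
    ← integral_Iic_eq_integral_Iio, ← integral_comp_neg_Ioi δ
      (fun z => (f x - f (x + z)) / |z| ^ (1 + 2 * s)),
    setIntegral_congr_fun measurableSet_Ioi c2, setIntegral_congr_fun measurableSet_Ioi c1,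
    ← integral_add hI2 hI1]
  apply setIntegral_congr_fun measurableSet_Ioi
  intro h _
  simp only
  unfold sd2
  ring

lemma trunc_tendsto {s : ℝ} (hs : 0 < s) (hs1 : s < 1) {f : ℝ → ℝ} (hf : ContDiff ℝ 2 f)
    (hc : HasCompactSupport f) (x : ℝ) {a : ℝ → ℝ} (ha : Tendsto a (𝓝[>] 0) (𝓝 0))
    (ha0 : ∀ᶠ δ in 𝓝[>] (0:ℝ), 0 ≤ a δ) :
    Tendsto (fun δ => ∫ h in Ioi (a δ), sd2 f x h * h ^ (-1 - 2 * s)) (𝓝[>] (0:ℝ))
      (𝓝 (SD s f x)) :=
  (aecover_Ioi_of_Ioi (μ := volume) ha).integral_tendsto_of_countably_generated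
    (sd_integrable hs hs1 hf hc x) |>.congr' (by
      filter_upwards [ha0] with δ hδ
      rw [Measure.restrict_restrict measurableSet_Ioi, Ioi_inter_Ioi, sup_eq_left.2 hδ])

lemma fracLap_eq_SD {s : ℝ} (hs : 0 < s) (hs1 : s < 1) {f : ℝ → ℝ} (hf : ContDiff ℝ 2 f)
    (hc : HasCompactSupport f) (x : ℝ) : fracLap s f x = SD s f x := by
  unfold fracLap
  apply Tendsto.limUnder_eq
  have h1 := trunc_tendsto hs hs1 hf hc x (a := fun δ => δ)
    (tendsto_nhdsWithin_of_tendsto_nhds tendsto_id)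
    (by filter_upwards [self_mem_nhdsWithin] with δ hδ using le_of_lt hδ)
  refine h1.congr' ?_
  filter_upwards [self_mem_nhdsWithin] with δ hδ
  exact (trunc_eq hs hf.continuous hc x hδ).symm

end Pool.Agent.Lib.MP_51d96b_an
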