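import Pool.Agent.Lib.MP_51d96b_an.Jump

open MeasureTheory Set Filter Topology
open scoped ContDiff

namespace Pool.Agent.Lib.MP_51d96b_an

/-- the space-time test function -/
noncomputable def psi (s T : ℝ) (φ : ℝ → ℝ) (p : ℝ × ℝ) : ℝ :=
  φ (p.1 * p.2 ^ (-(1 / (2 * s)))) * bump (4 / T * p.2)

section
variable {s T : ℝ} {φ : ℝ → ℝ}

lemma theta_zero_left (hT : 0 < T) {t : ℝ} (ht : t ≤ T / 4) : bump (4 / T * t) = 0 := by
  apply bump_of_le
  calc 4 / T * t ≤ 4 / T * (T / 4) := by gcongr
    _ = 1 := by field_simp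

lemma theta_zero_right (hT : 0 < T) {t : ℝ} (ht : 3 * T / 4 ≤ t) : bump (4 / T * t) = 0 := by
  apply bump_of_ge
  calc (3:ℝ) = 4 / T * (3 * T / 4) := by field_simp
    _ ≤ 4 / T * t := by gcongr

lemma psi_contDiff (hT : 0 < T) (hφ : ContDiff ℝ ∞ φ) : ContDiff ℝ ∞ (psi s T φ) := by
  rw [contDiff_iff_contDiffAt]
  rintro ⟨x, t⟩
  rcases lt_or_ge t (T / 4) with h | h
  · have : psi s T φ =ᶠ[𝓝 (x, t)] fun _ => 0 := by
      have : ∀ᶠ p : ℝ × ℝ in 𝓝 (x, t), p.2 < T / 4 :=
        continuous_snd.continuousAt.eventually (gt_mem_nhds h)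
      filter_upwards [this] with p hp
      unfold psi
      rw [theta_zero_left hT hp.le, mul_zero]
    exact contDiffAt_const.congr_of_eventuallyEq this
  · have ht : t ≠ 0 := by
      have : 0 < T / 4 := by positivity
      linarith
    unfold psi
    apply ContDiffAt.mul
    · have h1 : ContDiffAt ℝ ∞ (fun p : ℝ × ℝ => p.2 ^ (-(1 / (2 * s)))) (x, t) :=
        contDiffAt_snd.rpow_const_of_ne ht
      exact hφ.contDiffAt.comp (x, t) (contDiffAt_fst.mul h1)
    · exact bump_contDiff.contDiffAt.comp (x, t) (contDiffAt_const.mul contDiffAt_snd)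

lemma psi_support (hs : 0 < s) (hT : 0 < T) {R : ℝ} (hR0 : 0 < R) (hR : ∀ x, R < |x| → φ x = 0)
    {p : ℝ × ℝ} (hp : p ∉ Icc (-(R * T ^ (1 / (2 * s)))) (R * T ^ (1 / (2 * s))) ×ˢ
      Icc (T / 4) (3 * T / 4)) : psi s T φ p = 0 := by
  by_contra hne
  apply hp
  have h1 : T / 4 ≤ p.2 := by
    by_contra h
    apply hne
    unfold psi
    rw [theta_zero_left hT (by linarith), mul_zero]
  have h2 : p.2 ≤ 3 * T / 4 := by
    by_contra h
    apply hne
    unfold psi
    rw [theta_zero_right hT (by linarith), mul_zero]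
  have ht0 : 0 < p.2 := by
    have : 0 < T / 4 := by positivity
    linarith
  have h3 : |p.1 * p.2 ^ (-(1 / (2 * s)))| ≤ R := by
    by_contra h
    apply hne
    unfold psi
    rw [hR _ (by linarith), zero_mul]
  have hpow : 0 < p.2 ^ (1 / (2 * s)) := Real.rpow_pos_of_pos ht0 _
  have h4 : |p.1| ≤ R * T ^ (1 / (2 * s)) := by
    rw [abs_mul, abs_of_pos (Real.rpow_pos_of_pos ht0 _), Real.rpow_neg ht0.le,
      ← div_eq_mul_inv, div_le_iff₀ hpow] at h3
    refine h3.trans ?_
    apply mul_le_mul_of_nonneg_left _ hR0.le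
    exact Real.rpow_le_rpow ht0.le (by linarith) (by positivity)
  exact ⟨abs_le.1 h4, h1, h2⟩

/-- the self-similar profile equation in the sense of distributions -/
theorem profile_eq (hs : 0 < s) (hs1 : s < 1) (hT : 0 < T) {L : ℝ} {h₀ H : ℝ → ℝ}
    (hHm : Measurable H) {M : ℝ} (hHb : ∀ ξ, |H ξ| ≤ M)
    (hw : IsVeryWeakSolution s L T h₀ (fun x t => H (x * t ^ (-(1 / (2 * s))))))
    (hφ : ContDiff ℝ ∞ φ) (hc : HasCompactSupport φ) :
    (1 / (2 * s)) * (∫ ξ, H ξ * (φ ξ + ξ * deriv φ ξ))
      + ∫ ξ, max (H ξ - L) 0 * SD s φ ξ = 0 := by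
  obtain ⟨R, hR0, hR⟩ := exists_support_bound hc
  have hφ2 := contDiff_two hφ
  have hφd : Differentiable ℝ φ := (contDiff_infty_iff_deriv.1 hφ).1
  have hφ' : Continuous (deriv φ) := (contDiff_infty_iff_deriv.1 hφ).2.continuous
  have hbd : Continuous (deriv bump) := (contDiff_infty_iff_deriv.1 bump_contDiff).2.continuous
  have hbdiff : Differentiable ℝ bump := (contDiff_infty_iff_deriv.1 bump_contDiff).1
  have hψ := hw (psi s T φ) (psi_contDiff hT hφ)
    (HasCompactSupport.intro (isCompact_Icc.prod isCompact_Icc)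
      (fun p hp => psi_support hs hT hR0 hR hp)) (by
      have h1 : tsupport (psi s T φ) ⊆ {p : ℝ × ℝ | p.2 ≤ 3 * T / 4} := by
        apply closure_minimal
        · intro p hp
          by_contra h
          apply hp
          apply psi_support hs hT hR0 hR
          intro h'
          exact h h'.2.2
        · exact isClosed_le continuous_snd continuous_const
      intro p hp
      have := h1 hp
      simp only [mem_ofPred_eq] at this ⊢
      linarith)
  set α := 1 / (2 * s) with hα
  have hα0 : 0 < α := by positivity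
  -- integrability facts
  have hM0 : 0 ≤ M := (abs_nonneg _).trans (hHb 0)
  have hHφ : Integrable (fun ξ => H ξ * φ ξ) :=
    Integrable.bdd_mul (c := M) (hφ.continuous.integrable_of_hasCompactSupport hc)
      hHm.aestronglyMeasurable (Eventually.of_forall fun x => by
        rw [Real.norm_eq_abs]; exact hHb x)
  have hHφ' : Integrable (fun ξ => H ξ * (ξ * deriv φ ξ)) := by
    apply Integrable.bdd_mul (c := M) _
      hHm.aestronglyMeasurable (Eventually.of_forall fun x => by
        rw [Real.norm_eq_abs]; exact hHb x)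
    apply Continuous.integrable_of_hasCompactSupport (by fun_prop)
    exact hc.deriv.mul_left
  have hUm : Measurable (fun ξ => max (H ξ - L) 0) := (hHm.sub_const L).max measurable_const
  have hUb : ∀ ξ, |max (H ξ - L) 0| ≤ M + |L| := by
    intro ξ
    rw [abs_of_nonneg (le_max_right _ _)]
    apply max_le _ (by positivity)
    have h1 := (le_abs_self _).trans (hHb ξ)
    have h2 := neg_abs_le L
    linarith
  have hUφ : Integrable (fun ξ => max (H ξ - L) 0 * SD s φ ξ) :=
    Integrable.bdd_mul (c := M + |L|) (SD_integrable hs hs1 hφ2 hc)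
      hUm.aestronglyMeasurable (Eventually.of_forall fun x => by
        rw [Real.norm_eq_abs]; exact hUb x)
  set A := ∫ ξ, H ξ * φ ξ with hA
  set Bq := ∫ ξ, H ξ * (ξ * deriv φ ξ) with hBq
  set D := ∫ ξ, max (H ξ - L) 0 * SD s φ ξ with hD
  -- initial term vanishes
  have hinit : ∫ x, h₀ x * psi s T φ (x, 0) = 0 := by
    have : ∀ x, h₀ x * psi s T φ (x, 0) = 0 := by
      intro x
      unfold psi
      simp only
      rw [theta_zero_left hT (by positivity), mul_zero, mul_zero]
    simp_rw [this]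
    simp
  rw [hinit, add_zero] at hψ
  set θ : ℝ → ℝ := fun t => bump (4 / T * t) with hθ
  have hθd : ∀ t, HasDerivAt θ (4 / T * deriv bump (4 / T * t)) t := by
    intro t
    have h1 : HasDerivAt (fun y : ℝ => 4 / T * y) (4 / T) t := by
      simpa using (hasDerivAt_id t).const_mul (4 / T)
    have h2 := (hbdiff (4 / T * t)).hasDerivAt.comp t h1
    exact h2.congr_deriv (by ring)
  set θ' : ℝ → ℝ := fun t => 4 / T * deriv bump (4 / T * t) with hθ'
  -- inner integral
  have hinner : ∀ t ∈ Ioo (0:ℝ) T,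
      (∫ x, (H (x * t ^ (-α)) * deriv (fun τ => psi s T φ (x, τ)) t
        - max (H (x * t ^ (-α)) - L) 0 * fracLap s (fun y => psi s T φ (y, t)) x))
      = A * (t ^ α * θ' t) - (α * Bq + D) * (t ^ (α - 1) * θ t) := by
    intro t ht
    have ht0 : 0 < t := ht.1
    set a := t ^ (-α) with ha
    have ha0 : 0 < a := Real.rpow_pos_of_pos ht0 _
    set F : ℝ → ℝ := fun ξ => (θ' t) * (H ξ * φ ξ) - (α * t⁻¹ * θ t) * (H ξ * (ξ * deriv φ ξ))
      - (θ t * t⁻¹) * (max (H ξ - L) 0 * SD s φ ξ) with hF
    have hpt : ∀ x, (H (x * a) * deriv (fun τ => psi s T φ (x, τ)) t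
        - max (H (x * a) - L) 0 * fracLap s (fun y => psi s T φ (y, t)) x) = F (x * a) := by
      intro x
      have d1 : HasDerivAt (fun τ : ℝ => τ ^ (-α)) ((-α) * t ^ (-α - 1)) t :=
        Real.hasDerivAt_rpow_const (Or.inl ht0.ne')
      have d2 : HasDerivAt (fun τ : ℝ => x * τ ^ (-α)) (x * ((-α) * t ^ (-α - 1))) t :=
        d1.const_mul x
      have d3 : HasDerivAt (fun τ : ℝ => φ (x * τ ^ (-α)))
          (deriv φ (x * a) * (x * ((-α) * t ^ (-α - 1)))) t :=
        (hφd (x * t ^ (-α))).hasDerivAt.comp t d2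
      have d4 : HasDerivAt (fun τ : ℝ => psi s T φ (x, τ))
          (deriv φ (x * a) * (x * ((-α) * t ^ (-α - 1))) * θ t + φ (x * a) * θ' t) t :=
        d3.mul (hθd t)
      have e1 : t ^ (-α - 1) = a * t⁻¹ := by
        rw [ha, ← Real.rpow_neg_one, ← Real.rpow_add ht0]; congr 1
      have e2 : fracLap s (fun y => psi s T φ (y, t)) x = θ t * t⁻¹ * SD s φ (x * a) := by
        have f1 : (fun y => psi s T φ (y, t)) = fun y => θ t * (fun z => φ (a * z)) y := by
          ext y
          unfold psi
          simp only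
          rw [mul_comm y, mul_comm (φ _)]
        have g1 : ContDiff ℝ ∞ (fun z => φ (a * z)) := hφ.comp (contDiff_const.mul contDiff_id)
        have g2 : HasCompactSupport (fun z => φ (a * z)) := by
          apply HasCompactSupport.intro (isCompact_Icc (a := -(R / a)) (b := R / a))
          intro z hz
          apply hR
          by_contra hcon
          push Not at hcon
          apply hz
          rw [abs_mul, abs_of_pos ha0] at hcon
          have : |z| ≤ R / a := by
            rw [le_div_iff₀ ha0]; linarith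
          exact abs_le.1 this
        rw [f1, fracLap_eq_SD hs hs1 (contDiff_two (contDiff_const.mul g1)) (g2.mul_left),
          SD_const_mul, SD_scale ha0]
        have h2 : a ^ (2 * s) = t⁻¹ := by
          rw [ha, ← Real.rpow_mul ht0.le, ← Real.rpow_neg_one]
          congr 1
          rw [hα]; field_simp
        rw [h2, mul_comm a x]
        ring
      rw [d4.deriv, e2, hF, e1]
      ring
    simp_rw [hpt]
    rw [Measure.integral_comp_mul_right F a, smul_eq_mul, abs_of_pos (inv_pos.2 ha0)]
    have hainv : a⁻¹ = t ^ α := by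
      rw [ha, Real.rpow_neg ht0.le, inv_inv]
    have hFint : ∫ ξ, F ξ = θ' t * A - (α * t⁻¹ * θ t) * Bq - (θ t * t⁻¹) * D := by
      have i1 : Integrable (fun ξ => (θ' t) * (H ξ * φ ξ)) := hHφ.const_mul _
      have i2 : Integrable (fun ξ => (α * t⁻¹ * θ t) * (H ξ * (ξ * deriv φ ξ))) :=
        hHφ'.const_mul _
      have i3 : Integrable (fun ξ => (θ t * t⁻¹) * (max (H ξ - L) 0 * SD s φ ξ)) :=
        hUφ.const_mul _
      have j1 : ∫ ξ, F ξ = (∫ ξ, ((θ' t) * (H ξ * φ ξ)
          - (α * t⁻¹ * θ t) * (H ξ * (ξ * deriv φ ξ))))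
          - ∫ ξ, (θ t * t⁻¹) * (max (H ξ - L) 0 * SD s φ ξ) := integral_sub (i1.sub i2) i3
      have j2 : ∫ ξ, ((θ' t) * (H ξ * φ ξ) - (α * t⁻¹ * θ t) * (H ξ * (ξ * deriv φ ξ)))
          = (∫ ξ, (θ' t) * (H ξ * φ ξ)) - ∫ ξ, (α * t⁻¹ * θ t) * (H ξ * (ξ * deriv φ ξ)) :=
        integral_sub i1 i2
      rw [j1, j2, integral_const_mul, integral_const_mul, integral_const_mul]
    have hpow : t ^ (α - 1) = t ^ α * t⁻¹ := by
      rw [Real.rpow_sub ht0, Real.rpow_one, div_eq_mul_inv]
    rw [hFint, hainv, hpow]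
    ring
  rw [setIntegral_congr_fun measurableSet_Ioo hinner] at hψ
  -- time integral
  have hθcont : Continuous θ := by
    have := bump_contDiff.continuous
    fun_prop
  have hθ'cont : Continuous θ' := by fun_prop
  have hθout : ∀ t, t ∉ Icc (T / 4) (3 * T / 4) → θ t = 0 := by
    intro t ht
    rw [mem_Icc, not_and_or, not_le, not_le] at ht
    rcases ht with h | h
    · exact theta_zero_left hT h.le
    · exact theta_zero_right hT h.le
  have hθ'out : ∀ t, t ∉ Icc (T / 4) (3 * T / 4) → θ' t = 0 := by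
    intro t ht
    have : θ =ᶠ[𝓝 t] fun _ => 0 := by
      filter_upwards [isClosed_Icc.isOpen_compl.mem_nhds ht] with y hy
      exact hθout y hy
    have h1 : θ' t = deriv θ t := (hθd t).deriv.symm
    rw [h1, this.deriv_eq]; simp
  have hrc : ∀ r : ℝ, ContinuousOn (fun t : ℝ => t ^ r) (Icc (T / 4) (3 * T / 4)) := by
    intro r t ht
    have : t ≠ 0 := by
      have : 0 < T / 4 := by positivity
      linarith [ht.1]
    exact (Real.continuousAt_rpow_const t r (Or.inl this)).continuousWithinAt
  have hint : ∀ (r : ℝ) (η : ℝ → ℝ), Continuous η → (∀ t, t ∉ Icc (T / 4) (3 * T / 4) → η t = 0) →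
      Integrable (fun t => t ^ r * η t) := by
    intro r η hη hη0
    have h1 : IntegrableOn (fun t => t ^ r * η t) (Icc (T / 4) (3 * T / 4)) :=
      ((hrc r).mul hη.continuousOn).integrableOn_compact isCompact_Icc
    rw [← integrableOn_iff_integrable_of_support_subset (s := Icc (T / 4) (3 * T / 4))]
    · exact h1
    · intro t ht
      by_contra h
      apply ht
      simp only
      rw [hη0 t h, mul_zero]
  have I1 := hint α θ' hθ'cont hθ'out
  have I2 := hint (α - 1) θ hθcont hθout
  have I3 := hint α θ hθcont hθout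
  have hfull : ∫ t in Ioo 0 T, (A * (t ^ α * θ' t) - (α * Bq + D) * (t ^ (α - 1) * θ t))
      = A * (∫ t, t ^ α * θ' t) - (α * Bq + D) * ∫ t, t ^ (α - 1) * θ t := by
    rw [setIntegral_eq_integral_of_forall_compl_eq_zero, integral_sub (I1.const_mul _)
      (I2.const_mul _), integral_const_mul, integral_const_mul]
    intro t ht
    have hnot : t ∉ Icc (T / 4) (3 * T / 4) := by
      intro h
      apply ht
      have : 0 < T / 4 := by positivity
      exact ⟨by linarith [h.1], by linarith [h.2]⟩
    rw [hθout t hnot, hθ'out t hnot]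
    ring
  rw [hfull] at hψ
  have hparts : ∫ t, t ^ α * θ' t = -α * ∫ t, t ^ (α - 1) * θ t := by
    have hder : ∀ t, HasDerivAt (fun t => t ^ α * θ t)
        (α * (t ^ (α - 1) * θ t) + t ^ α * θ' t) t := by
      intro t
      rcases lt_or_ge t (T / 4) with h | h
      · have hnot : t ∉ Icc (T / 4) (3 * T / 4) := fun h' => by linarith [h'.1]
        rw [hθout t hnot, hθ'out t hnot]
        simp only [mul_zero, add_zero]
        have : (fun t => t ^ α * θ t) =ᶠ[𝓝 t] fun _ => 0 := by
          filter_upwards [gt_mem_nhds h] with y hy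
          have hnot : y ∉ Icc (T / 4) (3 * T / 4) := fun h' => by linarith [h'.1]
          rw [hθout y hnot, mul_zero]
        exact (hasDerivAt_const t (0:ℝ)).congr_of_eventuallyEq this
      · have ht0 : t ≠ 0 := by
          have : 0 < T / 4 := by positivity
          linarith
        have := (Real.hasDerivAt_rpow_const (p := α) (Or.inl ht0)).mul (hθd t)
        exact this.congr_deriv (by ring)
    have h0 := integral_eq_zero_of_hasDerivAt_of_integrable hder
      ((I2.const_mul α).add I1) I3
    have h1 : ∫ t, (α * (t ^ (α - 1) * θ t) + t ^ α * θ' t)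
        = (∫ t, α * (t ^ (α - 1) * θ t)) + ∫ t, t ^ α * θ' t := integral_add (I2.const_mul α) I1
    rw [h1, integral_const_mul] at h0
    linarith
  have hposI : 0 < ∫ t, t ^ (α - 1) * θ t := by
    have hnn : ∀ t, 0 ≤ t ^ (α - 1) * θ t := by
      intro t
      by_cases h : t ∈ Icc (T / 4) (3 * T / 4)
      · have : 0 < t := by
          have : 0 < T / 4 := by positivity
          linarith [h.1]
        exact mul_nonneg (Real.rpow_nonneg this.le _) (bump_nonneg _)
      · rw [hθout t h, mul_zero]
    rw [integral_pos_iff_support_of_nonneg hnn I2]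
    have : Ioo (T / 4) (3 * T / 4) ⊆ Function.support (fun t => t ^ (α - 1) * θ t) := by
      intro t ht
      have ht0 : 0 < t := by
        have : 0 < T / 4 := by positivity
        linarith [ht.1]
      have g1 : 1 < 4 / T * t := by
        rw [div_mul_eq_mul_div, lt_div_iff₀ hT]; linarith [ht.1]
      have g2 : 4 / T * t < 3 := by
        rw [div_mul_eq_mul_div, div_lt_iff₀ hT]; linarith [ht.2]
      have h1 : 0 < SS (4 / T * t - 1) := Real.smoothTransition.pos_of_pos (by linarith)
      have h2 : 0 < SS (3 - 4 / T * t) := Real.smoothTransition.pos_of_pos (by linarith)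
      exact (mul_pos (Real.rpow_pos_of_pos ht0 _) (mul_pos h1 h2)).ne'
    refine lt_of_lt_of_le ?_ (measure_mono this)
    simp only [Real.volume_Ioo, ENNReal.ofReal_pos]
    linarith
  rw [hparts] at hψ
  have hfin : (α * A + (α * Bq + D)) * ∫ t, t ^ (α - 1) * θ t = 0 := by linarith
  have hz := (mul_eq_zero.1 hfin).resolve_right hposI.ne'
  have hsum : ∫ ξ, H ξ * (φ ξ + ξ * deriv φ ξ) = A + Bq := by
    rw [hA, hBq, ← integral_add hHφ hHφ']
    congr 1
    ext ξ
    ring
  rw [hsum]
  linarith

end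

end Pool.Agent.Lib.MP_51d96b_an
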