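import Pool.Agent.Lib.MP_51d96b_an.Test

open MeasureTheory Set Filter Topology
open scoped ContDiff

namespace Pool.Agent.Lib.MP_51d96b_an

/-- the adjoint operator -/
noncomputable def LL (s X : ℝ) (f : ℝ → ℝ) (x : ℝ) : ℝ :=
  SD s f x + (1 / (2 * s)) * (f x - (X - x) * deriv f x)

lemma P_le {s t : ℝ} (hs : 0 < s) (hs1 : s < 1) (h : t ≤ 1 / 2) : (1 - t) ^ (-1 - 2 * s) ≤ 8 := by
  calc (1 - t) ^ (-1 - 2 * s) ≤ (1 / 2 : ℝ) ^ (-1 - 2 * s) :=
        Real.rpow_le_rpow_of_nonpos (by norm_num) (by linarith) (by linarith)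
    _ ≤ (1 / 2 : ℝ) ^ (-3 : ℝ) :=
        Real.rpow_le_rpow_of_exponent_ge (by norm_num) (by norm_num) (by linarith)
    _ = 8 := by
        rw [Real.rpow_neg (by norm_num)]
        norm_num

section
variable {β ρ ε s X : ℝ}

/-- middle region -/
lemma region_mid (hs : 1 / 2 ≤ s) (hs1 : s < 1) (hβ : -1 < β) (hβ0 : β < 0) (hρ : 0 < ρ)
    (hX : 0 ≤ X)
    (hcond : 1 / (2 * s) - (∫ t in Ioo 0 1, qq s β t)
        + (1 / (2 * s)) * (X * (-β) * ρ ^ (2 * s - 1) + ρ ^ (2 * s)) ≤ 0)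
    (hε : 0 < ε) {x : ℝ} (hx1 : 4 * ε ≤ x) (hx2 : x < ρ) :
    LL s X (ff β ρ ε) x ≤ (8 * (2 * ε / x) ^ (β + 1) / (β + 1)) * x ^ (β - 2 * s) := by
  have hs0 : 0 < s := by linarith
  have hx0 : 0 < x := by linarith
  set f := ff β ρ ε with hf
  set B := ρ ^ β with hB
  set σ := SS (x ^ β - B) with hσ
  have hσ0 : 0 ≤ σ := SS_nonneg _
  have hσ1 : σ ≤ 1 := SS_le_one _
  have hB0 : 0 ≤ B := Real.rpow_nonneg hρ.le _
  have hfx : f x = GG B (x ^ β) := ff_of_two hε (by linarith)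
  have hxβ : 0 < x ^ β := Real.rpow_pos_of_pos hx0 _
  have hf2 : ContDiff ℝ 2 f := by exact_mod_cast (contDiff_infty.1 (ff_contDiff hε) 2)
  have hfc : HasCompactSupport f := ff_compact hβ0 hρ hε
  set a := 2 * ε / x with ha
  have ha0 : 0 < a := by positivity
  have ha1 : a ≤ 1 / 2 := by rw [ha, div_le_iff₀ hx0]; linarith
  -- pointwise inequality
  have hpt : ∀ t ∈ Ioo (0:ℝ) 1, mm s f x t ≤
      σ * x ^ β * (-(qq s β t) + (Ioo 0 a).indicator (fun t => 8 * t ^ β) t) := by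
    intro t ht
    have ht0 := ht.1
    have ht1 := ht.2
    have h1t : 0 < 1 - t := by linarith
    have hP : 0 ≤ (1 - t) ^ (-1 - 2 * s) := Real.rpow_nonneg h1t.le _
    have htβ : 0 < t ^ β := Real.rpow_pos_of_pos ht0 _
    have hr0 : 0 ≤ t ^ (2 * s - 1) := Real.rpow_nonneg ht0.le _
    have e1 : (x / t) ^ β = x ^ β * t ^ (-β) := by
      rw [Real.div_rpow hx0.le ht0.le, Real.rpow_neg ht0.le, div_eq_mul_inv]
    have e2 : (x * t) ^ β = x ^ β * t ^ β := Real.mul_rpow hx0.le ht0.le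
    have e3 : t ^ (-β) * t ^ (2 * s - 1) = t ^ (2 * s - 1 - β) := by
      rw [← Real.rpow_add ht0]; congr 1; ring
    have e4 : t ^ β * t ^ (2 * s - 1 - β) = t ^ (2 * s - 1) := by
      rw [← Real.rpow_add ht0]; congr 1; ring
    have b1 : f x - f (x / t) ≤ σ * (x ^ β - x ^ β * t ^ (-β)) := by
      have hxt : 2 * ε ≤ x / t := by
        rw [le_div_iff₀ ht0]; nlinarith
      rw [hfx, hf, ff_of_two hε hxt, ← e1]
      exact GG_sub_le _ _ _
    have b2 : f x - f (x * t) ≤ σ * (x ^ β - x ^ β * t ^ β)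
        + σ * x ^ β * (Ioo 0 a).indicator (fun t => t ^ β) t := by
      rcases le_or_gt (2 * ε) (x * t) with h | h
      · have : t ∉ Ioo 0 a := by
          intro h'
          have := h'.2
          rw [ha, lt_div_iff₀ hx0] at this
          linarith
        rw [indicator_of_notMem this, mul_zero, add_zero, hfx, hf, ff_of_two hε h, ← e2]
        exact GG_sub_le _ _ _
      · have : t ∈ Ioo 0 a := by
          refine ⟨ht0, ?_⟩
          rw [ha, lt_div_iff₀ hx0]
          linarith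
        rw [indicator_of_mem this, hfx]
        have h1 := ff_nonneg (β := β) (ε := ε) hρ (x * t)
        have h2 := GG_sub_le B (x ^ β) 0
        rw [GG_zero, sub_zero, sub_zero] at h2
        have h3 : σ * (x ^ β - x ^ β * t ^ β) + σ * x ^ β * t ^ β = σ * x ^ β := by ring
        rw [h3]
        linarith
    have hind : (Ioo 0 a).indicator (fun t => t ^ β) t * (1 - t) ^ (-1 - 2 * s)
        ≤ (Ioo 0 a).indicator (fun t => 8 * t ^ β) t := by
      by_cases h : t ∈ Ioo 0 a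
      · rw [indicator_of_mem h, indicator_of_mem h]
        have := P_le hs0 hs1 (show t ≤ 1 / 2 by linarith [h.2])
        nlinarith
      · rw [indicator_of_notMem h, indicator_of_notMem h, zero_mul]
    have hqq : -(qq s β t) = ((1 - t ^ β) + (1 - t ^ (-β)) * t ^ (2 * s - 1))
        * (1 - t) ^ (-1 - 2 * s) := by
      unfold qq
      have : (t ^ β - 1) * (1 - t ^ (2 * s - 1 - β)) =
          -((1 - t ^ β) + (1 - t ^ (-β)) * t ^ (2 * s - 1)) := by
        have : (1 - t ^ (-β)) * t ^ (2 * s - 1) = t ^ (2 * s - 1) - t ^ (2 * s - 1 - β) := by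
          rw [← e3]; ring
        rw [this, ← e4]
        ring
      rw [this]; ring
    rw [hqq]
    unfold mm
    have hσx : 0 ≤ σ * x ^ β := by positivity
    calc ((f x - f (x * t)) + (f x - f (x / t)) * t ^ (2 * s - 1)) * (1 - t) ^ (-1 - 2 * s)
        ≤ ((σ * (x ^ β - x ^ β * t ^ β)
            + σ * x ^ β * (Ioo 0 a).indicator (fun t => t ^ β) t)
          + (σ * (x ^ β - x ^ β * t ^ (-β))) * t ^ (2 * s - 1)) * (1 - t) ^ (-1 - 2 * s) := by
          apply mul_le_mul_of_nonneg_right _ hP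
          exact add_le_add b2 (mul_le_mul_of_nonneg_right b1 hr0)
      _ = σ * x ^ β * (((1 - t ^ β) + (1 - t ^ (-β)) * t ^ (2 * s - 1)) * (1 - t) ^ (-1 - 2 * s)
          + (Ioo 0 a).indicator (fun t => t ^ β) t * (1 - t) ^ (-1 - 2 * s)) := by ring
      _ ≤ _ := by
          apply mul_le_mul_of_nonneg_left _ hσx
          linarith
  have hqint := qq_integrable hs hs1 hβ hβ0
  have hindint : IntegrableOn ((Ioo 0 a).indicator (fun t => 8 * t ^ β)) (Ioo 0 1) := by
    have : IntegrableOn (fun t : ℝ => 8 * t ^ β) (Ioo 0 a) :=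
      (rpow_integrable_Ioo hβ ha0.le).const_mul 8
    exact (this.integrable_indicator measurableSet_Ioo).integrableOn
  have hint : IntegrableOn (fun t => σ * x ^ β *
      (-(qq s β t) + (Ioo 0 a).indicator (fun t => 8 * t ^ β) t)) (Ioo 0 1) :=
    (hqint.neg.add hindint).const_mul _
  have hIndval : ∫ t in Ioo (0:ℝ) 1, (Ioo 0 a).indicator (fun t => 8 * t ^ β) t
      = 8 * a ^ (β + 1) / (β + 1) := by
    rw [setIntegral_indicator measurableSet_Ioo,
      inter_eq_self_of_subset_right (Ioo_subset_Ioo_right (by linarith)), integral_const_mul,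
      ← integral_Ioc_eq_integral_Ioo, ← intervalIntegral.integral_of_le ha0.le,
      integral_rpow (Or.inl hβ), Real.zero_rpow (by linarith), sub_zero]
    ring
  set E := 8 * a ^ (β + 1) / (β + 1) with hE
  have hE0 : 0 ≤ E := by
    rw [hE]
    have : 0 < β + 1 := by linarith
    positivity
  set J := ∫ t in Ioo 0 1, qq s β t with hJ
  have hmm : ∫ t in Ioo 0 1, mm s f x t ≤ σ * x ^ β * (-J + E) := by
    calc ∫ t in Ioo 0 1, mm s f x t ≤ ∫ t in Ioo (0:ℝ) 1, σ * x ^ β *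
        (-(qq s β t) + (Ioo 0 a).indicator (fun t => 8 * t ^ β) t) :=
          setIntegral_mono_on (mm_integrable hs hs1 hf2 hfc hx0) hint measurableSet_Ioo hpt
      _ = σ * x ^ β * (-J + E) := by
          rw [integral_const_mul]
          have e : ∫ t in Ioo (0:ℝ) 1, (-(qq s β t) + (Ioo 0 a).indicator (fun t => 8 * t ^ β) t)
              = (∫ t in Ioo (0:ℝ) 1, -(qq s β t))
                + ∫ t in Ioo (0:ℝ) 1, (Ioo 0 a).indicator (fun t => 8 * t ^ β) t :=
            integral_add hqint.neg hindint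
          rw [e, integral_neg, hIndval]
  have hSD : SD s f x ≤ σ * x ^ (β - 2 * s) * (1 / (2 * s) - J + E) := by
    rw [mult_formula hs hs1 hf2 hfc (fun y hy => ff_of_le hε (by linarith)) hx0]
    have h1 : f x ≤ x ^ β * σ := by rw [hfx]; exact GG_le_mul _ _
    have h2 : f x / (2 * s) ≤ x ^ β * σ * (1 / (2 * s)) := by
      rw [mul_one_div]
      gcongr
    have h3 : 0 ≤ x ^ (-(2 * s)) := Real.rpow_nonneg hx0.le _
    have h4 : x ^ (β - 2 * s) = x ^ β * x ^ (-(2 * s)) := by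
      rw [← Real.rpow_add hx0]; congr 1
    calc x ^ (-(2 * s)) * (f x / (2 * s) + ∫ t in Ioo 0 1, mm s f x t)
        ≤ x ^ (-(2 * s)) * (x ^ β * σ * (1 / (2 * s)) + σ * x ^ β * (-J + E)) := by
          apply mul_le_mul_of_nonneg_left _ h3
          linarith
      _ = _ := by rw [h4]; ring
  have hder : deriv f x = σ * (β * x ^ (β - 1)) := by
    rw [hf, (ff_hasDerivAt hx0).deriv]
    have h1 : SS (x / ε - 1) = 1 := by
      apply Real.smoothTransition.one_of_one_le
      rw [le_sub_iff_add_le, le_div_iff₀ hε]; linarith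
    have h2 : deriv SS (x / ε - 1) = 0 := by
      have hlt : 1 < x / ε - 1 := by
        rw [lt_sub_iff_add_lt, lt_div_iff₀ hε]; linarith
      have : SS =ᶠ[𝓝 (x / ε - 1)] fun _ => 1 := by
        filter_upwards [lt_mem_nhds hlt] with y hy
        exact Real.smoothTransition.one_of_one_le hy.le
      rw [this.deriv_eq]; simp
    rw [h1, h2]
    ring
  have hdrift : (1 / (2 * s)) * (f x - (X - x) * deriv f x)
      ≤ σ * x ^ (β - 2 * s) * ((1 / (2 * s)) * (X * (-β) * ρ ^ (2 * s - 1) + ρ ^ (2 * s))) := by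
    have h1 : f x ≤ x ^ β * σ := by rw [hfx]; exact GG_le_mul _ _
    have h2 : x ^ β = x ^ (β - 2 * s) * x ^ (2 * s) := by
      rw [← Real.rpow_add hx0]; congr 1; ring
    have h3 : x ^ (β - 1) = x ^ (β - 2 * s) * x ^ (2 * s - 1) := by
      rw [← Real.rpow_add hx0]; congr 1; ring
    have h4 : x ^ (2 * s) ≤ ρ ^ (2 * s) := Real.rpow_le_rpow hx0.le hx2.le (by linarith)
    have h5 : x ^ (2 * s - 1) ≤ ρ ^ (2 * s - 1) := Real.rpow_le_rpow hx0.le hx2.le (by linarith)
    have h6 : 0 ≤ x ^ (β - 1) := Real.rpow_nonneg hx0.le _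
    have h7 : 0 ≤ x ^ (β - 2 * s) := Real.rpow_nonneg hx0.le _
    have h8 : f x - (X - x) * deriv f x ≤ σ * x ^ β + X * (-β) * (σ * x ^ (β - 1)) := by
      rw [hder]
      have : 0 ≤ x * (-β) * (σ * x ^ (β - 1)) := by
        apply mul_nonneg (mul_nonneg hx0.le (by linarith)) (by positivity)
      nlinarith
    have h9 : σ * x ^ β + X * (-β) * (σ * x ^ (β - 1))
        ≤ σ * x ^ (β - 2 * s) * (X * (-β) * ρ ^ (2 * s - 1) + ρ ^ (2 * s)) := by
      rw [h2, h3]
      have g1 : 0 ≤ σ * x ^ (β - 2 * s) := by positivity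
      have g2 : 0 ≤ X * (-β) := mul_nonneg hX (by linarith)
      calc σ * (x ^ (β - 2 * s) * x ^ (2 * s))
            + X * (-β) * (σ * (x ^ (β - 2 * s) * x ^ (2 * s - 1)))
          = σ * x ^ (β - 2 * s) * (X * (-β) * x ^ (2 * s - 1) + x ^ (2 * s)) := by ring
        _ ≤ _ := by
            apply mul_le_mul_of_nonneg_left _ g1
            have := mul_le_mul_of_nonneg_left h5 g2
            linarith
    calc (1 / (2 * s)) * (f x - (X - x) * deriv f x)
        ≤ (1 / (2 * s)) * (σ * x ^ (β - 2 * s) * (X * (-β) * ρ ^ (2 * s - 1) + ρ ^ (2 * s))) := by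
          apply mul_le_mul_of_nonneg_left (h8.trans h9) (by positivity)
      _ = _ := by ring
  have h7 : 0 ≤ x ^ (β - 2 * s) := Real.rpow_nonneg hx0.le _
  unfold LL
  calc SD s f x + (1 / (2 * s)) * (f x - (X - x) * deriv f x)
      ≤ σ * x ^ (β - 2 * s) * (1 / (2 * s) - J + E)
        + σ * x ^ (β - 2 * s) * ((1 / (2 * s)) * (X * (-β) * ρ ^ (2 * s - 1) + ρ ^ (2 * s))) :=
        add_le_add hSD hdrift
    _ = σ * x ^ (β - 2 * s) * (1 / (2 * s) - J
          + (1 / (2 * s)) * (X * (-β) * ρ ^ (2 * s - 1) + ρ ^ (2 * s)))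
        + σ * x ^ (β - 2 * s) * E := by ring
    _ ≤ 0 + 1 * x ^ (β - 2 * s) * E := by
        apply add_le_add
        · exact mul_nonpos_of_nonneg_of_nonpos (by positivity) hcond
        · gcongr
    _ = E * x ^ (β - 2 * s) := by ring

/-- far region -/
lemma region_far (hs : 1 / 2 ≤ s) (hs1 : s < 1) (hβ0 : β < 0) (hρ : 0 < ρ)
    (hε : 0 < ε) (hε2 : 4 * ε ≤ ρ) {x : ℝ} (hx : ρ ≤ x) :
    LL s X (ff β ρ ε) x ≤
      -(∫ y in Ioo (ρ / 2) ρ, GG (ρ ^ β) (y ^ β)) * x ^ (-1 - 2 * s) := by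
  have hs0 : 0 < s := by linarith
  have hx0 : 0 < x := by linarith
  set f := ff β ρ ε with hf
  have hf2 : ContDiff ℝ 2 f := by exact_mod_cast (contDiff_infty.1 (ff_contDiff hε) 2)
  have hfc : HasCompactSupport f := ff_compact hβ0 hρ hε
  have hfint : Integrable f := hf2.continuous.integrable_of_hasCompactSupport hfc
  have hfx : f x = 0 := ff_of_ge hβ0 hρ hx
  have hfnn : ∀ y, 0 ≤ f y := fun y => ff_nonneg hρ y
  have hder : deriv f x = 0 := by
    rw [hf, (ff_hasDerivAt hx0).deriv]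
    have h1 : x ^ β ≤ ρ ^ β := Real.rpow_le_rpow_of_nonpos hρ hx hβ0.le
    rw [GG_of_le (Real.rpow_nonneg hρ.le _) h1]
    have h2 : SS (x ^ β - ρ ^ β) = 0 := Real.smoothTransition.zero_of_nonpos (by linarith)
    rw [h2]
    ring
  unfold LL
  rw [hder, hfx]
  simp only [mul_zero, sub_zero, add_zero]
  have hP : 0 ≤ x ^ (-1 - 2 * s) := Real.rpow_nonneg hx0.le _
  have hint2 : Integrable (fun h => f (x - h)) := hfint.comp_sub_left x
  have h1 : SD s f x ≤ ∫ h in Ioi (0:ℝ), -(x ^ (-1 - 2 * s)) * f (x - h) := by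
    unfold SD
    apply setIntegral_mono_on (sd_integrable hs0 hs1 hf2 hfc x)
      (hint2.const_mul _).integrableOn measurableSet_Ioi
    intro h hh
    have hh0 : 0 < h := hh
    have hP' : 0 ≤ h ^ (-1 - 2 * s) := Real.rpow_nonneg hh0.le _
    unfold sd2
    rw [hfx]
    have g1 := hfnn (x + h)
    rcases le_or_gt x h with h2 | h2
    · have : f (x - h) = 0 := ff_of_le hε (by linarith)
      rw [this]
      nlinarith
    · have g2 : x ^ (-1 - 2 * s) ≤ h ^ (-1 - 2 * s) :=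
        Real.rpow_le_rpow_of_nonpos hh0 h2.le (by linarith)
      have g3 := hfnn (x - h)
      nlinarith
  have h2 : ∫ h in Ioi (0:ℝ), -(x ^ (-1 - 2 * s)) * f (x - h)
      = -(x ^ (-1 - 2 * s)) * ∫ y, f y := by
    rw [integral_const_mul]
    congr 1
    rw [← integral_sub_left_eq_self f volume x]
    apply setIntegral_eq_integral_of_forall_compl_eq_zero
    intro h hh
    have : h ≤ 0 := not_lt.1 hh
    exact ff_of_ge hβ0 hρ (by linarith)
  have h3 : ∫ y in Ioo (ρ / 2) ρ, GG (ρ ^ β) (y ^ β) ≤ ∫ y, f y := by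
    calc ∫ y in Ioo (ρ / 2) ρ, GG (ρ ^ β) (y ^ β) = ∫ y in Ioo (ρ / 2) ρ, f y := by
          apply setIntegral_congr_fun measurableSet_Ioo
          intro y hy
          exact (ff_of_two hε (by linarith [hy.1])).symm
      _ ≤ ∫ y, f y := setIntegral_le_integral hfint (Eventually.of_forall hfnn)
  calc SD s f x ≤ -(x ^ (-1 - 2 * s)) * ∫ y, f y := by rw [← h2]; exact h1
    _ ≤ -(x ^ (-1 - 2 * s)) * ∫ y in Ioo (ρ / 2) ρ, GG (ρ ^ β) (y ^ β) := by
        apply mul_le_mul_of_nonpos_left h3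
        linarith
    _ = _ := by ring

lemma far_const_pos (hβ0 : β < 0) (hρ : 0 < ρ) :
    0 < ∫ y in Ioo (ρ / 2) ρ, GG (ρ ^ β) (y ^ β) := by
  have hcont : ContinuousOn (fun y : ℝ => GG (ρ ^ β) (y ^ β)) (Icc (ρ / 2) ρ) := by
    intro y hy
    have hy0 : y ≠ 0 := by linarith [hy.1]
    have h1 : ContinuousAt (fun y : ℝ => y ^ β) y := Real.continuousAt_rpow_const y β (Or.inl hy0)
    have h2 : ContinuousAt (GG (ρ ^ β)) (y ^ β) := (GG_hasDerivAt _ _).continuousAt
    exact (ContinuousAt.comp (f := fun y : ℝ => y ^ β) h2 h1).continuousWithinAt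
  have hint : IntegrableOn (fun y : ℝ => GG (ρ ^ β) (y ^ β)) (Ioo (ρ / 2) ρ) :=
    (hcont.integrableOn_compact isCompact_Icc).mono_set Ioo_subset_Icc_self
  rw [setIntegral_pos_iff_support_of_nonneg_ae]
  · have : Ioo (ρ / 2) ρ ⊆ Function.support (fun y : ℝ => GG (ρ ^ β) (y ^ β)) ∩ Ioo (ρ / 2) ρ := by
      intro t ht
      refine ⟨?_, ht⟩
      have h1 : ρ ^ β < t ^ β :=
        Real.rpow_lt_rpow_of_neg (by linarith [ht.1]) ht.2 hβ0
      exact (GG_pos (Real.rpow_nonneg hρ.le _) h1).ne'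
    refine lt_of_lt_of_le ?_ (measure_mono this)
    simp only [Real.volume_Ioo, ENNReal.ofReal_pos]
    linarith
  · exact Eventually.of_forall fun y => GG_nonneg (Real.rpow_nonneg hρ.le _) _
  · exact hint

end

end Pool.Agent.Lib.MP_51d96b_an
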