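import Mathlib

open MeasureTheory Set Filter Topology

namespace Pool.Agent.Lib.MP_51d96b_an

/-- symmetric second difference -/
def sd2 (f : ℝ → ℝ) (x h : ℝ) : ℝ := 2 * f x - f (x + h) - f (x - h)

/-- second-difference form of the fractional Laplacian -/
noncomputable def SD (s : ℝ) (f : ℝ → ℝ) (x : ℝ) : ℝ :=
  ∫ h in Ioi (0:ℝ), sd2 f x h * h ^ (-1 - 2 * s)

/-- the integrable majorant -/
noncomputable def kk (s h : ℝ) : ℝ := min (h ^ 2) 1 * h ^ (-1 - 2 * s)

lemma kk_nonneg {s h : ℝ} (hh : 0 < h) : 0 ≤ kk s h := by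
  unfold kk
  have : 0 ≤ h ^ (-1 - 2 * s) := Real.rpow_nonneg hh.le _
  have h2 : 0 ≤ min (h ^ 2) 1 := le_min (by positivity) zero_le_one
  positivity

lemma kk_integrable {s : ℝ} (hs : 0 < s) (hs1 : s < 1) : IntegrableOn (kk s) (Ioi 0) := by
  have hU : Ioi (0:ℝ) = Ioc 0 1 ∪ Ioi 1 := by
    rw [Ioc_union_Ioi_eq_Ioi zero_le_one]
  rw [hU]
  apply IntegrableOn.union
  · have h1 : IntegrableOn (fun h : ℝ => h ^ (1 - 2 * s)) (Ioc 0 1) := by
      have := (intervalIntegral.intervalIntegrable_rpow' (a := 0) (b := 1) (r := 1 - 2 * s)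
        (by linarith))
      rwa [intervalIntegrable_iff_integrableOn_Ioc_of_le zero_le_one] at this
    refine h1.congr_fun ?_ measurableSet_Ioc
    intro h hh
    unfold kk
    have hpos : 0 < h := hh.1
    simp only
    rw [min_eq_left (by nlinarith [hh.2] : h ^ 2 ≤ 1), ← Real.rpow_natCast, ← Real.rpow_add hpos]
    congr 1
    push_cast
    ring
  · have h1 : IntegrableOn (fun h : ℝ => h ^ (-1 - 2 * s)) (Ioi 1) :=
      integrableOn_Ioi_rpow_of_lt (by linarith) zero_lt_one
    refine h1.congr_fun ?_ measurableSet_Ioi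
    intro h hh
    unfold kk
    have hpos : (1:ℝ) < h := hh
    simp only
    rw [min_eq_right (by nlinarith : (1:ℝ) ≤ h ^ 2), one_mul]

lemma exists_sd2_sq {f : ℝ → ℝ} (hf : ContDiff ℝ 2 f) (hc : HasCompactSupport f) :
    ∃ A : ℝ, 0 ≤ A ∧ ∀ x h, |sd2 f x h| ≤ A * h ^ 2 := by
  have hf' : ContDiff ℝ 1 (deriv f) := by
    have : ContDiff ℝ (1 + 1) f := by
      have e : (1 + 1 : WithTop ℕ∞) = 2 := by norm_num
      rw [e]; exact hf
    exact (contDiff_succ_iff_deriv.1 this).2.2
  obtain ⟨C, hC⟩ := ContDiff.lipschitzWith_of_hasCompactSupport hc.deriv hf' (by norm_num)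
  have hd : Differentiable ℝ f := hf.differentiable (by norm_num)
  have key : ∀ x h, 0 ≤ h → |sd2 f x h| ≤ 2 * C * h ^ 2 := by
    intro x h hh
    rcases hh.eq_or_lt with h0 | h0
    · subst h0
      simp [sd2]
      ring_nf
    · have hder : ∀ y, HasDerivAt (fun y => f (x + y) + f (x - y))
          (deriv f (x + y) - deriv f (x - y)) y := by
        intro y
        have h1 : HasDerivAt (fun y => f (x + y)) (deriv f (x + y)) y := by
          have := (hd (x + y)).hasDerivAt.comp_const_add x y
          simpa using this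
        have h2 : HasDerivAt (fun y => f (x - y)) (-deriv f (x - y)) y := by
          have := (hd (x - y)).hasDerivAt.comp_const_sub x y
          simpa using this
        exact (h1.fun_add h2).congr_deriv (by ring)
      obtain ⟨c, hc1, hc2⟩ := exists_hasDerivAt_eq_slope (fun y => f (x + y) + f (x - y))
        (fun y => deriv f (x + y) - deriv f (x - y)) h0
        (fun y _ => (hder y).continuousAt.continuousWithinAt) (fun y _ => hder y)
      have h3 : |deriv f (x + c) - deriv f (x - c)| ≤ C * |(x + c) - (x - c)| := by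
        have := hC.dist_le_mul (x + c) (x - c)
        rwa [Real.dist_eq, Real.dist_eq] at this
      have h4 : |(x + c) - (x - c)| = 2 * c := by
        rw [show (x + c) - (x - c) = 2 * c by ring]
        exact abs_of_nonneg (by linarith [hc1.1])
      have h5 : sd2 f x h = -((deriv f (x + c) - deriv f (x - c)) * h) := by
        simp only [sub_zero, add_zero] at hc2
        rw [hc2, div_mul_cancel₀ _ h0.ne']
        unfold sd2
        ring
      rw [h5, abs_neg, abs_mul, abs_of_pos h0]
      rw [h4] at h3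
      have h6 : (C:ℝ) * (2 * c) ≤ C * (2 * h) := by
        have := hc1.2.le
        have hC0 : (0:ℝ) ≤ C := C.2
        nlinarith
      calc |deriv f (x + c) - deriv f (x - c)| * h ≤ (C * (2 * h)) * h := by
            apply mul_le_mul_of_nonneg_right (h3.trans h6) h0.le
        _ = 2 * C * h ^ 2 := by ring
  refine ⟨2 * C, by positivity, fun x h => ?_⟩
  rcases le_total 0 h with hh | hh
  · exact key x h hh
  · have := key x (-h) (by linarith)
    have e : sd2 f x (-h) = sd2 f x h := by
      unfold sd2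
      rw [sub_neg_eq_add, ← sub_eq_add_neg]
      ring
    rw [e] at this
    simpa using this

lemma exists_sd2_min {f : ℝ → ℝ} (hf : ContDiff ℝ 2 f) (hc : HasCompactSupport f) :
    ∃ A : ℝ, 0 ≤ A ∧ ∀ x h, |sd2 f x h| ≤ A * min (h ^ 2) 1 := by
  obtain ⟨A, hA, hA'⟩ := exists_sd2_sq hf hc
  obtain ⟨M, hM⟩ := hc.exists_bound_of_continuous hf.continuous
  have hM0 : 0 ≤ M := (norm_nonneg _).trans (hM 0)
  refine ⟨max A (4 * M), le_max_of_le_left hA, fun x h => ?_⟩
  rcases le_total (h ^ 2) 1 with hh | hh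
  · rw [min_eq_left hh]
    exact (hA' x h).trans (mul_le_mul_of_nonneg_right (le_max_left _ _) (by positivity))
  · rw [min_eq_right hh, mul_one]
    have h1 := hM x
    have h2 := hM (x + h)
    have h3 := hM (x - h)
    rw [Real.norm_eq_abs, abs_le] at h1 h2 h3
    refine le_trans ?_ (le_max_right _ _)
    unfold sd2
    rw [abs_le]
    constructor <;> linarith [h1.1, h1.2, h2.1, h2.2, h3.1, h3.2]

lemma continuous_sd2 {f : ℝ → ℝ} (hf : Continuous f) :
    Continuous (fun p : ℝ × ℝ => sd2 f p.1 p.2) := by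
  unfold sd2
  fun_prop

lemma sd_integrable {s : ℝ} (hs : 0 < s) (hs1 : s < 1) {f : ℝ → ℝ} (hf : ContDiff ℝ 2 f)
    (hc : HasCompactSupport f) (x : ℝ) :
    IntegrableOn (fun h => sd2 f x h * h ^ (-1 - 2 * s)) (Ioi 0) := by
  obtain ⟨A, hA, hA'⟩ := exists_sd2_min hf hc
  refine Integrable.mono' ((kk_integrable hs hs1).const_mul A) ?_ ?_
  · apply AEStronglyMeasurable.mul
    · have : Continuous (fun h => sd2 f x h) := by
        have := continuous_sd2 hf.continuous
        exact this.comp (by fun_prop : Continuous fun h : ℝ => (x, h))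
      exact this.aestronglyMeasurable
    · exact (measurable_id.pow_const _).aestronglyMeasurable
  · refine (ae_restrict_iff' measurableSet_Ioi).2 (Eventually.of_forall fun h hh => ?_)
    have hh' : (0:ℝ) < h := hh
    have hp : 0 ≤ h ^ (-1 - 2 * s) := Real.rpow_nonneg hh'.le _
    rw [norm_mul, Real.norm_eq_abs, Real.norm_eq_abs, abs_of_nonneg hp]
    unfold kk
    calc |sd2 f x h| * h ^ (-1 - 2 * s) ≤ (A * min (h ^ 2) 1) * h ^ (-1 - 2 * s) :=
          mul_le_mul_of_nonneg_right (hA' x h) hp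
      _ = A * (min (h ^ 2) 1 * h ^ (-1 - 2 * s)) := by ring

end Pool.Agent.Lib.MP_51d96b_an
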