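import Pool.Agent.Lib.MP_51d96b_an.SD

open MeasureTheory Set Filter Topology

namespace Pool.Agent.Lib.MP_51d96b_an

lemma exists_support_bound {f : ℝ → ℝ} (hc : HasCompactSupport f) :
    ∃ R : ℝ, 0 < R ∧ ∀ x, R < |x| → f x = 0 := by
  obtain ⟨R, hR⟩ := hc.isCompact.isBounded.subset_closedBall 0
  refine ⟨max R 1, lt_max_of_lt_right one_pos, fun x hx => ?_⟩
  by_contra h
  have h1 : x ∈ tsupport f := subset_tsupport f h
  have h2 := hR h1
  rw [Metric.mem_closedBall, Real.dist_eq, sub_zero] at h2
  have := lt_of_le_of_lt (le_max_left R 1) hx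
  linarith

lemma sd2_integrable {f : ℝ → ℝ} (hf : Continuous f) (hc : HasCompactSupport f) (h : ℝ) :
    Integrable (fun x => sd2 f x h) := by
  have h1 := hf.integrable_of_hasCompactSupport (μ := volume) hc
  unfold sd2
  exact ((h1.const_mul 2).sub (h1.comp_add_right h)).sub (h1.comp_sub_right h)

lemma exists_sd2_L1 {f : ℝ → ℝ} (hf : ContDiff ℝ 2 f) (hc : HasCompactSupport f) :
    ∃ C : ℝ, 0 ≤ C ∧ ∀ h, 0 < h → ∫ x, |sd2 f x h| ≤ C * min (h ^ 2) 1 := by
  obtain ⟨A, hA, hA'⟩ := exists_sd2_sq hf hc
  obtain ⟨R, hR0, hR⟩ := exists_support_bound hc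
  have h1 := hf.continuous.integrable_of_hasCompactSupport (μ := volume) hc
  have hI0 : 0 ≤ ∫ x, |f x| := integral_nonneg fun x => abs_nonneg _
  refine ⟨max (A * (2 * (R + 1))) (4 * ∫ x, |f x|),
    le_max_of_le_left (by positivity), fun h hh => ?_⟩
  rcases le_total (h ^ 2) 1 with h2 | h2
  · rw [min_eq_left h2]
    have hh1 : h ≤ 1 := by nlinarith
    have hpt : ∀ x, |sd2 f x h| ≤ (Icc (-(R + 1)) (R + 1)).indicator (fun _ => A * h ^ 2) x := by
      intro x
      by_cases hx : x ∈ Icc (-(R + 1)) (R + 1)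
      · rw [indicator_of_mem hx]
        exact hA' x h
      · rw [indicator_of_notMem hx]
        have hx' : R + 1 < |x| := by
          by_contra hcon
          push Not at hcon
          exact hx (abs_le.1 hcon)
        have e1 : f x = 0 := hR x (by linarith)
        have e2 : f (x + h) = 0 := by
          apply hR
          have := abs_sub_abs_le_abs_sub x (-h)
          rw [sub_neg_eq_add, abs_neg, abs_of_pos hh] at this
          linarith
        have e3 : f (x - h) = 0 := by
          apply hR
          have := abs_sub_abs_le_abs_sub x h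
          rw [abs_of_pos hh] at this
          linarith
        simp [sd2, e1, e2, e3]
    have hint : Integrable ((Icc (-(R + 1)) (R + 1)).indicator (fun _ => A * h ^ 2)) := by
      rw [integrable_indicator_iff measurableSet_Icc]
      exact integrableOn_const (by simp)
    calc ∫ x, |sd2 f x h| ≤ ∫ x, (Icc (-(R + 1)) (R + 1)).indicator (fun _ => A * h ^ 2) x :=
          integral_mono (sd2_integrable hf.continuous hc h).abs hint hpt
      _ = (A * (2 * (R + 1))) * h ^ 2 := by
          rw [integral_indicator measurableSet_Icc, setIntegral_const]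
          simp only [measureReal_def, Real.volume_Icc, smul_eq_mul]
          rw [ENNReal.toReal_ofReal (by linarith)]
          ring
      _ ≤ _ := mul_le_mul_of_nonneg_right (le_max_left _ _) (by positivity)
  · rw [min_eq_right h2, mul_one]
    have hpt : ∀ x, |sd2 f x h| ≤ 2 * |f x| + |f (x + h)| + |f (x - h)| := by
      intro x
      unfold sd2
      calc |2 * f x - f (x + h) - f (x - h)| ≤ |2 * f x - f (x + h)| + |f (x - h)| := abs_sub _ _
        _ ≤ |2 * f x| + |f (x + h)| + |f (x - h)| := by gcongr; exact abs_sub _ _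
        _ = _ := by rw [abs_mul, abs_of_pos (by norm_num : (0:ℝ) < 2)]
    have ha := h1.abs
    have hb := ha.comp_add_right h
    have hd := ha.comp_sub_right h
    calc ∫ x, |sd2 f x h| ≤ ∫ x, (2 * |f x| + |f (x + h)| + |f (x - h)|) :=
          integral_mono (sd2_integrable hf.continuous hc h).abs
            (((ha.const_mul 2).add hb).add hd) hpt
      _ = 4 * ∫ x, |f x| := by
          have e1 : ∫ x, (2 * |f x| + |f (x + h)| + |f (x - h)|)
              = (∫ x, (2 * |f x| + |f (x + h)|)) + ∫ x, |f (x - h)| :=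
            integral_add ((ha.const_mul 2).add hb) hd
          have e2 : ∫ x, (2 * |f x| + |f (x + h)|) = (∫ x, 2 * |f x|) + ∫ x, |f (x + h)| :=
            integral_add (ha.const_mul 2) hb
          rw [e1, e2, integral_const_mul, integral_add_right_eq_self (fun x => |f x|) h,
            integral_sub_right_eq_self (fun x => |f x|) h]
          ring
      _ ≤ _ := le_max_right _ _

lemma sd_prod_integrable {s : ℝ} (hs : 0 < s) (hs1 : s < 1) {f : ℝ → ℝ} (hf : ContDiff ℝ 2 f)
    (hc : HasCompactSupport f) :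
    Integrable (fun p : ℝ × ℝ => sd2 f p.1 p.2 * p.2 ^ (-1 - 2 * s))
      (volume.prod (volume.restrict (Ioi 0))) := by
  have hmeas : Measurable (fun p : ℝ × ℝ => sd2 f p.1 p.2 * p.2 ^ (-1 - 2 * s)) :=
    (continuous_sd2 hf.continuous).measurable.mul (measurable_snd.pow_const _)
  rw [integrable_prod_iff' hmeas.aestronglyMeasurable]
  obtain ⟨C, hC, hC'⟩ := exists_sd2_L1 hf hc
  constructor
  · exact Eventually.of_forall fun h =>
      (sd2_integrable hf.continuous hc h).mul_const (h ^ (-1 - 2 * s))
  · refine Integrable.mono' ((kk_integrable hs hs1).const_mul C) ?_ ?_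
    · exact (hmeas.norm.stronglyMeasurable.integral_prod_left').aestronglyMeasurable
    · refine (ae_restrict_iff' measurableSet_Ioi).2 (Eventually.of_forall fun h hh => ?_)
      have hh' : (0:ℝ) < h := hh
      have hp : 0 ≤ h ^ (-1 - 2 * s) := Real.rpow_nonneg hh'.le _
      have e : ∫ x, ‖sd2 f x h * h ^ (-1 - 2 * s)‖ = (∫ x, |sd2 f x h|) * h ^ (-1 - 2 * s) := by
        rw [← integral_mul_const]
        congr 1
        ext x
        rw [norm_mul, Real.norm_eq_abs, Real.norm_eq_abs, abs_of_nonneg hp]
      simp only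
      rw [e, Real.norm_eq_abs, abs_of_nonneg
        (mul_nonneg (integral_nonneg fun x => abs_nonneg _) hp)]
      unfold kk
      calc (∫ x, |sd2 f x h|) * h ^ (-1 - 2 * s) ≤ (C * min (h ^ 2) 1) * h ^ (-1 - 2 * s) :=
            mul_le_mul_of_nonneg_right (hC' h hh') hp
        _ = C * (min (h ^ 2) 1 * h ^ (-1 - 2 * s)) := by ring

lemma SD_integrable {s : ℝ} (hs : 0 < s) (hs1 : s < 1) {f : ℝ → ℝ} (hf : ContDiff ℝ 2 f)
    (hc : HasCompactSupport f) : Integrable (SD s f) :=
  (sd_prod_integrable hs hs1 hf hc).integral_prod_left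

end Pool.Agent.Lib.MP_51d96b_an
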