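import Pool.Agent.Lib.MP_51d96b_an.GG
import Pool.Agent.Lib.MP_51d96b_an.Mult2
import Pool.Agent.Lib.MP_51d96b_an.Const

open MeasureTheory Set Filter Topology
open scoped ContDiff

namespace Pool.Agent.Lib.MP_51d96b_an

/-- the test functions -/
noncomputable def ff (β ρ ε x : ℝ) : ℝ := SS (x / ε - 1) * GG (ρ ^ β) (x ^ β)

section
variable {β ρ ε : ℝ}

lemma ff_of_le (hε : 0 < ε) {x : ℝ} (hx : x ≤ ε) : ff β ρ ε x = 0 := by
  unfold ff
  have : x / ε - 1 ≤ 0 := by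
    rw [sub_nonpos, div_le_one hε]; exact hx
  rw [SS, Real.smoothTransition.zero_of_nonpos this, zero_mul]

lemma ff_of_ge (hβ0 : β < 0) (hρ : 0 < ρ) {x : ℝ} (hx : ρ ≤ x) : ff β ρ ε x = 0 := by
  unfold ff
  rw [GG_of_le (Real.rpow_nonneg hρ.le _) (Real.rpow_le_rpow_of_nonpos hρ hx hβ0.le), mul_zero]

lemma ff_of_two (hε : 0 < ε) {x : ℝ} (hx : 2 * ε ≤ x) : ff β ρ ε x = GG (ρ ^ β) (x ^ β) := by
  unfold ff
  have : 1 ≤ x / ε - 1 := by
    rw [le_sub_iff_add_le, le_div_iff₀ hε]; linarith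
  rw [SS, Real.smoothTransition.one_of_one_le this, one_mul]

lemma ff_nonneg (hρ : 0 < ρ) (x : ℝ) : 0 ≤ ff β ρ ε x :=
  mul_nonneg (SS_nonneg _) (GG_nonneg (Real.rpow_nonneg hρ.le _) _)

lemma ff_le_rpow {x : ℝ} (hρ : 0 < ρ) (hx : 0 < x) : ff β ρ ε x ≤ x ^ β := by
  unfold ff
  have h1 := GG_le (B := ρ ^ β) (Real.rpow_nonneg hx.le β)
  have h2 := SS_le_one (x / ε - 1)
  have h3 := GG_nonneg (Real.rpow_nonneg hρ.le β) (x ^ β)
  nlinarith [SS_nonneg (x / ε - 1)]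

lemma ff_le (hβ0 : β < 0) (hρ : 0 < ρ) (hε : 0 < ε) (x : ℝ) : ff β ρ ε x ≤ ε ^ β := by
  rcases le_total x ε with h | h
  · rw [ff_of_le hε h]; positivity
  · exact (ff_le_rpow hρ (by linarith)).trans (Real.rpow_le_rpow_of_nonpos hε h hβ0.le)

lemma ff_contDiff (hε : 0 < ε) : ContDiff ℝ ∞ (ff β ρ ε) := by
  rw [contDiff_iff_contDiffAt]
  intro x
  rcases lt_or_ge x ε with h | h
  · have : ff β ρ ε =ᶠ[𝓝 x] fun _ => 0 := by
      filter_upwards [gt_mem_nhds h] with y hy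
      exact ff_of_le hε (le_of_lt hy)
    exact contDiffAt_const.congr_of_eventuallyEq this
  · unfold ff
    have hx : x ≠ 0 := by linarith
    apply ContDiffAt.mul
    · exact (Real.smoothTransition.contDiffAt (n := ⊤)).comp x
        ((contDiffAt_id.div_const ε).sub contDiffAt_const)
    · exact (GG_contDiff _).contDiffAt.comp x (Real.contDiffAt_rpow_const_of_ne hx)

lemma ff_support (hβ0 : β < 0) (hρ : 0 < ρ) (hε : 0 < ε) :
    Function.support (ff β ρ ε) ⊆ Icc ε ρ := by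
  intro x hx
  rw [Function.mem_support] at hx
  constructor
  · by_contra h
    exact hx (ff_of_le hε (by linarith))
  · by_contra h
    exact hx (ff_of_ge hβ0 hρ (by linarith))

lemma ff_tsupport (hβ0 : β < 0) (hρ : 0 < ρ) (hε : 0 < ε) :
    tsupport (ff β ρ ε) ⊆ Icc ε ρ :=
  closure_minimal (ff_support hβ0 hρ hε) isClosed_Icc

lemma ff_compact (hβ0 : β < 0) (hρ : 0 < ρ) (hε : 0 < ε) : HasCompactSupport (ff β ρ ε) :=
  isCompact_Icc.of_isClosed_subset (isClosed_tsupport _) (ff_tsupport hβ0 hρ hε)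

/-- derivative formula on the positive half line -/
lemma ff_hasDerivAt {x : ℝ} (hx : 0 < x) :
    HasDerivAt (ff β ρ ε) (deriv SS (x / ε - 1) * (1 / ε) * GG (ρ ^ β) (x ^ β)
      + SS (x / ε - 1) * (SS (x ^ β - ρ ^ β) * (β * x ^ (β - 1)))) x := by
  unfold ff
  have h1 : HasDerivAt (fun x : ℝ => x / ε - 1) (1 / ε) x := by
    have := ((hasDerivAt_id x).div_const ε).sub_const 1
    simpa using this
  have h2 : HasDerivAt (fun x => SS (x / ε - 1)) (deriv SS (x / ε - 1) * (1 / ε)) x :=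
    (SS_diff _).hasDerivAt.comp x h1
  have h3 : HasDerivAt (fun x : ℝ => x ^ β) (β * x ^ (β - 1)) x :=
    Real.hasDerivAt_rpow_const (Or.inl hx.ne')
  have h4 : HasDerivAt (fun x => GG (ρ ^ β) (x ^ β))
      (SS (x ^ β - ρ ^ β) * (β * x ^ (β - 1))) x := (GG_hasDerivAt _ _).comp x h3
  exact h2.mul h4

lemma rpow_lip {c a b : ℝ} (hβ0 : β < 0) (hc : 0 < c) (ha : c ≤ a) (hb : c ≤ b) :
    |a ^ β - b ^ β| ≤ (-β) * c ^ (β - 1) * |a - b| := by
  have := Convex.norm_image_sub_le_of_norm_hasDerivWithin_le (f := fun x : ℝ => x ^ β)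
    (f' := fun x => β * x ^ (β - 1)) (C := (-β) * c ^ (β - 1)) (s := Ici c) (x := b) (y := a)
    (fun x hx => (Real.hasDerivAt_rpow_const
      (Or.inl (lt_of_lt_of_le hc hx).ne')).hasDerivWithinAt) (fun x hx => by
      have hx' : c ≤ x := hx
      have hx0 : 0 < x := lt_of_lt_of_le hc hx'
      rw [norm_mul, Real.norm_eq_abs, Real.norm_eq_abs, abs_of_neg hβ0,
        abs_of_nonneg (Real.rpow_nonneg hx0.le _)]
      apply mul_le_mul_of_nonneg_left _ (by linarith)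
      exact Real.rpow_le_rpow_of_nonpos hc hx' (by linarith)) (convex_Ici c) hb ha
  simpa [Real.norm_eq_abs] using this

lemma rpow_sd2_nonpos {x h : ℝ} (hβ0 : β < 0) (hh : 0 < h) (hxh : h < x) :
    2 * x ^ β - (x + h) ^ β - (x - h) ^ β ≤ 0 := by
  have hx : 0 < x := by linarith
  have h1 : 0 < x - h := by linarith
  have h2 : 0 < x + h := by linarith
  set p := (x + h) ^ (β / 2) with hp
  set q := (x - h) ^ (β / 2) with hq
  have hp2 : p * p = (x + h) ^ β := by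
    rw [hp, ← Real.rpow_add h2]; congr 1; ring
  have hq2 : q * q = (x - h) ^ β := by
    rw [hq, ← Real.rpow_add h1]; congr 1; ring
  have hpq : x ^ β ≤ p * q := by
    rw [hp, hq, ← Real.mul_rpow h2.le h1.le]
    have e : x ^ β = (x * x) ^ (β / 2) := by
      rw [Real.mul_rpow hx.le hx.le, ← Real.rpow_add hx]; congr 1; ring
    rw [e]
    apply Real.rpow_le_rpow_of_nonpos (mul_pos h2 h1) _ (by linarith)
    nlinarith
  rw [← hp2, ← hq2]
  nlinarith [mul_self_nonneg (p - q)]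

end

end Pool.Agent.Lib.MP_51d96b_an
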